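import Pool.Agent.Arm55.Surv

/-!
The comparison at and above the critical point.
-/

set_option autoImplicit false

open Finset MeasureTheory Filter Topology
open scoped NNReal ENNReal

namespace Pool.Agent.Arm55

open Pool.Agent.FPP38

variable {d : ℕ}

theorem EB_mono {m n : ℕ} (h : m ≤ n) : EB (0 : Fin d → ℤ) m ⊆ EB 0 n := by
  intro e he
  induction e using Sym2.ind with
  | _ x y =>
    rw [mem_EB] at he ⊢
    exact ⟨box_mono h he.1, box_mono h he.2.1, he.2.2⟩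

theorem radius_fin' {n M : ℕ} (hM : n ≤ M) {ω : Sym2 (Fin d → ℤ) → Bool} :
    ω ∈ radiusGE d n ↔ XI d n (opn (EB 0 M) ω) := by
  rw [radius_iff, geo_loc]
  show _ ↔ Geo (fun e => e ∈ opn (EB (0 : Fin d → ℤ) M) ω) n
  rw [geo_loc (P := fun e => e ∈ opn (EB (0 : Fin d → ℤ) M) ω)]
  have : (fun e => ω e = true ∧ e ∈ EB (0 : Fin d → ℤ) n) =
      fun e => e ∈ opn (EB (0 : Fin d → ℤ) M) ω ∧ e ∈ EB (0 : Fin d → ℤ) n := by
    funext e
    rw [mem_opn]
    exact propext ⟨fun h => ⟨⟨EB_mono hM h.2, h.1⟩, h.2⟩, fun h => ⟨h.1.2, h.2⟩⟩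
  rw [this]

theorem armIn_eq' {p : ℝ≥0} (hp : p ≤ 1) {n M : ℕ} (hM : n ≤ M) :
    armIn p hp d n = Pr p (EB 0 M) (XI d n) := by
  have h1 : (p : ℝ) ≤ 1 := by exact_mod_cast hp
  have h2 : PB (Fin d → ℤ) p hp (radiusGE d n) = ENNReal.ofReal (Pr p (EB 0 M) (XI d n)) := by
    rw [← measure_event hp (EB 0 M) (XI d n)]
    congr 1
    ext ω
    exact radius_fin' hM
  rw [armIn, h2, ENNReal.toReal_ofReal (Pr_nonneg p.coe_nonneg h1 _ _)]

/-- the comparison with the one-arm probabilities of two boxes -/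
theorem two_box {q : ℝ≥0} (hq0 : 0 < q) (hq1 : q ≤ 1) {n N : ℕ} (hN : 1 ≤ N)
    (hθ : 0 < arm q d N) {v : ℝ} (hv : 0 ≤ v) :
    1 - (1 - (TT (q : ℝ))^[n] (1 - Real.exp (-v))) ^ (arm q d (n + N) / arm q d N) ≤
      armIn q hq1 d n := by
  have h0 : (0 : ℝ) < q := by exact_mod_cast hq0
  have h1 : (q : ℝ) ≤ 1 := by exact_mod_cast hq1
  have hs : 0 ≤ v / arm q d N := div_nonneg hv hθ.le
  have h2 := level_bound (n := n) h0 h1 hN hθ hs n 0 (EB (0 : Fin d → ℤ) (n + N)) {0}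
    (lat_EB _ _) (by omega) (singleton_subset_iff.2 (self_mem_box _ _))
  have h3 : Pr (q : ℝ) (EB (0 : Fin d → ℤ) (n + N)) (RS n {0}) ≤ armIn q hq1 d n := by
    rw [armIn_eq' hq1 (Nat.le_add_right n N)]
    exact Pr_mono h0.le h1 fun O hO h => RS_XI (fun x y hxy => lat_EB _ _ x y (hO hxy)) h
  refine le_trans (le_of_eq ?_) (h2.trans h3)
  have h4 := expo_TT (s := v / arm q d N) h0 h1 hθ n
  rw [div_mul_cancel₀ _ hθ.ne'] at h4
  rw [← h4, sub_sub_cancel, ← Real.exp_mul]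
  congr 2
  show -(expo (q : ℝ) (arm q d N) (v / arm q d N) n * arm q d N) *
    (arm q d (n + N) / arm q d N) = -(expo (q : ℝ) (arm q d N) (v / arm q d N) n * arm q d (n + N))
  field_simp

theorem arm_anti {q : ℝ} (h0 : 0 ≤ q) (h1 : q ≤ 1) : Antitone (fun N => arm q d N) := by
  refine antitone_nat_of_succ_le fun N => ?_
  have h := far_le h0 h1 (lat_EB (0 : Fin d → ℤ) (1 + N)) (n := 1) (N := N) (u := 0)
    (self_mem_box _ _)
  rw [Nat.add_comm N 1]
  exact h

/-- above the critical point the one-arm probabilities are bounded below -/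
theorem arm_pos {q : ℝ≥0} (hq : pc d < q) (hq1 : q ≤ 1) :
    ∃ c : ℝ, 0 < c ∧ ∀ N, c ≤ arm q d N := by
  have hne : PB (Fin d → ℤ) q hq1 (infiniteCluster d) ≠ 0 := by
    intro h
    exact absurd (le_csSup (pc_bdd d) ⟨hq1, h⟩) (not_le.2 hq)
  have h1 : (q : ℝ) ≤ 1 := by exact_mod_cast hq1
  have htop : PB (Fin d → ℤ) q hq1 (infiniteCluster d) ≠ ⊤ :=
    ne_top_of_le_ne_top ENNReal.ofReal_ne_top (inf_le_arm hq1 0)
  refine ⟨(PB (Fin d → ℤ) q hq1 (infiniteCluster d)).toReal, ENNReal.toReal_pos hne htop,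
    fun N => ?_⟩
  refine ENNReal.toReal_le_of_le_ofReal ?_ (inf_le_arm hq1 N)
  exact Pr_nonneg q.coe_nonneg h1 _ _

theorem arm_ratio {q : ℝ≥0} (hq : pc d < q) (hq1 : q ≤ 1) (n : ℕ) :
    Tendsto (fun N => arm q d (n + N) / arm q d N) atTop (𝓝 1) := by
  have h1 : (q : ℝ) ≤ 1 := by exact_mod_cast hq1
  obtain ⟨c, hc, hcN⟩ := arm_pos hq hq1
  have hlim := tendsto_atTop_ciInf (arm_anti (d := d) q.coe_nonneg h1)
    ⟨c, by rintro _ ⟨N, rfl⟩; exact hcN N⟩
  set L := ⨅ N, arm (q : ℝ) d N with hL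
  have hLc : c ≤ L := le_ciInf hcN
  have h2 : Tendsto (fun N => arm (q : ℝ) d (n + N)) atTop (𝓝 L) := by
    have := hlim.comp (tendsto_add_atTop_nat n)
    refine this.congr fun N => ?_
    show arm (q : ℝ) d (N + n) = _
    rw [Nat.add_comm]
  have h3 := h2.div hlim (hc.trans_le hLc).ne'
  rwa [div_self (hc.trans_le hLc).ne'] at h3

/-- the comparison above the critical point -/
theorem surv_le_super {q : ℝ≥0} (hq : pc d < q) (hq1 : q ≤ 1) (n : ℕ) :
    surv q n ≤ armIn q hq1 d n := by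
  have h1 : (q : ℝ) ≤ 1 := by exact_mod_cast hq1
  have hq0 : 0 < q := (pc_pos d).trans hq
  have h0 : (0 : ℝ) < q := by exact_mod_cast hq0
  obtain ⟨c, hc, hcN⟩ := arm_pos hq hq1
  have step1 : ∀ v : ℝ, 0 ≤ v → (TT (q : ℝ))^[n] (1 - Real.exp (-v)) ≤ armIn q hq1 d n := by
    intro v hv
    have hpos : 0 < 1 - (TT (q : ℝ))^[n] (1 - Real.exp (-v)) := by
      have h2 := expo_TT (θ := (1 : ℝ)) (s := v) h0 h1 one_pos n
      rw [mul_one v] at h2
      rw [← h2, sub_sub_cancel]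
      exact Real.exp_pos _
    have hlim : Tendsto (fun N => 1 - (1 - (TT (q : ℝ))^[n] (1 - Real.exp (-v))) ^
        (arm (q : ℝ) d (n + N) / arm (q : ℝ) d N)) atTop
        (𝓝 (1 - (1 - (TT (q : ℝ))^[n] (1 - Real.exp (-v))) ^ (1 : ℝ))) := by
      refine tendsto_const_nhds.sub ?_
      exact ((Real.continuous_const_rpow hpos.ne').tendsto 1).comp (arm_ratio hq hq1 n)
    rw [Real.rpow_one, sub_sub_cancel] at hlim
    refine le_of_tendsto hlim ?_
    filter_upwards [eventually_ge_atTop 1] with N hN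
    exact two_box hq0 hq1 hN (hc.trans_le (hcN N)) hv
  rw [surv_eq]
  have hlim2 : Tendsto (fun v : ℝ => (TT (q : ℝ))^[n] (1 - Real.exp (-v))) atTop
      (𝓝 ((TT (q : ℝ))^[n] (1 - 0))) := by
    refine (((continuous_TT h0).iterate n).tendsto _).comp ?_
    exact tendsto_const_nhds.sub Real.tendsto_exp_neg_atTop_nhds_zero
  rw [sub_zero] at hlim2
  refine le_of_tendsto hlim2 ?_
  filter_upwards [eventually_ge_atTop (0 : ℝ)] with v hv
  exact step1 v hv

theorem continuousAt_surv {q : ℝ} (hq : 0 < q) (n : ℕ) : ContinuousAt (fun q => surv q n) q := by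
  induction n with
  | zero => exact continuousAt_const
  | succ n ih =>
    show ContinuousAt (fun q => 1 - (1 - q * surv q n) ^ (1 / q)) q
    refine continuousAt_const.sub (ContinuousAt.rpow ?_ ?_ (Or.inr (by positivity)))
    · exact continuousAt_const.sub (continuousAt_id.mul ih)
    · exact continuousAt_const.div continuousAt_id hq.ne'

theorem Pr_one (A : Finset (Sym2 (Fin d → ℤ))) {X : Finset (Sym2 (Fin d → ℤ)) → Prop} (h : X A) :
    Pr 1 A X = 1 := by
  induction A using Finset.induction_on generalizing X with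
  | empty =>
    rw [← Pr_true 1 (∅ : Finset (Sym2 (Fin d → ℤ)))]
    exact Pr_congr fun O hO => by rw [subset_empty.1 hO]; exact ⟨fun _ => trivial, fun _ => h⟩
  | insert e A he ih =>
    rw [Pr_insert he, ih h]
    ring

theorem line_RL (n : ℕ) (i₀ : Fin d) : ∀ k ≤ n,
    RL (fun e => e ∈ EB (0 : Fin d → ℤ) n) k (Pi.single i₀ (k : ℤ)) := by
  intro k
  induction k with
  | zero =>
    intro _
    have : (Pi.single i₀ ((0 : ℕ) : ℤ) : Fin d → ℤ) = 0 := by
      rw [Nat.cast_zero, Pi.single_zero]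
    rw [this]
    exact RL.zero
  | succ k ih =>
    intro hk
    have hb : ∀ j ≤ n, (Pi.single i₀ (j : ℤ) : Fin d → ℤ) ∈ box (0 : Fin d → ℤ) n := by
      intro j hj
      rw [Pool.Agent.FPP38.mem_box]
      intro i
      rcases eq_or_ne i i₀ with rfl | hi
      · rw [Pi.single_eq_same]
        simpa using hj
      · rw [Pi.single_eq_of_ne hi]
        simp
    have hn : Nb (Pi.single i₀ (k : ℤ) : Fin d → ℤ) (Pi.single i₀ ((k + 1 : ℕ) : ℤ)) := by
      unfold Nb
      rw [Finset.sum_eq_single i₀]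
      · rw [Pi.single_eq_same, Pi.single_eq_same]
        push_cast
        simp
      · intro i _ hi
        rw [Pi.single_eq_of_ne hi, Pi.single_eq_of_ne hi]
        simp
      · intro h
        exact absurd (mem_univ _) h
    exact RL.succ (ih (by omega)) hn (mem_EB.2 ⟨hb k (by omega), hb (k + 1) hk, hn⟩)

theorem XI_full (hd : 0 < d) (n : ℕ) : XI d n (EB 0 n) := by
  have h := line_RL n (⟨0, hd⟩ : Fin d) n le_rfl
  refine geo_of_far h (mem_sph.2 ⟨fun i => ?_, ⟨0, hd⟩, ?_⟩)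
  · have := h.mem_box
    exact Pool.Agent.FPP38.mem_box.1 this i
  · rw [Pi.single_eq_same]
    simp

/-- **The comparison.** -/
theorem surv_le_armIn (hd : 0 < d) {q : ℝ≥0} (hq : pc d ≤ q) (hq1 : q ≤ 1) (n : ℕ) :
    surv q n ≤ armIn q hq1 d n := by
  rcases hq.lt_or_eq with h | rfl
  · exact surv_le_super h hq1 n
  · rcases hq1.lt_or_eq with h1 | h1
    · rw [armIn_eq]
      have hpc0 : (0 : ℝ) < pc d := by exact_mod_cast pc_pos d
      have hlt : ((pc d : ℝ≥0) : ℝ) < 1 := by exact_mod_cast h1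
      have hc1 : Tendsto (fun q : ℝ => surv q n) (𝓝[>] ((pc d : ℝ≥0) : ℝ))
          (𝓝 (surv (pc d : ℝ≥0) n)) :=
        ((continuousAt_surv hpc0 n).tendsto).mono_left nhdsWithin_le_nhds
      have hc2 : Tendsto (fun q : ℝ => Pr q (EB (0 : Fin d → ℤ) n) (XI d n))
          (𝓝[>] ((pc d : ℝ≥0) : ℝ)) (𝓝 (Pr (pc d : ℝ≥0) (EB (0 : Fin d → ℤ) n) (XI d n))) :=
        ((continuous_Pr _ _).tendsto _).mono_left nhdsWithin_le_nhds
      refine le_of_tendsto_of_tendsto hc1 hc2 ?_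
      filter_upwards [Ioo_mem_nhdsGT hlt] with r hr
      have hr0 : 0 ≤ r := hpc0.le.trans hr.1.le
      have h2 : pc d < (⟨r, hr0⟩ : ℝ≥0) := by
        rw [← NNReal.coe_lt_coe]
        exact hr.1
      have h3 : (⟨r, hr0⟩ : ℝ≥0) ≤ 1 := NNReal.coe_le_coe.1 hr.2.le
      have h4 := surv_le_super h2 h3 n
      rw [armIn_eq] at h4
      exact h4
    · have h2 : ((pc d : ℝ≥0) : ℝ) = 1 := by rw [h1]; rfl
      rw [armIn_eq, h2, surv_one, Pr_one _ (XI_full hd n)]

theorem armIn_explicit (hd : 0 < d) {q : ℝ≥0} (hq : pc d ≤ q) (hq1 : q ≤ 1) (n : ℕ) :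
    1 / (1 + (1 - q) * n) ≤ armIn q hq1 d n :=
  (surv_explicit (by exact_mod_cast (pc_pos d).trans_le hq) (by exact_mod_cast hq1) n).trans
    (surv_le_armIn hd hq hq1 n)

theorem armIn_liminf (hd : 0 < d) (h1 : pc d < 1) {c : ℝ} (hc : c < 2 / (1 - pc d)) :
    ∀ᶠ n : ℕ in atTop, c ≤ n * armIn (pc d) (pc_le_one d) d n := by
  filter_upwards [surv_liminf (by exact_mod_cast pc_pos d) (by exact_mod_cast h1) hc] with n hn
  exact hn.trans (mul_le_mul_of_nonneg_left (surv_le_armIn hd le_rfl (pc_le_one d) n)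
    (Nat.cast_nonneg n))

end Pool.Agent.Arm55
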