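import Pool.Agent.Arm55.Fin
import Pool.Agent.FPP38.Arm

/-!
The differential inequality of Duminil-Copin and Tassion, by revealing the edges at the sphere.
-/

set_option autoImplicit false

open Finset

namespace Pool.Agent.Arm55

open Pool.Agent.FPP38

variable {d : ℕ}

open Classical in
/-- the neighbours of `x` outside `S` -/
noncomputable def out (S : Finset (Fin d → ℤ)) (x : Fin d → ℤ) : Finset (Fin d → ℤ) :=
  (box x 1).filter fun y => Nb x y ∧ y ∉ S

open Classical in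
theorem mem_out {S : Finset (Fin d → ℤ)} {x y : Fin d → ℤ} : y ∈ out S x ↔ Nb x y ∧ y ∉ S := by
  rw [out, mem_filter]
  constructor
  · rintro ⟨_, h⟩
    exact h
  · intro h
    refine ⟨mem_box.2 fun i => ?_, h⟩
    have := h.1.symm.abs_le i
    simpa using this

open Classical in
/-- the edges inside `S` -/
noncomputable def EI (S : Finset (Fin d → ℤ)) : Finset (Sym2 (Fin d → ℤ)) :=
  ((S ×ˢ S).filter fun q => Nb q.1 q.2).image fun q => s(q.1, q.2)

open Classical in
theorem mem_EI {S : Finset (Fin d → ℤ)} {x y : Fin d → ℤ} :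
    s(x, y) ∈ EI S ↔ x ∈ S ∧ y ∈ S ∧ Nb x y := by
  rw [EI, mem_image]
  constructor
  · rintro ⟨⟨a, b⟩, hq, he⟩
    rw [mem_filter, mem_product] at hq
    rw [Sym2.eq_iff] at he
    obtain ⟨⟨h1, h2⟩, h3⟩ := hq
    simp only at h1 h2 h3 he
    rcases he with ⟨rfl, rfl⟩ | ⟨rfl, rfl⟩
    · exact ⟨h1, h2, h3⟩
    · exact ⟨h2, h1, h3.symm⟩
  · rintro ⟨h1, h2, h3⟩
    exact ⟨(x, y), by rw [mem_filter, mem_product]; exact ⟨⟨h1, h2⟩, h3⟩, rfl⟩

/-- the quantity `φ_p(S)` -/
noncomputable def phi (p : ℝ) (S : Finset (Fin d → ℤ)) : ℝ :=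
  ∑ x ∈ S, ((out S x).card : ℝ) * (p * Q p {x} (EI S) {0})

theorem phi_nonneg {p : ℝ} (h0 : 0 ≤ p) (h1 : p ≤ 1) (S : Finset (Fin d → ℤ)) : 0 ≤ phi p S :=
  sum_nonneg fun _ _ => mul_nonneg (Nat.cast_nonneg _) (mul_nonneg h0 (Q_nonneg h0 h1 _ _ _))

theorem continuous_phi (S : Finset (Fin d → ℤ)) : Continuous fun p : ℝ => phi p S := by
  unfold phi
  refine continuous_finsetSum _ fun x _ => continuous_const.mul (continuous_id.mul ?_)
  exact continuous_Pr _ _

theorem Pr_edge_le {p : ℝ} (h0 : 0 ≤ p) (h1 : p ≤ 1) {V : Type*} [DecidableEq V]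
    (A : Finset (Sym2 V)) (e : Sym2 V) (Y : Finset (Sym2 V) → Prop) :
    Pr p A (fun O => e ∈ O ∧ Y (O.erase e)) ≤ p * Pr p (A.erase e) Y := by
  by_cases he : e ∈ A
  · rw [Pr_erase he]
    have e1 : Pr p (A.erase e) (fun O => e ∈ insert e O ∧ Y ((insert e O).erase e)) =
        Pr p (A.erase e) Y := by
      refine Pr_congr fun O hO => ?_
      have hn : e ∉ O := fun h => (notMem_erase _ _) (hO h)
      rw [erase_insert hn]
      exact ⟨fun h => h.2, fun h => ⟨mem_insert_self _ _, h⟩⟩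
    have e2 : Pr p (A.erase e) (fun O => e ∈ O ∧ Y (O.erase e)) = 0 := by
      rw [← Pr_false p (A.erase e)]
      exact Pr_congr fun O hO => ⟨fun h => (notMem_erase _ _) (hO h.1), fun h => h.elim⟩
    rw [e1, e2]
    linarith
  · have e2 : Pr p A (fun O => e ∈ O ∧ Y (O.erase e)) = 0 := by
      rw [← Pr_false p A]
      exact Pr_congr fun O hO => ⟨fun h => he (hO h.1), fun h => h.elim⟩
    rw [e2]
    exact mul_nonneg h0 (Pr_nonneg h0 h1 _ _)

/-- leaving an exhausted set -/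
theorem leave {A : Finset (Sym2 (Fin d → ℤ))} (hA : Lat A) {S C : Finset (Fin d → ℤ)} (hC : C ⊆ S)
    (hE : Exh (A ∩ EI S) C) {O : Finset (Sym2 (Fin d → ℤ))} (hO : O ⊆ A) {v : Fin d → ℤ}
    (h : Rch O C v) :
    v ∈ C ∨ ∃ x ∈ C, ∃ y ∈ out S x, s(x, y) ∈ O ∧ Rch (O.erase s(x, y)) {y} v := by
  induction h with
  | base h => exact Or.inl h
  | @step u v _ hs ih =>
    have hnb := hA _ _ (hO hs)
    rcases ih with h1 | ⟨x, hx, y, hy, he, hr⟩
    · by_cases hv : v ∈ C
      · exact Or.inl hv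
      · right
        have hvS : v ∉ S := fun hvS =>
          hv (hE u h1 v (mem_inter.2 ⟨hO hs, mem_EI.2 ⟨hC h1, hvS, hnb⟩⟩))
        exact ⟨u, h1, v, mem_out.2 ⟨hnb, hvS⟩, hs, Rch.base (mem_singleton_self _)⟩
    · by_cases hc : s(u, v) = s(x, y)
      · rw [Sym2.eq_iff] at hc
        rcases hc with ⟨rfl, rfl⟩ | ⟨rfl, rfl⟩
        · exact Or.inr ⟨u, hx, v, hy, he, Rch.base (mem_singleton_self _)⟩
        · exact Or.inl hx
      · exact Or.inr ⟨x, hx, y, hy, he, Rch.step hr (mem_erase.2 ⟨hc, hs⟩)⟩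

theorem Q_leave {p : ℝ} (h0 : 0 ≤ p) (h1 : p ≤ 1) {A : Finset (Sym2 (Fin d → ℤ))} (hA : Lat A)
    {n N : ℕ} {S C : Finset (Fin d → ℤ)} (hS : S ⊆ box 0 n) (hC : C ⊆ S)
    (hE : Exh (A ∩ EI S) C) :
    Q p (sph (0 : Fin d → ℤ) (n + 1 + N) : Set (Fin d → ℤ)) A C ≤
      (∑ x ∈ C, ((out S x).card : ℝ) * p) * arm p d N := by
  have h2 : Q p (sph (0 : Fin d → ℤ) (n + 1 + N) : Set (Fin d → ℤ)) A C ≤
      Pr p A (fun O => ∃ x ∈ C, ∃ y ∈ out S x, (s(x, y) ∈ O ∧
        ∃ v ∈ (sph (0 : Fin d → ℤ) (n + 1 + N) : Set (Fin d → ℤ)),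
          Rch (O.erase s(x, y)) {y} v)) := by
    refine Pr_mono h0 h1 fun O hO => ?_
    rintro ⟨v, hv, hr⟩
    rcases leave hA hC hE hO hr with h | ⟨x, hx, y, hy, h3, h4⟩
    · exfalso
      have k1 := mem_box.1 (hS (hC h))
      rw [mem_coe, mem_sph] at hv
      obtain ⟨_, i, hi⟩ := hv
      have := k1 i
      push_cast at hi
      omega
    · exact ⟨x, hx, y, hy, h3, v, hv, h4⟩
  refine h2.trans ((Pr_exists_le h0 h1 A C _).trans ?_)
  rw [sum_mul]
  refine sum_le_sum fun x hx => ?_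
  refine (Pr_exists_le h0 h1 A (out S x) _).trans ?_
  rw [mul_assoc, ← nsmul_eq_mul]
  refine sum_le_card_nsmul _ _ _ fun y hy => ?_
  refine (Pr_edge_le h0 h1 A s(x, y) (fun O => ∃ v ∈ (sph (0 : Fin d → ℤ) (n + 1 + N) :
    Set (Fin d → ℤ)), Rch O {y} v)).trans (mul_le_mul_of_nonneg_left ?_ h0)
  refine far_le h0 h1 (fun x y h => hA x y (mem_of_mem_erase h)) (n := n + 1) ?_
  have g1 := mem_box.1 (hS (hC hx))
  have g2 := (mem_out.1 hy).1.symm
  rw [mem_box]
  intro i
  have g3 := g1 i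
  have g4 := g2.abs_le i
  have g5 : |y i - (0 : Fin d → ℤ) i| ≤ |y i - x i| + |x i - (0 : Fin d → ℤ) i| :=
    abs_sub_le _ _ _
  push_cast
  linarith

/-- exploration of the cluster in `S` -/
theorem exploreS {p : ℝ} (h0 : 0 ≤ p) (h1 : p ≤ 1) {n N : ℕ} {S : Finset (Fin d → ℤ)}
    (hS : S ⊆ box 0 n) :
    ∀ (A : Finset (Sym2 (Fin d → ℤ))) (C : Finset (Fin d → ℤ)), Lat A → C ⊆ S →
      Q p (sph (0 : Fin d → ℤ) (n + 1 + N) : Set (Fin d → ℤ)) A C ≤
        (∑ x ∈ S, ((out S x).card : ℝ) * (p * Q p {x} (A ∩ EI S) C)) * arm p d N := by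
  intro A
  induction hn : A.card using Nat.strong_induction_on generalizing A with
  | _ k ih =>
    intro C hA hC
    have harm : 0 ≤ arm p d N := Q_nonneg h0 h1 _ _ _
    by_cases hE : Exh (A ∩ EI S) C
    · refine (Q_leave h0 h1 hA hS hC hE).trans (mul_le_mul_of_nonneg_right ?_ harm)
      refine le_trans (sum_le_sum fun x hx => ?_) (sum_le_sum_of_subset_of_nonneg hC
        fun x _ _ => mul_nonneg (Nat.cast_nonneg _) (mul_nonneg h0 (Q_nonneg h0 h1 _ _ _)))
      rw [Q_eq_one (t := {x}) ⟨x, hx, rfl⟩, mul_one]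
    · unfold Exh at hE
      push Not at hE
      obtain ⟨a, ha, w, he, hw⟩ := hE
      have heA : s(a, w) ∈ A := (mem_inter.1 he).1
      have heE := (mem_inter.1 he).2
      have hwb : w ∈ S := (mem_EI.1 heE).2.1
      have hcard : (A.erase s(a, w)).card < k := by
        rw [← hn]; exact card_erase_lt_of_mem heA
      have hA' : Lat (A.erase s(a, w)) := fun x y h => hA x y (mem_of_mem_erase h)
      have hint : A.erase s(a, w) ∩ EI S = (A ∩ EI S).erase s(a, w) := by
        ext f; simp only [mem_inter, mem_erase]; tauto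
      have i1 := ih _ hcard (A.erase s(a, w)) rfl (insert w C) hA' (insert_subset hwb hC)
      have i2 := ih _ hcard (A.erase s(a, w)) rfl C hA' hC
      rw [hint] at i1 i2
      rw [Q_reveal ha heA]
      have e1 : ∑ x ∈ S, ((out S x).card : ℝ) * (p * Q p {x} (A ∩ EI S) C) =
          p * ∑ x ∈ S, ((out S x).card : ℝ) *
            (p * Q p {x} ((A ∩ EI S).erase s(a, w)) (insert w C)) +
          (1 - p) * ∑ x ∈ S, ((out S x).card : ℝ) * (p * Q p {x} ((A ∩ EI S).erase s(a, w)) C) := by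
        rw [mul_sum, mul_sum, ← sum_add_distrib]
        refine sum_congr rfl fun v _ => ?_
        rw [Q_reveal (t := {v}) ha he]
        ring
      rw [e1, add_mul]
      have j1 := mul_le_mul_of_nonneg_left i1 h0
      have j2 := mul_le_mul_of_nonneg_left i2 (sub_nonneg.2 h1)
      linarith

theorem EI_sub {S : Finset (Fin d → ℤ)} {n : ℕ} (hS : S ⊆ box 0 n) : EI S ⊆ EB 0 n := by
  intro e
  induction e using Sym2.ind with
  | _ x y =>
    intro h
    rw [mem_EI] at h
    exact mem_EB.2 ⟨hS h.1, hS h.2.1, h.2.2⟩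

theorem arm_le_phi {p : ℝ} (h0 : 0 ≤ p) (h1 : p ≤ 1) {n N : ℕ} {S : Finset (Fin d → ℤ)}
    (hS : S ⊆ box 0 n) (hS0 : 0 ∈ S) : arm p d (n + 1 + N) ≤ phi p S * arm p d N := by
  have := exploreS h0 h1 (N := N) hS (EB (0 : Fin d → ℤ) (n + 1 + N)) {0} (lat_EB _ _)
    (singleton_subset_iff.2 hS0)
  rwa [inter_eq_right.2 ((EI_sub hS).trans (EB_mono (by omega)))] at this

theorem arm_pow_phi {p : ℝ} (h0 : 0 ≤ p) (h1 : p ≤ 1) {n : ℕ} {S : Finset (Fin d → ℤ)}
    (hS : S ⊆ box 0 n) (hS0 : 0 ∈ S) (k : ℕ) : arm p d ((n + 1) * k) ≤ phi p S ^ k := by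
  induction k with
  | zero => rw [pow_zero]; exact Q_le_one h0 h1 _ _ _
  | succ k ih =>
    have e : (n + 1) * (k + 1) = n + 1 + (n + 1) * k := by ring
    rw [e, pow_succ']
    exact (arm_le_phi h0 h1 hS hS0).trans (mul_le_mul_of_nonneg_left ih (phi_nonneg h0 h1 S))

/-! ### The differential inequality -/

/-- the edge `e` is closed and joins the cluster of the origin to that of `T` -/
def Yv (T : Finset (Fin d → ℤ)) (e : Sym2 (Fin d → ℤ)) (O : Finset (Sym2 (Fin d → ℤ))) : Prop :=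
  e ∉ O ∧ (¬ ∃ v ∈ T, Rch O {0} v) ∧ ∃ x y, e = s(x, y) ∧ Rch O {0} x ∧ Rch O T y

theorem rch_insert {V : Type*} [DecidableEq V] {O : Finset (Sym2 V)} {a w : V} {S : Finset V}
    {v : V} (h : Rch (insert s(a, w) O) S v) : Rch O S v ∨ Rch O S a ∨ Rch O S w := by
  induction h with
  | base h => exact Or.inl (Rch.base h)
  | @step u v _ hs ih =>
    rcases ih with ih | ih
    · rcases mem_insert.1 hs with h1 | h1
      · rw [Sym2.eq_iff] at h1
        rcases h1 with ⟨rfl, rfl⟩ | ⟨rfl, rfl⟩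
        · exact Or.inr (Or.inl ih)
        · exact Or.inr (Or.inr ih)
      · exact Or.inl (Rch.step ih h1)
    · exact Or.inr ih

/-- what is needed of the state of the exploration from the sphere -/
structure St (N : ℕ) (A R : Finset (Sym2 (Fin d → ℤ))) (T : Finset (Fin d → ℤ)) : Prop where
  hA : A ⊆ EB 0 N
  hR : Disjoint A R
  hs : sph 0 N ⊆ T
  hT : T ⊆ box 0 N
  hI : ∀ x y, s(x, y) ∈ EB (0 : Fin d → ℤ) N → x ∉ T → y ∉ T → s(x, y) ∈ A
  hB : ∀ x y, s(x, y) ∈ EB (0 : Fin d → ℤ) N → x ∉ T → y ∈ T → s(x, y) ∈ A ∪ R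

theorem St.open_step {N : ℕ} {A R : Finset (Sym2 (Fin d → ℤ))} {T : Finset (Fin d → ℤ)}
    (h : St N A R T) {a w : Fin d → ℤ} (he : s(a, w) ∈ A) (ha : a ∈ T) :
    St N (A.erase s(a, w)) R (insert w T) where
  hA := (erase_subset _ _).trans h.hA
  hR := disjoint_of_subset_left (erase_subset _ _) h.hR
  hs := h.hs.trans (subset_insert _ _)
  hT := insert_subset (mem_EB.1 (h.hA he)).2.1 h.hT
  hI := by
    intro x y hxy hx hy
    rw [mem_insert, not_or] at hx hy
    refine mem_erase.2 ⟨fun h' => ?_, h.hI x y hxy hx.2 hy.2⟩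
    rw [Sym2.eq_iff] at h'
    rcases h' with ⟨rfl, rfl⟩ | ⟨rfl, rfl⟩
    · exact hx.2 ha
    · exact hy.2 ha
  hB := by
    intro x y hxy hx hy
    rw [mem_insert, not_or] at hx
    have hne : s(x, y) ≠ s(a, w) := by
      intro h'
      rw [Sym2.eq_iff] at h'
      rcases h' with ⟨rfl, rfl⟩ | ⟨rfl, rfl⟩
      · exact hx.2 ha
      · exact hx.1 rfl
    rcases mem_insert.1 hy with rfl | hy
    · by_cases hyT : y ∈ T
      · rcases mem_union.1 (h.hB x y hxy hx.2 hyT) with g | g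
        · exact mem_union_left _ (mem_erase.2 ⟨hne, g⟩)
        · exact mem_union_right _ g
      · exact mem_union_left _ (mem_erase.2 ⟨hne, h.hI x y hxy hx.2 hyT⟩)
    · rcases mem_union.1 (h.hB x y hxy hx.2 hy) with g | g
      · exact mem_union_left _ (mem_erase.2 ⟨hne, g⟩)
      · exact mem_union_right _ g

theorem St.closed_step {N : ℕ} {A R : Finset (Sym2 (Fin d → ℤ))} {T : Finset (Fin d → ℤ)}
    (h : St N A R T) {a w : Fin d → ℤ} (he : s(a, w) ∈ A) (ha : a ∈ T) :
    St N (A.erase s(a, w)) (insert s(a, w) R) T where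
  hA := (erase_subset _ _).trans h.hA
  hR := by
    rw [disjoint_insert_right]
    exact ⟨notMem_erase _ _, disjoint_of_subset_left (erase_subset _ _) h.hR⟩
  hs := h.hs
  hT := h.hT
  hI := by
    intro x y hxy hx hy
    refine mem_erase.2 ⟨fun h' => ?_, h.hI x y hxy hx hy⟩
    rw [Sym2.eq_iff] at h'
    rcases h' with ⟨rfl, rfl⟩ | ⟨rfl, rfl⟩
    · exact hx ha
    · exact hy ha
  hB := by
    intro x y hxy hx hy
    by_cases hc : s(x, y) = s(a, w)
    · rw [hc]
      exact mem_union_right _ (mem_insert_self _ _)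
    · rcases mem_union.1 (h.hB x y hxy hx hy) with g | g
      · exact mem_union_left _ (mem_erase.2 ⟨hc, g⟩)
      · exact mem_union_right _ (mem_insert_of_mem g)

theorem dct_base {p : ℝ} (h0 : 0 ≤ p) (h1 : p ≤ 1) {N : ℕ}
    (hphi : ∀ S ⊆ box (0 : Fin d → ℤ) N, 0 ∈ S → 1 ≤ phi p S)
    {A R : Finset (Sym2 (Fin d → ℤ))} {T : Finset (Fin d → ℤ)} (hst : St N A R T)
    (hX : ∀ a ∈ T, ∀ w, w ∉ T → s(a, w) ∉ A) :
    Pr p A (fun O => ¬ ∃ v ∈ T, Rch O {0} v) ≤ p * ∑ e ∈ A ∪ R, Pr p A (Yv T e) := by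
  classical
  by_cases h0T : (0 : Fin d → ℤ) ∈ T
  · have e1 : Pr p A (fun O => ¬ ∃ v ∈ T, Rch O {0} v) = 0 := by
      rw [← Pr_false p A]
      exact Pr_congr fun O _ => ⟨fun h => h ⟨0, h0T, Rch.base (mem_singleton_self _)⟩,
        fun h => h.elim⟩
    rw [e1]
    exact mul_nonneg h0 (sum_nonneg fun e _ => Pr_nonneg h0 h1 _ _)
  · set S := box (0 : Fin d → ℤ) N \ T with hSdef
    have hS0 : (0 : Fin d → ℤ) ∈ S := mem_sdiff.2 ⟨self_mem_box _ _, h0T⟩
    have hSb : S ⊆ box 0 N := sdiff_subset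
    have hout : ∀ x ∈ S, ∀ y ∈ out S x, y ∈ T ∧ s(x, y) ∈ EB (0 : Fin d → ℤ) N ∧
        s(x, y) ∈ R ∧ s(x, y) ∉ A := by
      intro x hx y hy
      rw [mem_out] at hy
      rw [hSdef, mem_sdiff] at hx
      have hyb : y ∈ box (0 : Fin d → ℤ) N :=
        mem_box_of_nb hx.1 (fun h => hx.2 (hst.hs h)) hy.1
      have hyT : y ∈ T := by
        by_contra h
        exact hy.2 (mem_sdiff.2 ⟨hyb, h⟩)
      have hE : s(x, y) ∈ EB (0 : Fin d → ℤ) N := mem_EB.2 ⟨hx.1, hyb, hy.1⟩
      have hnA : s(x, y) ∉ A := by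
        rw [Sym2.eq_swap]
        exact hX y hyT x hx.2
      refine ⟨hyT, hE, ?_, hnA⟩
      exact (mem_union.1 (hst.hB x y hE hx.2 hyT)).resolve_left hnA
    have hstay : ∀ O ⊆ A, ∀ v, Rch O {0} v → v ∉ T := by
      intro O hO v h
      induction h with
      | base h => rw [mem_singleton] at h; subst h; exact h0T
      | @step u v _ hs ih =>
        intro hv
        refine hX v hv u ih ?_
        rw [Sym2.eq_swap]
        exact hO hs
    have hEI : EI S ⊆ A := by
      intro e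
      induction e using Sym2.ind with
      | _ x y =>
        intro h
        rw [mem_EI] at h
        exact hst.hI x y (mem_EB.2 ⟨hSb h.1, hSb h.2.1, h.2.2⟩) (mem_sdiff.1 h.1).2
          (mem_sdiff.1 h.2.1).2
    have hQ : ∀ x ∈ S, ∀ y ∈ out S x, Q p {x} (EI S) {0} ≤ Pr p A (Yv T s(x, y)) := by
      intro x hx y hy
      refine (Pr_mono_set h0 h1 hEI (X := fun O => ∃ v ∈ ({x} : Set (Fin d → ℤ)), Rch O {0} v)
        ?_).trans (Pr_mono h0 h1 fun O hO => ?_)
      · rintro O O' hOO ⟨v, hv, hr⟩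
        exact ⟨v, hv, hr.mono hOO (Subset.refl _)⟩
      · rintro ⟨v, hv, hr⟩
        rw [Set.mem_singleton_iff] at hv
        subst hv
        obtain ⟨g1, g2, g3, g4⟩ := hout v hx y hy
        refine ⟨fun h => g4 (hO h), ?_, v, y, rfl, hr, Rch.base g1⟩
        rintro ⟨v', hv', hr'⟩
        exact hstay O hO v' hr' hv'
    have hsum : phi p S ≤ p * ∑ q ∈ S.sigma (out S), Pr p A (Yv T s(q.1, q.2)) := by
      rw [sum_sigma, mul_sum, phi]
      refine sum_le_sum fun x hx => ?_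
      have : ((out S x).card : ℝ) * (p * Q p {x} (EI S) {0}) =
          p * ∑ y ∈ out S x, Q p {x} (EI S) {0} := by
        rw [sum_const, nsmul_eq_mul]; ring
      rw [this]
      exact mul_le_mul_of_nonneg_left (sum_le_sum fun y hy => hQ x hx y hy) h0
    have hinj : Set.InjOn (fun q : (_ : Fin d → ℤ) × (Fin d → ℤ) => s(q.1, q.2))
        (S.sigma (out S) : Finset _) := by
      rintro ⟨x, y⟩ h1 ⟨x', y'⟩ h2 h
      simp only [mem_coe, mem_sigma] at h1 h2
      simp only [Sym2.eq_iff] at h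
      rcases h with ⟨rfl, rfl⟩ | ⟨rfl, rfl⟩
      · rfl
      · exact absurd h1.1 (mem_out.1 h2.2).2
    have hfin : ∑ q ∈ S.sigma (out S), Pr p A (Yv T s(q.1, q.2)) ≤
        ∑ e ∈ A ∪ R, Pr p A (Yv T e) := by
      rw [← sum_image (f := fun e => Pr p A (Yv T e)) hinj]
      refine sum_le_sum_of_subset_of_nonneg ?_ fun e _ _ => Pr_nonneg h0 h1 _ _
      intro e he
      rw [mem_image] at he
      obtain ⟨⟨x, y⟩, hq, rfl⟩ := he
      rw [mem_sigma] at hq
      exact mem_union_right _ (hout x hq.1 y hq.2).2.2.1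
    calc Pr p A (fun O => ¬ ∃ v ∈ T, Rch O {0} v) ≤ 1 := Pr_le_one h0 h1 _ _
      _ ≤ phi p S := hphi S hSb hS0
      _ ≤ _ := hsum
      _ ≤ _ := mul_le_mul_of_nonneg_left hfin h0

theorem dct_aux {p : ℝ} (h0 : 0 ≤ p) (h1 : p ≤ 1) {N : ℕ}
    (hphi : ∀ S ⊆ box (0 : Fin d → ℤ) N, 0 ∈ S → 1 ≤ phi p S) :
    ∀ (A R : Finset (Sym2 (Fin d → ℤ))) (T : Finset (Fin d → ℤ)), St N A R T →
      Pr p A (fun O => ¬ ∃ v ∈ T, Rch O {0} v) ≤ p * ∑ e ∈ A ∪ R, Pr p A (Yv T e) := by
  intro A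
  induction hn : A.card using Nat.strong_induction_on generalizing A with
  | _ k ih =>
    intro R T hst
    by_cases hX : ∀ a ∈ T, ∀ w, w ∉ T → s(a, w) ∉ A
    · exact dct_base h0 h1 hphi hst hX
    · push Not at hX
      obtain ⟨a, ha, w, hw, he⟩ := hX
      have hcard : (A.erase s(a, w)).card < k := by
        rw [← hn]; exact card_erase_lt_of_mem he
      have i1 := ih _ hcard (A.erase s(a, w)) rfl R (insert w T) (hst.open_step he ha)
      have i2 := ih _ hcard (A.erase s(a, w)) rfl (insert s(a, w) R) T (hst.closed_step he ha)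
      have heR : s(a, w) ∉ R := disjoint_left.1 hst.hR he
      have u1 : A.erase s(a, w) ∪ R = (A ∪ R).erase s(a, w) := by
        rw [erase_union_distrib, erase_eq_of_notMem heR]
      have u2 : A.erase s(a, w) ∪ insert s(a, w) R = A ∪ R := by
        rw [union_insert, ← insert_union, insert_erase he]
      rw [u1] at i1
      rw [u2] at i2
      have hle : Pr p A (fun O => ¬ ∃ v ∈ T, Rch O {0} v) ≤
          p * Pr p (A.erase s(a, w)) (fun O => ¬ ∃ v ∈ insert w T, Rch O {0} v) +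
            (1 - p) * Pr p (A.erase s(a, w)) (fun O => ¬ ∃ v ∈ T, Rch O {0} v) := by
        rw [Pr_erase he]
        refine add_le_add_left (mul_le_mul_of_nonneg_left (Pr_mono h0 h1 fun O hO hno => ?_) h0) _
        rintro ⟨v, hv, hr⟩
        rcases mem_insert.1 hv with rfl | hv
        · refine hno ⟨a, ha, Rch.step (hr.mono (subset_insert _ _) (Subset.refl _)) ?_⟩
          rw [Sym2.eq_swap]
          exact mem_insert_self _ _
        · exact hno ⟨v, hv, hr.mono (subset_insert _ _) (Subset.refl _)⟩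
      have hge : p * ∑ e ∈ (A ∪ R).erase s(a, w), Pr p (A.erase s(a, w)) (Yv (insert w T) e) +
          (1 - p) * ∑ e ∈ A ∪ R, Pr p (A.erase s(a, w)) (Yv T e) ≤ ∑ e ∈ A ∪ R, Pr p A (Yv T e) := by
        have g1 : ∀ e ∈ A ∪ R, Pr p A (Yv T e) =
            p * Pr p (A.erase s(a, w)) (fun O => Yv T e (insert s(a, w) O)) +
              (1 - p) * Pr p (A.erase s(a, w)) (Yv T e) := fun e _ => Pr_erase he _
        rw [sum_congr rfl g1, sum_add_distrib, ← mul_sum, ← mul_sum]
        refine add_le_add_left (mul_le_mul_of_nonneg_left ?_ h0) _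
        refine (sum_le_sum fun e hee => ?_).trans (sum_le_sum_of_subset_of_nonneg
          (erase_subset _ _) fun e _ _ => Pr_nonneg h0 h1 _ _)
        have hne : e ≠ s(a, w) := (mem_erase.1 hee).1
        refine Pr_mono h0 h1 fun O hO => ?_
        rintro ⟨y1, y2, x, y, rfl, y3, y4⟩
        refine ⟨fun h => ?_, ?_, x, y, rfl, y3.mono (subset_insert _ _) (Subset.refl _), ?_⟩
        · rcases mem_insert.1 h with h | h
          · exact hne h
          · exact y1 h
        · rintro ⟨v, hv, hr⟩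
          rcases rch_insert hr with h | h | h
          · exact y2 ⟨v, mem_insert_of_mem hv, h⟩
          · exact y2 ⟨a, mem_insert_of_mem ha, h⟩
          · exact y2 ⟨w, mem_insert_self _ _, h⟩
        · refine Rch.trans (S' := insert w T) ?_ (y4.mono (subset_insert _ _) (Subset.refl _))
          intro u hu
          rcases mem_insert.1 hu with rfl | hu
          · exact Rch.step (Rch.base ha) (mem_insert_self _ _)
          · exact Rch.base hu
      have j1 := mul_le_mul_of_nonneg_left i1 h0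
      have j2 := mul_le_mul_of_nonneg_left i2 (sub_nonneg.2 h1)
      have j3 := mul_le_mul_of_nonneg_left hge h0
      linarith

theorem rch_source {V : Type*} {O : Finset (Sym2 V)} {T : Finset V} {y : V} (h : Rch O T y) :
    ∃ v ∈ T, Rch O {v} y := by
  induction h with
  | @base v h => exact ⟨v, h, Rch.base (mem_singleton_self _)⟩
  | step _ hs ih =>
    obtain ⟨v, hv, hr⟩ := ih
    exact ⟨v, hv, Rch.step hr hs⟩

/-- the event of the one-arm probability -/
def Xarm (d N : ℕ) (O : Finset (Sym2 (Fin d → ℤ))) : Prop :=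
  ∃ v ∈ (sph (0 : Fin d → ℤ) N : Set (Fin d → ℤ)), Rch O {0} v

theorem arm_eq (p : ℝ) (d N : ℕ) : arm p d N = Pr p (EB 0 N) (Xarm d N) := rfl

theorem yv_arm {N : ℕ} {e : Sym2 (Fin d → ℤ)} {O : Finset (Sym2 (Fin d → ℤ))}
    (h : Yv (sph 0 N) e O) : Xarm d N (insert e O) := by
  obtain ⟨_, _, x, y, rfl, h3, h4⟩ := h
  obtain ⟨v, hv, hr⟩ := rch_source h4
  refine ⟨v, mem_coe.2 hv, Rch.trans (S' := {y}) ?_
    (hr.symm.mono (subset_insert _ _) (Subset.refl _))⟩
  intro u hu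
  rw [mem_singleton] at hu
  subst hu
  exact Rch.step (h3.mono (subset_insert _ _) (Subset.refl _)) (mem_insert_self _ _)

/-- each term of Russo's formula -/
theorem russo_term {p : ℝ} (h0 : 0 ≤ p) (h1 : p ≤ 1) {N : ℕ} {A : Finset (Sym2 (Fin d → ℤ))}
    {e : Sym2 (Fin d → ℤ)} (he : e ∈ A) :
    Pr p A (Yv (sph 0 N) e) ≤ (1 - p) * (Pr p A (fun O => Xarm d N (insert e O)) -
      Pr p A (fun O => Xarm d N (O.erase e))) := by
  classical
  have e1 : Pr p A (fun O => Xarm d N (insert e O)) =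
      Pr p (A.erase e) (fun O => Xarm d N (insert e O)) := by
    rw [Pr_erase he]
    have : Pr p (A.erase e) (fun O => Xarm d N (insert e (insert e O))) =
        Pr p (A.erase e) (fun O => Xarm d N (insert e O)) :=
      Pr_congr fun O _ => by rw [insert_idem]
    rw [this]; ring
  have e2 : Pr p A (fun O => Xarm d N (O.erase e)) = Pr p (A.erase e) (Xarm d N) := by
    rw [Pr_erase he]
    have g1 : Pr p (A.erase e) (fun O => Xarm d N ((insert e O).erase e)) =
        Pr p (A.erase e) (Xarm d N) :=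
      Pr_congr fun O hO => by rw [erase_insert (fun h => (notMem_erase _ _) (hO h))]
    have g2 : Pr p (A.erase e) (fun O => Xarm d N (O.erase e)) = Pr p (A.erase e) (Xarm d N) :=
      Pr_congr fun O hO => by rw [erase_eq_of_notMem (fun h => (notMem_erase _ _) (hO h))]
    rw [g1, g2]; ring
  have e3 : Pr p A (Yv (sph 0 N) e) = (1 - p) * Pr p (A.erase e) (Yv (sph 0 N) e) := by
    rw [Pr_erase he]
    have : Pr p (A.erase e) (fun O => Yv (sph 0 N) e (insert e O)) = 0 := by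
      rw [← Pr_false p (A.erase e)]
      exact Pr_congr fun O _ => ⟨fun h => h.1 (mem_insert_self _ _), fun h => h.elim⟩
    rw [this]; ring
  rw [e1, e2, e3]
  refine mul_le_mul_of_nonneg_left ?_ (sub_nonneg.2 h1)
  rw [le_sub_iff_add_le]
  unfold Pr
  rw [← sum_add_distrib]
  refine sum_le_sum fun O _ => ?_
  rw [← mul_add]
  refine mul_le_mul_of_nonneg_left ?_ (wt_nonneg h0 h1 _ O)
  by_cases hY : Yv (sph 0 N) e O
  · have hnX : ¬ Xarm d N O := fun ⟨v, hv, hr⟩ => hY.2.1 ⟨v, mem_coe.1 hv, hr⟩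
    rw [if_pos hY, if_neg hnX, if_pos (yv_arm hY)]
    norm_num
  · rw [if_neg hY, zero_add]
    by_cases hX : Xarm d N O
    · have : Xarm d N (insert e O) := by
        obtain ⟨v, hv, hr⟩ := hX
        exact ⟨v, hv, hr.mono (subset_insert _ _) (Subset.refl _)⟩
      rw [if_pos hX, if_pos this]
    · rw [if_neg hX]; split_ifs <;> norm_num

/-- **The differential inequality.** -/
theorem dct {p : ℝ} (h0 : 0 ≤ p) (h1 : p ≤ 1) {N : ℕ}
    (hphi : ∀ S ⊆ box (0 : Fin d → ℤ) N, 0 ∈ S → 1 ≤ phi p S) :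
    1 - arm p d N ≤ p * ((1 - p) * ∑ e ∈ EB (0 : Fin d → ℤ) N,
      (Pr p (EB 0 N) (fun O => Xarm d N (insert e O)) -
        Pr p (EB 0 N) (fun O => Xarm d N (O.erase e)))) := by
  have hst : St N (EB (0 : Fin d → ℤ) N) ∅ (sph 0 N) := by
    refine ⟨Subset.refl _, disjoint_empty_right _, Subset.refl _, ?_, fun x y h _ _ => h,
      fun x y h _ _ => mem_union_left _ h⟩
    intro x hx
    exact mem_box.2 (mem_sph.1 hx).1
  have h := dct_aux h0 h1 hphi _ _ _ hst
  rw [union_empty] at h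
  have e1 : Pr p (EB (0 : Fin d → ℤ) N) (fun O => ¬ ∃ v ∈ sph (0 : Fin d → ℤ) N, Rch O {0} v) =
      1 - arm p d N := by
    rw [Pr_not]
    rfl
  rw [e1] at h
  refine h.trans (mul_le_mul_of_nonneg_left ?_ h0)
  rw [mul_sum]
  exact sum_le_sum fun e he => russo_term h0 h1 he

theorem hasDerivAt_arm (d N : ℕ) (p : ℝ) : HasDerivAt (fun p => arm p d N)
    (∑ e ∈ EB (0 : Fin d → ℤ) N, (Pr p (EB 0 N) (fun O => Xarm d N (insert e O)) -
        Pr p (EB 0 N) (fun O => Xarm d N (O.erase e)))) p :=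
  hasDerivAt_Pr _ _ p

/-- **The lower bound on the one-arm probability beyond a point where `φ ≥ 1`.** -/
theorem arm_lower {p q : ℝ} (h0 : 0 < p) (hpq : p ≤ q) (hq : q < 1) (N : ℕ)
    (hphi : ∀ s, p ≤ s → s ≤ q → ∀ S ⊆ box (0 : Fin d → ℤ) N, 0 ∈ S → 1 ≤ phi s S) :
    (q - p) / (q * (1 - p)) ≤ arm q d N := by
  have hanti : AntitoneOn (fun s => (1 - arm s d N) * (s / (1 - s))) (Set.Icc p q) := by
    have hder : ∀ s ∈ Set.Icc p q, HasDerivAt (fun s => (1 - arm s d N) * (s / (1 - s)))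
        (-(∑ e ∈ EB (0 : Fin d → ℤ) N, (Pr s (EB 0 N) (fun O => Xarm d N (insert e O)) -
          Pr s (EB 0 N) (fun O => Xarm d N (O.erase e)))) * (s / (1 - s)) +
          (1 - arm s d N) * (1 / (1 - s) ^ 2)) s := by
      intro s hs
      have hs1 : (1 - s) ≠ 0 := by
        have := hs.2
        intro h
        linarith
      have g1 := (hasDerivAt_arm d N s).const_sub 1
      have g2 : HasDerivAt (fun s : ℝ => s / (1 - s)) (1 / (1 - s) ^ 2) s := by
        have := (hasDerivAt_id s).div ((hasDerivAt_id s).const_sub 1) hs1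
        refine this.congr_deriv ?_
        simp only [id]
        field_simp
        ring
      exact g1.mul g2
    refine antitoneOn_of_deriv_nonpos (convex_Icc p q)
      (fun s hs => (hder s hs).continuousAt.continuousWithinAt)
      (fun s hs => ((hder s (interior_subset hs)).differentiableAt).differentiableWithinAt)
      fun s hs => ?_
    have hs' := interior_subset hs
    rw [(hder s hs').deriv]
    have hs0 : 0 < s := h0.trans_le hs'.1
    have hs1 : 0 < 1 - s := by linarith [hs'.2]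
    have key := dct hs0.le (by linarith) (hphi s hs'.1 hs'.2)
    set D := ∑ e ∈ EB (0 : Fin d → ℤ) N, (Pr s (EB 0 N) (fun O => Xarm d N (insert e O)) -
          Pr s (EB 0 N) (fun O => Xarm d N (O.erase e)))
    have e1 : -D * (s / (1 - s)) + (1 - arm s d N) * (1 / (1 - s) ^ 2) =
        ((1 - arm s d N) - s * ((1 - s) * D)) / (1 - s) ^ 2 := by
      field_simp
      ring
    rw [e1]
    exact div_nonpos_of_nonpos_of_nonneg (by linarith) (by positivity)
  have h := hanti (Set.left_mem_Icc.2 hpq) (Set.right_mem_Icc.2 hpq) hpq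
  simp only at h
  have hq0 : 0 < q := h0.trans_le hpq
  have hq1 : 0 < 1 - q := by linarith
  have hp1 : 0 < 1 - p := by linarith
  have harm : 0 ≤ arm p d N := Q_nonneg h0.le (by linarith) _ _ _
  have h2 : (1 - arm p d N) * (p / (1 - p)) ≤ p / (1 - p) := by
    have : 0 ≤ p / (1 - p) := by positivity
    nlinarith
  have h3 : 1 - arm q d N ≤ p / (1 - p) * ((1 - q) / q) := by
    have g1 := h.trans h2
    have g2 : (1 - arm q d N) = (1 - arm q d N) * (q / (1 - q)) * ((1 - q) / q) := by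
      field_simp
    rw [g2]
    exact mul_le_mul_of_nonneg_right g1 (by positivity)
  have h4 : (q - p) / (q * (1 - p)) = 1 - p / (1 - p) * ((1 - q) / q) := by
    field_simp
    ring
  linarith

end Pool.Agent.Arm55
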