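import Pool.Agent.Arm55.Esc

/-!
The number of levels that are explored before the cluster leaves a finite set.
-/

set_option autoImplicit false

open Finset MeasureTheory Filter Topology
open scoped NNReal ENNReal

namespace Pool.Agent.Arm55

open Pool.Agent.FPP38

section General

variable {V : Type*} [DecidableEq V] (Λ : Finset V)

/-- the number of explored levels, at most `j` -/
noncomputable def ell : ℕ → Finset V → Finset (Sym2 V) → ℕ
  | 0, _, _ => 0
  | j + 1, S, O => if S ⊆ Λ then ell j (nxt S O) (rst O S) + 1 else 0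

variable {Λ}

theorem ell_le (j : ℕ) : ∀ (S : Finset V) (O : Finset (Sym2 V)), ell Λ j S O ≤ j := by
  induction j with
  | zero => exact fun _ _ => le_rfl
  | succ j ih =>
    intro S O
    unfold ell
    split_ifs
    · exact Nat.succ_le_succ (ih _ _)
    · exact Nat.zero_le _

theorem ell_le_path (j : ℕ) : ∀ (S : Finset V) (O : Finset (Sym2 V)) (k : ℕ) (v : V),
    v ∉ Λ → PL O S k v → ell Λ j S O ≤ k := by
  induction j with
  | zero => exact fun _ _ _ _ _ _ => Nat.zero_le _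
  | succ j ih =>
    intro S O k v hv h
    unfold ell
    split_ifs with hS
    · rcases h.unshift with h | ⟨i, hi, h⟩
      · exact absurd (hS h) hv
      · have := ih _ _ i v hv h
        omega
    · exact Nat.zero_le _

theorem far_level {A : Finset (Sym2 V)} {S : Finset V} {t : Set V} (ht : ∀ v ∈ t, v ∉ S)
    {ω R : Finset (Sym2 V)} (hω : ω ⊆ inc A S) (hR : R ⊆ rst A S) :
    (∃ v ∈ t, Rch (ω ∪ R) S v) ↔ ∃ v ∈ t, Rch R (nxt S ω) v := by
  constructor
  · rintro ⟨v, hv, hr⟩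
    rcases rch_level hR hr with h | h | ⟨e, he, h⟩
    · exact absurd h (ht v hv)
    · exact ⟨v, hv, h⟩
    · exact absurd (mem_inc.1 (hω he)).2 h
  · rintro ⟨v, hv, hr⟩
    refine ⟨v, hv, ?_⟩
    refine Rch.trans (S' := nxt S ω) ?_ (hr.mono subset_union_right (Subset.refl _))
    intro u hu
    obtain ⟨_, x, hx, h2⟩ := mem_nxt.1 hu
    exact Rch.step (Rch.base hx) (mem_union_left _ h2)

open Classical in
/-- the number of explored levels on the event that `S` is joined to `t` -/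
noncomputable def elf (Λ : Finset V) (t : Set V) (j : ℕ) (S : Finset V)
    (O : Finset (Sym2 V)) : ℝ :=
  if ∃ v ∈ t, Rch O S v then (ell Λ j S O : ℝ) else 0

theorem elf_nonneg (t : Set V) (j : ℕ) (S : Finset V) (O : Finset (Sym2 V)) :
    0 ≤ elf Λ t j S O := by
  unfold elf
  split_ifs
  · exact Nat.cast_nonneg _
  · exact le_rfl

theorem elf_level {p : ℝ} (j : ℕ) (A : Finset (Sym2 V)) {S : Finset V} {t : Set V}
    (hS : S ⊆ Λ) (ht : ∀ v ∈ t, v ∉ S) :
    Ex p A (elf Λ t (j + 1) S) =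
      Ex p (inc A S) (fun ω => Q p t (rst A S) (nxt S ω) +
        Ex p (rst A S) (elf Λ t j (nxt S ω))) := by
  classical
  rw [Ex_level A S]
  refine Ex_congr fun ω hω => ?_
  have h2 : Q p t (rst A S) (nxt S ω) =
      Ex p (rst A S) (fun R => if ∃ v ∈ t, Rch R (nxt S ω) v then (1 : ℝ) else 0) := rfl
  rw [h2, ← Ex_add]
  refine Ex_congr fun R hR => ?_
  have h3 := far_level (A := A) ht hω hR
  have h4 : ell Λ (j + 1) S (ω ∪ R) = ell Λ j (nxt S ω) R + 1 := by
    show (if S ⊆ Λ then _ else _) = _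
    rw [if_pos hS, nxt_union hR, rst_union hω hR]
  unfold elf
  by_cases h : ∃ v ∈ t, Rch R (nxt S ω) v
  · rw [if_pos (h3.2 h), if_pos h, if_pos h, h4]
    push_cast
    ring
  · rw [if_neg (fun h' => h (h3.1 h')), if_neg h, if_neg h, add_zero]

end General

variable {d : ℕ} {Λ : Finset (Fin d → ℤ)}

theorem Z2_ell {q : ℝ} (hq0 : 0 ≤ q) (hq1 : q ≤ 1) {m N : ℕ} (hN : 1 ≤ N)
    (hΛ : Λ ⊆ box 0 m) (j : ℕ) :
    ∀ (A : Finset (Sym2 (Fin d → ℤ))) (S : Finset (Fin d → ℤ)), Lat A →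
      Z2 Λ q (sph (0 : Fin d → ℤ) (m + 1 + N) : Set (Fin d → ℤ)) j A S ≤
        (Q q (sph (0 : Fin d → ℤ) (m + 1 + N) : Set (Fin d → ℤ)) A S) ^ 2 +
          (1 - q) * arm q d N *
            Ex q A (elf Λ (sph (0 : Fin d → ℤ) (m + 1 + N) : Set (Fin d → ℤ)) j S) := by
  set t : Set (Fin d → ℤ) := (sph (0 : Fin d → ℤ) (m + 1 + N) : Set (Fin d → ℤ)) with ht
  set θ := arm q d N with hθdef
  have hθ0 : 0 ≤ θ := Q_nonneg hq0 hq1 _ _ _
  have hE0 : ∀ j A S, 0 ≤ Ex q A (elf Λ t j S) := by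
    intro j A S
    rw [← Ex_const q 0 A]
    exact Ex_mono hq0 hq1 fun O _ => elf_nonneg _ _ _ _
  induction j with
  | zero =>
    intro A S _
    have := mul_nonneg (mul_nonneg (sub_nonneg.2 hq1) hθ0) (hE0 0 A S)
    show (Q q t A S) ^ 2 ≤ _
    linarith
  | succ j ih =>
    intro A S hA
    by_cases hS : S ⊆ Λ
    swap
    · have e2 : Z2 Λ q t (j + 1) A S = (Q q t A S) ^ 2 := by
        show (if S ⊆ Λ then _ else _) = _
        rw [if_neg hS]
      rw [e2]
      have := mul_nonneg (mul_nonneg (sub_nonneg.2 hq1) hθ0) (hE0 (j + 1) A S)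
      linarith
    · have hR : Lat (rst A S) := fun x y h => hA x y (mem_rst.1 h).1
      have hSm : S ⊆ box 0 m := hS.trans hΛ
      have htS : ∀ v ∈ t, v ∉ S := by
        intro v hv hvS
        have h1 := Pool.Agent.FPP38.mem_box.1 (hSm hvS)
        rw [ht, mem_coe, mem_sph] at hv
        obtain ⟨_, i, hi⟩ := hv
        have := h1 i
        push_cast at hi
        omega
      have hY : ∀ e ∈ inc A S, Pr q (rst A S) (Ye t S e) ≤ θ := by
        intro e he
        by_cases hex : ∃ x ∈ S, ∃ y, y ∉ S ∧ e = s(x, y)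
        · obtain ⟨x, hx, y, hy, rfl⟩ := hex
          have hle : Pr q (rst A S) (Ye t S s(x, y)) ≤ Q q t (rst A S) {y} := by
            refine Pr_mono hq0 hq1 fun R _ => ?_
            rintro ⟨x', hx', y', hy', h1, v, hv, hr⟩
            rw [Sym2.eq_iff] at h1
            rcases h1 with ⟨rfl, rfl⟩ | ⟨rfl, rfl⟩
            · exact ⟨v, hv, hr⟩
            · exact absurd hx' hy
          refine hle.trans (far_le hq0 hq1 hR ?_)
          have h2 := Pool.Agent.FPP38.mem_box.1 (hSm hx)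
          have h3 := (hA _ _ (mem_inc.1 he).1).symm
          rw [Pool.Agent.FPP38.mem_box]
          intro i
          have h4 := h2 i
          have h5 := h3.abs_le i
          have h6 : |y i - (0 : Fin d → ℤ) i| ≤ |y i - x i| + |x i - (0 : Fin d → ℤ) i| :=
            abs_sub_le _ _ _
          push_cast
          linarith
        · have : Pr q (rst A S) (Ye t S e) = 0 := by
            rw [← Pr_false q (rst A S)]
            refine Pr_congr fun R _ => ⟨?_, fun h => h.elim⟩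
            rintro ⟨x, hx, y, hy, h1, _⟩
            exact hex ⟨x, hx, y, hy, h1⟩
          rw [this]
          exact hθ0
      have hsec := second hq0 hq1 (rst A S) (Ye t S) (inc A S) hY (fun _ => True)
      simp only [true_and] at hsec
      have e1 : Q q t A S = Ex q (inc A S) (fun ω => Pr q (rst A S)
        (fun R => ∃ e ∈ ω, Ye t S e R)) := Q_level_eq A htS
      have e2 : Z2 Λ q t (j + 1) A S = Ex q (inc A S) (fun ω => Z2 Λ q t j (rst A S) (nxt S ω)) := by
        show (if S ⊆ Λ then _ else _) = _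
        rw [if_pos hS]
      have e3 : Ex q (inc A S) (fun ω => Q q t (rst A S) (nxt S ω)) = Q q t A S := by
        rw [e1]
        exact Ex_congr fun ω _ => Pr_congr fun R _ => cover
      rw [← e1] at hsec
      have h1 : Z2 Λ q t (j + 1) A S ≤ Ex q (inc A S) (fun ω => (Pr q (rst A S)
          (fun R => ∃ e ∈ ω, Ye t S e R)) ^ 2 + (1 - q) * θ *
            Ex q (rst A S) (elf Λ t j (nxt S ω))) := by
        rw [e2]
        refine Ex_mono hq0 hq1 fun ω _ => ?_
        have h2 := ih (rst A S) (nxt S ω) hR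
        have h3 : Q q t (rst A S) (nxt S ω) = Pr q (rst A S) (fun R => ∃ e ∈ ω, Ye t S e R) :=
          Pr_congr fun R _ => cover
        rwa [h3] at h2
      rw [Ex_add, Ex_smul] at h1
      rw [elf_level j A hS htS, Ex_add, e3]
      nlinarith

/-- the inequality before the limit, with the number of levels -/
theorem esc_pre_ell {q : ℝ} (h0 : 0 ≤ q) (h1 : q ≤ 1) {m N : ℕ} (hN : 1 ≤ N) (hΛ : Λ ⊆ box 0 m)
    (hθ : 0 < arm q d N) (y : ℝ) :
    2 * y * (arm q d (m + 1 + N) / arm q d N) - y ^ 2 * ((arm q d (m + 1 + N) / arm q d N) ^ 2 +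
      (1 - q) * (Ex q (EB 0 (m + 1 + N)) (elf Λ (sph (0 : Fin d → ℤ) (m + 1 + N) :
        Set (Fin d → ℤ)) (Λ.card + 1) {0}) / arm q d N)) ≤ Pr q (EB 0 (m + 1)) (Xesc Λ) := by
  have ht : ∀ v ∈ (sph (0 : Fin d → ℤ) (m + 1 + N) : Set (Fin d → ℤ)), v ∉ Λ := by
    intro v hv hvS
    have k1 := Pool.Agent.FPP38.mem_box.1 (hΛ hvS)
    rw [mem_coe, mem_sph] at hv
    obtain ⟨_, i, hi⟩ := hv
    have := k1 i
    push_cast at hi
    omega
  have g1 := two_x (Λ := Λ) h0 h1 (x := y / arm q d N) (Λ.card + 1) (EB 0 (m + 1 + N)) {0} ht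
  have g2 := Z2_ell (Λ := Λ) h0 h1 hN hΛ (Λ.card + 1) (EB 0 (m + 1 + N)) {0} (lat_EB _ _)
  have g4 := HT_le (Λ := Λ) h0 h1 (M := m + 1 + N) hΛ
  refine le_trans ?_ (g1.trans g4)
  have e1 : Q q (sph (0 : Fin d → ℤ) (m + 1 + N) : Set (Fin d → ℤ)) (EB 0 (m + 1 + N)) {0} =
      arm q d (m + 1 + N) := rfl
  rw [e1] at g2 ⊢
  set θ := arm q d N with hθdef
  set a := arm q d (m + 1 + N) with ha
  set L := Ex q (EB 0 (m + 1 + N)) (elf Λ (sph (0 : Fin d → ℤ) (m + 1 + N) :
        Set (Fin d → ℤ)) (Λ.card + 1) {0}) with hL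
  have g6 := mul_le_mul_of_nonneg_left g2 (sq_nonneg (y / θ))
  have e2 : (y / θ) ^ 2 * (a ^ 2 + (1 - q) * θ * L) =
      y ^ 2 * ((a / θ) ^ 2 + (1 - q) * (L / θ)) := by
    field_simp
  have e3 : 2 * (y / θ) * a = 2 * y * (a / θ) := by
    field_simp
  rw [e2] at g6
  rw [e3]
  linarith

end Pool.Agent.Arm55
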