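import Pool.Agent.Arm55.Sec

/-!
The probability of leaving a finite set.
-/

set_option autoImplicit false

open Finset MeasureTheory Filter Topology
open scoped NNReal ENNReal

namespace Pool.Agent.Arm55

open Pool.Agent.FPP38

variable {d : ℕ} {Λ : Finset (Fin d → ℤ)}

/-- the cluster of the origin leaves `Λ` -/
def Xesc (Λ : Finset (Fin d → ℤ)) (O : Finset (Sym2 (Fin d → ℤ))) : Prop :=
  ∃ v, v ∉ Λ ∧ Rch O {0} v

/-- `v` is joined to the origin inside `Λ` -/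
def Xins (Λ : Finset (Fin d → ℤ)) (v : Fin d → ℤ) (O : Finset (Sym2 (Fin d → ℤ))) : Prop :=
  Rch (insd Λ O) {0} v

/-- the mean size of the cluster of the origin inside `Λ` -/
noncomputable def KK (q : ℝ) (m : ℕ) (Λ : Finset (Fin d → ℤ)) : ℝ :=
  ∑ v ∈ Λ, Pr q (EB 0 m) (Xins Λ v)

theorem KK_nonneg {q : ℝ} (h0 : 0 ≤ q) (h1 : q ≤ 1) (m : ℕ) : 0 ≤ KK q m Λ :=
  sum_nonneg fun _ _ => Pr_nonneg h0 h1 _ _

theorem xesc_inter {m : ℕ} (hΛ : Λ ⊆ box 0 m) {O : Finset (Sym2 (Fin d → ℤ))} (hO : Lat O)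
    (h : Xesc Λ O) : Xesc Λ (O ∩ EB 0 (m + 1)) := by
  obtain ⟨v, hv, hr⟩ := h
  rcases exit (N := m + 1) hO hr with ⟨_, h2⟩ | ⟨v', h1, h2⟩
  · exact ⟨v, hv, h2⟩
  · refine ⟨v', fun hv' => ?_, h2⟩
    have k1 := Pool.Agent.FPP38.mem_box.1 (hΛ hv')
    obtain ⟨_, i, hi⟩ := mem_sph.1 h1
    have := k1 i
    push_cast at hi
    omega

theorem HT_le {q : ℝ} (h0 : 0 ≤ q) (h1 : q ≤ 1) {m M : ℕ} (hΛ : Λ ⊆ box 0 m) :
    Pr q (EB 0 M) (HT Λ (Λ.card + 1) {0}) ≤ Pr q (EB 0 (m + 1)) (Xesc Λ) := by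
  classical
  refine le_trans ?_ (Pr_inter_le h0 h1 (EB 0 M) (EB 0 (m + 1)) (Xesc Λ) ?_)
  · refine Pr_mono h0 h1 fun O hO h => ?_
    refine xesc_inter hΛ (fun x y hxy => lat_EB _ _ x y (hO hxy)) ?_
    rcases HT_esc _ _ _ h with h | h
    · exact h
    · have := card_le_card (filter_subset (fun v => Rch O {0} v) Λ)
      omega
  · rintro O O' hOO ⟨v, hv, hr⟩
    exact ⟨v, hv, hr.mono hOO (Subset.refl _)⟩

theorem cnt_KK {q : ℝ} (h0 : 0 ≤ q) (h1 : q ≤ 1) {m M : ℕ} (hΛ : Λ ⊆ box 0 m) (j : ℕ) :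
    Ex q (EB 0 M) (cnt Λ j {0}) ≤ KK q m Λ := by
  classical
  have e1 : Ex q (EB 0 M) (fun O => ((Λ.filter fun v => Rch (insd Λ O) {0} v).card : ℝ)) =
      ∑ v ∈ Λ, Pr q (EB 0 M) (Xins Λ v) := by
    unfold Ex Pr
    rw [sum_comm]
    refine sum_congr rfl fun O _ => ?_
    rw [← mul_sum]
    congr 1
    show ((Λ.filter fun v => Rch (insd Λ O) {0} v).card : ℝ) = _
    rw [card_filter]
    push_cast
    refine sum_congr rfl fun v _ => ?_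
    by_cases h : Rch (insd Λ O) {0} v
    · rw [if_pos h, if_pos (show Xins Λ v O from h)]
    · rw [if_neg h, if_neg (show ¬ Xins Λ v O from h)]
  refine (Ex_mono h0 h1 fun O _ => cnt_le j {0} O).trans ?_
  rw [e1]
  refine sum_le_sum fun v _ => ?_
  refine le_trans ?_ (Pr_inter_le h0 h1 (EB 0 M) (EB 0 m) (Xins Λ v) ?_)
  · refine Pr_mono h0 h1 fun O hO h => ?_
    refine h.mono (fun e he => ?_) (Subset.refl _)
    rw [mem_insd] at he ⊢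
    refine ⟨mem_inter.2 ⟨he.1, ?_⟩, he.2⟩
    induction e using Sym2.ind with
    | _ x y =>
      exact mem_EB.2 ⟨hΛ (he.2 x (Sym2.mem_mk_left x y)), hΛ (he.2 y (Sym2.mem_mk_right x y)),
        (mem_EB.1 (hO he.1)).2.2⟩
  · intro O O' hOO h
    refine h.mono (fun e he => ?_) (Subset.refl _)
    rw [mem_insd] at he ⊢
    exact ⟨hOO he.1, he.2⟩

/-- the inequality before the limit -/
theorem esc_pre {q : ℝ} (h0 : 0 ≤ q) (h1 : q ≤ 1) {m N : ℕ} (hN : 1 ≤ N) (hΛ : Λ ⊆ box 0 m)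
    (hθ : 0 < arm q d N) (y : ℝ) :
    2 * y * (arm q d (m + 1 + N) / arm q d N) - y ^ 2 * ((arm q d (m + 1 + N) / arm q d N) ^ 2 +
      (1 - q) * KK q m Λ) ≤ Pr q (EB 0 (m + 1)) (Xesc Λ) := by
  have ht : ∀ v ∈ (sph (0 : Fin d → ℤ) (m + 1 + N) : Set (Fin d → ℤ)), v ∉ Λ := by
    intro v hv hvS
    have k1 := Pool.Agent.FPP38.mem_box.1 (hΛ hvS)
    rw [mem_coe, mem_sph] at hv
    obtain ⟨_, i, hi⟩ := hv
    have := k1 i
    push_cast at hi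
    omega
  have g1 := two_x (Λ := Λ) h0 h1 (x := y / arm q d N) (Λ.card + 1) (EB 0 (m + 1 + N)) {0} ht
  have g2 := Z2_le (Λ := Λ) h0 h1 hN hΛ (Λ.card + 1) (EB 0 (m + 1 + N)) {0} (lat_EB _ _)
  have g3 := cnt_KK (Λ := Λ) h0 h1 (M := m + 1 + N) hΛ (Λ.card + 1)
  have g4 := HT_le (Λ := Λ) h0 h1 (M := m + 1 + N) hΛ
  refine le_trans ?_ (g1.trans g4)
  have e1 : Q q (sph (0 : Fin d → ℤ) (m + 1 + N) : Set (Fin d → ℤ)) (EB 0 (m + 1 + N)) {0} =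
      arm q d (m + 1 + N) := rfl
  rw [e1] at g2 ⊢
  set θ := arm q d N with hθdef
  set a := arm q d (m + 1 + N) with ha
  have hpos : 0 ≤ (1 - q) * θ ^ 2 := mul_nonneg (sub_nonneg.2 h1) (sq_nonneg _)
  have g5 : Z2 Λ q (sph (0 : Fin d → ℤ) (m + 1 + N) : Set (Fin d → ℤ)) (Λ.card + 1)
      (EB 0 (m + 1 + N)) {0} ≤ a ^ 2 + (1 - q) * θ ^ 2 * KK q m Λ :=
    g2.trans (by linarith [mul_le_mul_of_nonneg_left g3 hpos])
  have g6 := mul_le_mul_of_nonneg_left g5 (sq_nonneg (y / θ))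
  have e2 : (y / θ) ^ 2 * (a ^ 2 + (1 - q) * θ ^ 2 * KK q m Λ) =
      y ^ 2 * ((a / θ) ^ 2 + (1 - q) * KK q m Λ) := by
    field_simp
  have e3 : 2 * (y / θ) * a = 2 * y * (a / θ) := by
    field_simp
  rw [e2] at g6
  rw [e3]
  linarith

/-- above the critical point -/
theorem esc_super {q : ℝ≥0} (hq : pc d < q) (hq1 : q ≤ 1) {m : ℕ} (hΛ : Λ ⊆ box 0 m) :
    1 ≤ Pr q (EB 0 (m + 1)) (Xesc Λ) * (1 + (1 - q) * KK q m Λ) := by
  have h1 : (q : ℝ) ≤ 1 := by exact_mod_cast hq1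
  obtain ⟨c, hc, hcN⟩ := arm_pos hq hq1
  have hK := KK_nonneg (Λ := Λ) q.coe_nonneg h1 m
  have hB : 0 < 1 + (1 - (q : ℝ)) * KK q m Λ := by
    have := mul_nonneg (sub_nonneg.2 h1) hK
    linarith
  have key : ∀ y : ℝ, 2 * y * 1 - y ^ 2 * (1 ^ 2 + (1 - (q : ℝ)) * KK q m Λ) ≤
      Pr q (EB 0 (m + 1)) (Xesc Λ) := by
    intro y
    have hr := arm_ratio (d := d) hq hq1 (m + 1)
    have hlim := (hr.const_mul (2 * y)).sub
      (((hr.pow 2).add_const ((1 - (q : ℝ)) * KK q m Λ)).const_mul (y ^ 2))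
    refine le_of_tendsto hlim ?_
    filter_upwards [eventually_ge_atTop 1] with N hN
    exact esc_pre q.coe_nonneg h1 hN hΛ (hc.trans_le (hcN N)) y
  have h2 := key (1 / (1 + (1 - (q : ℝ)) * KK q m Λ))
  have e : 2 * (1 / (1 + (1 - (q : ℝ)) * KK q m Λ)) * 1 - (1 / (1 + (1 - (q : ℝ)) * KK q m Λ)) ^ 2 *
      (1 ^ 2 + (1 - (q : ℝ)) * KK q m Λ) = 1 / (1 + (1 - (q : ℝ)) * KK q m Λ) := by
    field_simp
    ring
  rw [e, div_le_iff₀ hB] at h2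
  exact h2

theorem rch_of_RL {O : Finset (Sym2 (Fin d → ℤ))} {k : ℕ} {v : Fin d → ℤ}
    (h : RL (fun e => e ∈ O) k v) : Rch O {0} v := by
  induction h with
  | zero => exact Rch.base (mem_singleton_self _)
  | succ _ _ hs ih => exact Rch.step ih hs

theorem xesc_full (hd : 0 < d) {m : ℕ} (hΛ : Λ ⊆ box 0 m) : Xesc Λ (EB 0 (m + 1)) := by
  refine ⟨_, fun hv => ?_, rch_of_RL (line_RL (m + 1) (⟨0, hd⟩ : Fin d) (m + 1) le_rfl)⟩
  have := Pool.Agent.FPP38.mem_box.1 (hΛ hv) ⟨0, hd⟩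
  rw [Pi.single_eq_same] at this
  simp only [Pi.zero_apply, sub_zero] at this
  rw [abs_of_nonneg (by positivity)] at this
  push_cast at this
  linarith

/-- at and above the critical point -/
theorem esc_main (hd : 0 < d) {q : ℝ≥0} (hq : pc d ≤ q) (hq1 : q ≤ 1) {m : ℕ}
    (hΛ : Λ ⊆ box 0 m) :
    1 ≤ Pr q (EB 0 (m + 1)) (Xesc Λ) * (1 + (1 - q) * KK q m Λ) := by
  rcases hq.lt_or_eq with h | rfl
  · exact esc_super h hq1 hΛ
  · rcases hq1.lt_or_eq with h1 | h1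
    · have hlt : ((pc d : ℝ≥0) : ℝ) < 1 := by exact_mod_cast h1
      have hcont : Continuous (fun q : ℝ => Pr q (EB (0 : Fin d → ℤ) (m + 1)) (Xesc Λ) *
          (1 + (1 - q) * KK q m Λ)) := by
        refine (continuous_Pr _ _).mul (continuous_const.add
          ((continuous_const.sub continuous_id).mul ?_))
        exact continuous_finsetSum _ fun v _ => continuous_Pr _ _
      have hc1 := (hcont.tendsto ((pc d : ℝ≥0) : ℝ)).mono_left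
        (nhdsWithin_le_nhds (s := Set.Ioi ((pc d : ℝ≥0) : ℝ)))
      refine ge_of_tendsto hc1 ?_
      filter_upwards [Ioo_mem_nhdsGT hlt] with r hr
      have hr0 : 0 ≤ r := (pc d).coe_nonneg.trans hr.1.le
      have h2 : pc d < (⟨r, hr0⟩ : ℝ≥0) := by
        rw [← NNReal.coe_lt_coe]
        exact hr.1
      have h3 : (⟨r, hr0⟩ : ℝ≥0) ≤ 1 := NNReal.coe_le_coe.1 hr.2.le
      exact esc_super (Λ := Λ) h2 h3 hΛ
    · have h2 : ((pc d : ℝ≥0) : ℝ) = 1 := by rw [h1]; rfl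
      rw [h2, Pr_one _ (xesc_full hd hΛ)]
      simp

end Pool.Agent.Arm55
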