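import Pool.Agent.Arm55.Inf

/-!
Definitions and lemmas shared by two lower bounds for the probability that the critical cluster of
the origin leaves a finite set.
-/

set_option autoImplicit false
set_option linter.deprecated false

open Finset MeasureTheory Filter Topology
open scoped NNReal ENNReal

namespace Pool.Agent.Arm55

open Pool.Agent.FPP38

variable {d : ℕ}

/-- the cluster of the origin leaves `Λ` -/
def escEvent (Λ : Finset (Fin d → ℤ)) : Set (Sym2 (Fin d → ℤ) → Bool) :=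
  {ω | ∃ y, y ∉ Λ ∧ (openGraph ω).Reachable 0 y}

/-- the probability that the cluster of the origin leaves `Λ` -/
noncomputable def escProb (q : ℝ≥0) (hq : q ≤ 1) (Λ : Finset (Fin d → ℤ)) : ℝ :=
  (PB (Fin d → ℤ) q hq (escEvent Λ)).toReal

/-- the box of radius `n` -/
noncomputable def boxN (d n : ℕ) : Finset (Fin d → ℤ) := Fintype.piFinset fun _ => Icc (-(n : ℤ)) n

/-- the sup-norm sphere of radius `n` -/
def bdry (d n : ℕ) : Set (Fin d → ℤ) := {y | (∀ i, |y i| ≤ (n : ℤ)) ∧ ∃ i, |y i| = (n : ℤ)}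

/-- the extrinsic one-arm probability -/
noncomputable def armEx (q : ℝ≥0) (hq : q ≤ 1) (d n : ℕ) : ℝ :=
  (PB (Fin d → ℤ) q hq {ω | ∃ y ∈ bdry d n, (openGraph ω).Reachable 0 y}).toReal

theorem mem_bdry {n : ℕ} {y : Fin d → ℤ} : y ∈ bdry d n ↔ y ∈ sph (0 : Fin d → ℤ) n := by
  rw [mem_sph, bdry]
  simp

theorem boxN_eq (d n : ℕ) : boxN d n = box 0 n := by
  unfold boxN Pool.Agent.FPP38.box
  simp

theorem exists_box (Λ : Finset (Fin d → ℤ)) : ∃ m, Λ ⊆ box 0 m := by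
  refine ⟨∑ x ∈ Λ, ∑ i, (|x i|).toNat, fun x hx => ?_⟩
  rw [Pool.Agent.FPP38.mem_box]
  intro i
  have h1 : (|x i|).toNat ≤ ∑ i, (|x i|).toNat :=
    single_le_sum (f := fun i => (|x i|).toNat) (fun _ _ => Nat.zero_le _) (mem_univ i)
  have h2 : ∑ i, (|x i|).toNat ≤ ∑ x ∈ Λ, ∑ i, (|x i|).toNat :=
    single_le_sum (f := fun x : Fin d → ℤ => ∑ i, (|x i|).toNat) (fun _ _ => Nat.zero_le _) hx
  have h3 : |x i| ≤ ((|x i|).toNat : ℤ) := Int.self_le_toNat _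
  have h4 : ((|x i|).toNat : ℤ) ≤ ((∑ x ∈ Λ, ∑ i, (|x i|).toNat : ℕ) : ℤ) := by
    exact_mod_cast h1.trans h2
  simpa using h3.trans h4

theorem rch_walk {n : ℕ} {ω : Sym2 (Fin d → ℤ) → Bool} {v : Fin d → ℤ}
    (h : Rch (opn (EB 0 n) ω) {0} v) : (openGraph ω).Reachable 0 v := by
  obtain ⟨m, hm⟩ := rch_RL (fun x y h => lat_EB _ _ x y (mem_opn.1 h).1) h
  obtain ⟨w, _⟩ := walk_RL.1 (hm.mono fun e he => (mem_opn.1 he).2)
  exact ⟨w⟩

theorem esc_le {q : ℝ≥0} (hq : q ≤ 1) {m : ℕ} (Λ : Finset (Fin d → ℤ)) :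
    Pr q (EB 0 (m + 1)) (Xesc Λ) ≤ escProb q hq Λ := by
  have h1 := measure_event hq (EB (0 : Fin d → ℤ) (m + 1)) (Xesc Λ)
  have h2 : PB (Fin d → ℤ) q hq {ω | Xesc Λ (opn (EB 0 (m + 1)) ω)} ≤
      PB (Fin d → ℤ) q hq (escEvent Λ) := by
    refine measure_mono ?_
    rintro ω ⟨v, hv, hr⟩
    exact ⟨v, hv, rch_walk hr⟩
  rw [h1] at h2
  have h3 : PB (Fin d → ℤ) q hq (escEvent Λ) ≠ ⊤ := measure_ne_top _ _
  exact (ENNReal.ofReal_le_iff_le_toReal h3).1 h2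

theorem arm_of_esc {n : ℕ} {ω : Sym2 (Fin d → ℤ) → Bool} (h : ω ∈ escEvent (boxN d n)) :
    ∃ y ∈ bdry d (n + 1), (openGraph ω).Reachable 0 y := by
  obtain ⟨y, hy, ⟨w⟩⟩ := h
  rw [boxN_eq] at hy
  rcases (walk_RL.2 ⟨w, rfl⟩ : RL (fun e => ω e = true) w.length y).exit (N := n + 1) with h | h
  · refine ⟨y, mem_bdry.2 (mem_sph.2 ⟨fun i => Pool.Agent.FPP38.mem_box.1 h.1 i, ?_⟩), ⟨w⟩⟩
    rw [Pool.Agent.FPP38.mem_box] at hy
    push Not at hy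
    obtain ⟨i, hi⟩ := hy
    refine ⟨i, le_antisymm (Pool.Agent.FPP38.mem_box.1 h.1 i) ?_⟩
    push_cast
    omega
  · obtain ⟨v, hv, hr⟩ := h
    exact ⟨v, mem_bdry.2 (mem_coe.1 hv), rch_walk hr⟩

end Pool.Agent.Arm55
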