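import Pool.Agent.FPP38.Meas

/-!
Finite-volume facts on Bernoulli percolation: Russo's formula, thinning, monotonicity in the set of
edges.
-/

set_option autoImplicit false

open Finset

namespace Pool.Agent.Arm55

open Pool.Agent.FPP38

variable {V : Type*} [DecidableEq V]

/-- Russo's formula, for arbitrary events -/
theorem hasDerivAt_Pr (A : Finset (Sym2 V)) : ∀ (X : Finset (Sym2 V) → Prop) (p : ℝ),
    HasDerivAt (fun p => Pr p A X)
      (∑ e ∈ A, (Pr p A (fun O => X (insert e O)) - Pr p A (fun O => X (O.erase e)))) p := by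
  induction A using Finset.induction_on with
  | empty =>
    intro X p
    rw [sum_empty]
    have h : (fun p => Pr p (∅ : Finset (Sym2 V)) X) = fun _ => Pr 0 (∅ : Finset (Sym2 V)) X := by
      funext q
      unfold Pr
      rw [powerset_empty, sum_singleton, sum_singleton]
      simp [wt]
    rw [h]
    exact hasDerivAt_const _ _
  | insert a A ha ih =>
    intro X p
    have h : (fun p => Pr p (insert a A) X) =
        fun p => p * Pr p A (fun O => X (insert a O)) + (1 - p) * Pr p A X := by
      funext q
      exact Pr_insert ha X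
    rw [h]
    have h1 := (hasDerivAt_id p).mul (ih (fun O => X (insert a O)) p)
    have h2 := ((hasDerivAt_const p (1 : ℝ)).sub (hasDerivAt_id p)).mul (ih X p)
    have h3 : HasDerivAt (fun p => p * Pr p A (fun O => X (insert a O)) + (1 - p) * Pr p A X)
        (1 * Pr p A (fun O => X (insert a O)) + p * (∑ e ∈ A, (Pr p A (fun O => X (insert a (insert e O))) -
          Pr p A (fun O => X (insert a (O.erase e))))) + ((0 - 1) * Pr p A X + (1 - p) *
          ∑ e ∈ A, (Pr p A (fun O => X (insert e O)) - Pr p A (fun O => X (O.erase e))))) p :=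
      h1.add h2
    refine h3.congr_deriv ?_
    rw [sum_insert ha]
    have e1 : Pr p (insert a A) (fun O => X (insert a O)) = Pr p A (fun O => X (insert a O)) := by
      rw [Pr_insert ha]
      have : Pr p A (fun O => X (insert a (insert a O))) = Pr p A (fun O => X (insert a O)) :=
        Pr_congr fun O _ => by rw [insert_idem]
      rw [this]; ring
    have e2 : Pr p (insert a A) (fun O => X (O.erase a)) = Pr p A X := by
      rw [Pr_insert ha]
      have g1 : Pr p A (fun O => X ((insert a O).erase a)) = Pr p A X :=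
        Pr_congr fun O hO => by rw [erase_insert (fun h => ha (hO h))]
      have g2 : Pr p A (fun O => X (O.erase a)) = Pr p A X :=
        Pr_congr fun O hO => by rw [erase_eq_of_notMem (fun h => ha (hO h))]
      rw [g1, g2]; ring
    have e3 : ∀ e ∈ A, Pr p (insert a A) (fun O => X (insert e O)) =
        p * Pr p A (fun O => X (insert a (insert e O))) + (1 - p) * Pr p A (fun O => X (insert e O)) := by
      intro e _
      rw [Pr_insert ha]
      congr 2
      refine Pr_congr fun O _ => by rw [insert_comm]
    have e4 : ∀ e ∈ A, Pr p (insert a A) (fun O => X (O.erase e)) =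
        p * Pr p A (fun O => X (insert a (O.erase e))) + (1 - p) * Pr p A (fun O => X (O.erase e)) := by
      intro e he
      rw [Pr_insert ha]
      congr 2
      have hne : e ≠ a := fun h => ha (h ▸ he)
      refine Pr_congr fun O _ => by rw [erase_insert_of_ne hne.symm]
    have e6 : ∑ e ∈ A, (Pr p (insert a A) (fun O => X (insert e O)) -
        Pr p (insert a A) (fun O => X (O.erase e))) =
        p * (∑ e ∈ A, (Pr p A (fun O => X (insert a (insert e O))) -
          Pr p A (fun O => X (insert a (O.erase e))))) + (1 - p) *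
          ∑ e ∈ A, (Pr p A (fun O => X (insert e O)) - Pr p A (fun O => X (O.erase e))) := by
      rw [mul_sum, mul_sum, ← sum_add_distrib]
      refine sum_congr rfl fun e he => ?_
      rw [e3 e he, e4 e he]
      ring
    rw [e1, e2, e6]
    ring

/-- for increasing events the probability increases with the set of edges -/
theorem Pr_mono_set {p : ℝ} (h0 : 0 ≤ p) (h1 : p ≤ 1) {A' A : Finset (Sym2 V)} (hA : A' ⊆ A)
    {X : Finset (Sym2 V) → Prop} (hX : ∀ O O' : Finset (Sym2 V), O ⊆ O' → X O → X O') :
    Pr p A' X ≤ Pr p A X := by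
  induction A using Finset.induction_on generalizing A' X with
  | empty => rw [subset_empty.1 hA]
  | insert a A ha ih =>
    by_cases haA : a ∈ A'
    · have hs : A'.erase a ⊆ A := by
        intro f hf
        rw [mem_erase] at hf
        exact (mem_insert.1 (hA hf.2)).resolve_left hf.1
      rw [Pr_erase haA, Pr_insert ha]
      have i1 := ih hs (X := fun O => X (insert a O)) fun O O' h => hX _ _ (insert_subset_insert a h)
      have i2 := ih hs hX
      have j1 := mul_le_mul_of_nonneg_left i1 h0
      have j2 := mul_le_mul_of_nonneg_left i2 (sub_nonneg.2 h1)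
      linarith
    · have hs : A' ⊆ A := fun f hf => (mem_insert.1 (hA hf)).resolve_left fun h => haA (h ▸ hf)
      refine (ih hs hX).trans ?_
      rw [Pr_insert ha]
      have i1 : Pr p A X ≤ Pr p A (fun O => X (insert a O)) :=
        Pr_mono h0 h1 fun O _ => hX _ _ (subset_insert a O)
      have j1 := mul_le_mul_of_nonneg_left i1 h0
      linarith

/-- expectation of a function of the configuration -/
noncomputable def Ex (p : ℝ) (A : Finset (Sym2 V)) (f : Finset (Sym2 V) → ℝ) : ℝ :=
  ∑ O ∈ A.powerset, wt p A O * f O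

theorem Ex_insert {p : ℝ} {A : Finset (Sym2 V)} {e : Sym2 V} (he : e ∉ A)
    (f : Finset (Sym2 V) → ℝ) :
    Ex p (insert e A) f = p * Ex p A (fun O => f (insert e O)) + (1 - p) * Ex p A f := by
  unfold Ex
  rw [sum_powerset_insert he, mul_sum, mul_sum, add_comm]
  congr 1
  · refine sum_congr rfl fun O hO => ?_
    have hO' := mem_powerset.1 hO
    have : wt p (insert e A) (insert e O) = p * wt p A O := by
      unfold wt
      rw [prod_insert he, if_pos (mem_insert_self _ _)]
      congr 1
      refine prod_congr rfl fun f hf => ?_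
      have hne : f ≠ e := fun h => he (h ▸ hf)
      simp [mem_insert, hne]
    rw [this, mul_assoc]
  · refine sum_congr rfl fun O hO => ?_
    have hO' := mem_powerset.1 hO
    have : wt p (insert e A) O = (1 - p) * wt p A O := by
      unfold wt
      rw [prod_insert he, if_neg (fun h => he (hO' h))]
    rw [this, mul_assoc]

theorem Ex_congr {p : ℝ} {A : Finset (Sym2 V)} {f g : Finset (Sym2 V) → ℝ}
    (h : ∀ O ⊆ A, f O = g O) : Ex p A f = Ex p A g :=
  sum_congr rfl fun O hO => by rw [h O (mem_powerset.1 hO)]

theorem Ex_mono {p : ℝ} (h0 : 0 ≤ p) (h1 : p ≤ 1) {A : Finset (Sym2 V)} {f g : Finset (Sym2 V) → ℝ}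
    (h : ∀ O ⊆ A, f O ≤ g O) : Ex p A f ≤ Ex p A g :=
  sum_le_sum fun O hO => mul_le_mul_of_nonneg_left (h O (mem_powerset.1 hO)) (wt_nonneg h0 h1 A O)

theorem Ex_add (p : ℝ) (A : Finset (Sym2 V)) (f g : Finset (Sym2 V) → ℝ) :
    Ex p A (fun O => f O + g O) = Ex p A f + Ex p A g := by
  unfold Ex
  rw [← sum_add_distrib]
  exact sum_congr rfl fun O _ => mul_add _ _ _

theorem Ex_smul (p c : ℝ) (A : Finset (Sym2 V)) (f : Finset (Sym2 V) → ℝ) :
    Ex p A (fun O => c * f O) = c * Ex p A f := by
  unfold Ex
  rw [mul_sum]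
  exact sum_congr rfl fun O _ => by ring

/-- thinning: a configuration of density `q r` is a thinned configuration of density `q` -/
theorem thin (q r : ℝ) (A : Finset (Sym2 V)) : ∀ X : Finset (Sym2 V) → Prop,
    Pr (q * r) A X = Ex q A (fun O => Pr r O X) := by
  induction A using Finset.induction_on with
  | empty =>
    intro X
    unfold Ex
    rw [powerset_empty, sum_singleton]
    have e0 : ∀ s : ℝ, Pr s (∅ : Finset (Sym2 V)) X = Pr 0 (∅ : Finset (Sym2 V)) X := by
      intro s
      unfold Pr
      rw [powerset_empty, sum_singleton, sum_singleton]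
      simp [wt]
    have e1 : (fun O => Pr r O X) ∅ = Pr 0 (∅ : Finset (Sym2 V)) X := e0 r
    rw [e0 (q * r), e1]
    simp [wt]
  | insert a A ha ih =>
    intro X
    rw [Pr_insert ha, ih, ih, Ex_insert ha]
    have e1 : Ex q A (fun O => Pr r (insert a O) X) =
        r * Ex q A (fun O => Pr r O (fun O => X (insert a O))) + (1 - r) * Ex q A (fun O => Pr r O X) := by
      rw [← Ex_smul, ← Ex_smul, ← Ex_add]
      exact Ex_congr fun O hO => Pr_insert (fun h => ha (hO h)) X
    rw [e1]
    ring

/-- all edges of `F` are open -/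
theorem Pr_subset {r : ℝ} {F A : Finset (Sym2 V)} (hF : F ⊆ A) :
    Pr r A (fun O => F ⊆ O) = r ^ F.card := by
  induction A using Finset.induction_on generalizing F with
  | empty =>
    rw [subset_empty.1 hF, card_empty, pow_zero, ← Pr_true r (∅ : Finset (Sym2 V))]
    exact Pr_congr fun O _ => by simp
  | insert a A ha ih =>
    rw [Pr_insert ha]
    by_cases haF : a ∈ F
    · have hs : F.erase a ⊆ A := by
        intro f hf
        rw [mem_erase] at hf
        exact (mem_insert.1 (hF hf.2)).resolve_left hf.1
      have e1 : Pr r A (fun O => F ⊆ insert a O) = Pr r A (fun O => F.erase a ⊆ O) :=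
        Pr_congr fun O _ => by rw [← subset_insert_iff]
      have e2 : Pr r A (fun O => F ⊆ O) = 0 := by
        rw [← Pr_false r A]
        exact Pr_congr fun O hO => ⟨fun h => ha (hO (h haF)), fun h => h.elim⟩
      rw [e1, e2, ih hs, mul_zero, add_zero, ← card_erase_add_one haF, pow_succ]
      ring
    · have hs : F ⊆ A := fun f hf => (mem_insert.1 (hF hf)).resolve_left fun h => haF (h ▸ hf)
      have e1 : Pr r A (fun O => F ⊆ insert a O) = Pr r A (fun O => F ⊆ O) :=
        Pr_congr fun O _ => subset_insert_iff_of_notMem haF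
      rw [e1, ih hs]
      ring

/-- the event `X` is certified by at most `n` open edges, within the configurations that are
smaller -/
def Cert (n : ℕ) (X : Finset (Sym2 V) → Prop) : Prop :=
  ∀ O, X O → ∃ F ⊆ O, F.card ≤ n ∧ ∀ O', F ⊆ O' → O' ⊆ O → X O'

/-- the basic inequality: `q ^ (-n) P_q(X)` is nonincreasing in `q` -/
theorem cert_le {n : ℕ} {X : Finset (Sym2 V) → Prop} (hX : Cert n X) {p q : ℝ} (hp : 0 ≤ p)
    (hq0 : 0 < q) (hpq : p ≤ q) (hq : q ≤ 1) (A : Finset (Sym2 V)) :
    (p / q) ^ n * Pr q A X ≤ Pr p A X := by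
  have hr0 : 0 ≤ p / q := div_nonneg hp hq0.le
  have hr1 : p / q ≤ 1 := (div_le_one hq0).2 hpq
  have e : p = q * (p / q) := by field_simp
  have key : Pr p A X = Ex q A (fun O => Pr (p / q) O X) := by
    conv_lhs => rw [e]
    exact thin q (p / q) A X
  rw [key]
  classical
  have e2 : (p / q) ^ n * Pr q A X = Ex q A (fun O => (p / q) ^ n * (if X O then 1 else 0)) := by
    rw [Ex_smul]
    rfl
  rw [e2]
  refine Ex_mono hq0.le hq fun O _ => ?_
  by_cases hO : X O
  · rw [if_pos hO, mul_one]
    obtain ⟨F, h1, h2, h3⟩ := hX O hO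
    have g1 : (p / q) ^ n ≤ (p / q) ^ F.card := pow_le_pow_of_le_one hr0 hr1 h2
    refine g1.trans ?_
    rw [← Pr_subset h1]
    exact Pr_mono hr0 hr1 fun O' hO' hF => h3 O' hF hO'
  · rw [if_neg hO, mul_zero]
    exact Pr_nonneg hr0 hr1 _ _

end Pool.Agent.Arm55
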