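import Pool.Agent.Arm55.Ell

/-!
The inequality in terms of the intrinsic distance to the complement, on the event that the cluster
of the origin is infinite.
-/

set_option autoImplicit false

open Finset MeasureTheory Filter Topology
open scoped NNReal ENNReal

namespace Pool.Agent.Arm55

open Pool.Agent.FPP38

variable {d : ℕ} {Λ : Finset (Fin d → ℤ)}

/-- the one-arm event -/
def armSet (d M : ℕ) : Set (Sym2 (Fin d → ℤ) → Bool) := {ω | Xarm d M (opn (EB 0 M) ω)}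

theorem armSet_anti (d : ℕ) : Antitone (armSet d) := by
  refine antitone_nat_of_succ_le fun M ω h => ?_
  obtain ⟨v, hv, hr⟩ := h
  obtain ⟨i, hi⟩ := rch_RL (fun x y h => lat_EB _ _ x y (mem_opn.1 h).1) hr
  rcases (hi.mono fun e he => (mem_opn.1 he).2 :
    RL (fun e => ω e = true) i v).exit (N := M) with h | h
  · exfalso
    obtain ⟨_, j, hj⟩ := mem_sph.1 (mem_coe.1 hv)
    have := Pool.Agent.FPP38.mem_box.1 h.1 j
    rw [hj] at this
    push_cast at this
    linarith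
  · exact h

theorem finite_box {s : Set (Fin d → ℤ)} (hs : s.Finite) : ∃ m : ℕ, s ⊆ box (0 : Fin d → ℤ) m := by
  obtain ⟨F, rfl⟩ := hs.exists_finset_coe
  refine ⟨∑ x ∈ F, ∑ i, (|x i|).toNat, fun x hx => ?_⟩
  rw [mem_coe, Pool.Agent.FPP38.mem_box]
  intro i
  have h1 : (|x i|).toNat ≤ ∑ i, (|x i|).toNat :=
    single_le_sum (f := fun i => (|x i|).toNat) (fun _ _ => Nat.zero_le _) (mem_univ i)
  have h2 : ∑ i, (|x i|).toNat ≤ ∑ x ∈ F, ∑ i, (|x i|).toNat :=
    single_le_sum (f := fun x : Fin d → ℤ => ∑ i, (|x i|).toNat) (fun _ _ => Nat.zero_le _)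
      (mem_coe.1 hx)
  have h3 : |x i| ≤ ((|x i|).toNat : ℤ) := Int.self_le_toNat _
  have h4 : ((|x i|).toNat : ℤ) ≤ ((∑ x ∈ F, ∑ i, (|x i|).toNat : ℕ) : ℤ) := by
    exact_mod_cast h1.trans h2
  simpa using h3.trans h4

theorem iInter_armSet (d : ℕ) : ⋂ M, armSet d M = infiniteCluster d := by
  refine Set.Subset.antisymm (fun ω h => ?_) (Set.subset_iInter fun M => inf_sub M)
  by_contra hfin
  have hfin' : {x | (openGraph ω).Reachable 0 x}.Finite := by
    rwa [infiniteCluster, Set.mem_ofPred_eq, Set.not_infinite] at hfin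
  obtain ⟨m, hm⟩ := finite_box hfin'
  obtain ⟨v, hv, hr⟩ := Set.mem_iInter.1 h (m + 1)
  obtain ⟨i, hi⟩ := rch_RL (fun x y h => lat_EB _ _ x y (mem_opn.1 h).1) hr
  obtain ⟨w, _⟩ := walk_RL.1 (hi.mono fun e he => (mem_opn.1 he).2)
  have h1 := hm (show v ∈ {x | (openGraph ω).Reachable 0 x} from ⟨w⟩)
  rw [mem_coe, Pool.Agent.FPP38.mem_box] at h1
  obtain ⟨_, j, hj⟩ := mem_sph.1 (mem_coe.1 hv)
  have := h1 j
  rw [hj] at this
  push_cast at this
  linarith

/-- no path of length at most `k` leaves `Λ` -/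
def HK (Λ : Finset (Fin d → ℤ)) (k : ℕ) : Set (Sym2 (Fin d → ℤ) → Bool) :=
  {ω | ∀ y, y ∉ Λ → ∀ i ≤ k, ¬ RL (fun e => ω e = true) i y}

theorem measurable_HK (k : ℕ) : MeasurableSet (HK Λ k) := by
  have h := measurable_event (EB (0 : Fin d → ℤ) k)
    (fun O => ∃ y, y ∉ Λ ∧ ∃ i ≤ k, RL (fun e => e ∈ O) i y)
  have e : HK Λ k = {ω | (fun O => ∃ y, y ∉ Λ ∧ ∃ i ≤ k, RL (fun e => e ∈ O) i y)
      (opn (EB (0 : Fin d → ℤ) k) ω)}ᶜ := by
    ext ω
    rw [HK, Set.mem_ofPred_eq, Set.mem_compl_iff, Set.mem_ofPred_eq]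
    push Not
    refine forall_congr' fun y => imp_congr_right fun _ => forall_congr' fun i =>
      imp_congr_right fun hi => not_congr ?_
    constructor
    · intro h
      exact (h.loc hi).mono fun e he => mem_opn.2 ⟨he.2, he.1⟩
    · intro h
      exact h.mono fun e he => (mem_opn.1 he).2
  rw [e]
  exact h.compl

theorem tendsto_HK {q : ℝ≥0} (hq : q ≤ 1) {s : Set (Sym2 (Fin d → ℤ) → Bool)}
    (hs : MeasurableSet s) : Tendsto (fun M => (PB (Fin d → ℤ) q hq (s ∩ armSet d M)).toReal) atTop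
      (𝓝 (PB (Fin d → ℤ) q hq (s ∩ infiniteCluster d)).toReal) := by
  have h1 : Tendsto (fun M => PB (Fin d → ℤ) q hq (s ∩ armSet d M)) atTop
      (𝓝 (PB (Fin d → ℤ) q hq (⋂ M, s ∩ armSet d M))) := by
    refine tendsto_measure_iInter_atTop (fun M => ?_) (fun M M' h => ?_) ⟨0, measure_ne_top _ _⟩
    · exact (hs.inter (measurable_event _ _)).nullMeasurableSet
    · exact Set.inter_subset_inter_right _ (armSet_anti d h)
  rw [← Set.inter_iInter, iInter_armSet] at h1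
  exact (ENNReal.tendsto_toReal (measure_ne_top _ _)).comp h1

theorem arm_toReal {q : ℝ≥0} (hq : q ≤ 1) (M : ℕ) :
    (PB (Fin d → ℤ) q hq (armSet d M)).toReal = arm q d M := by
  have h1 : (q : ℝ) ≤ 1 := by exact_mod_cast hq
  rw [armSet, measure_event hq (EB 0 M) (Xarm d M),
    ENNReal.toReal_ofReal (Pr_nonneg q.coe_nonneg h1 _ _)]
  rfl

theorem tendsto_arm {q : ℝ≥0} (hq : q ≤ 1) : Tendsto (fun M => arm q d M) atTop
    (𝓝 (PB (Fin d → ℤ) q hq (infiniteCluster d)).toReal) := by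
  have := tendsto_HK (d := d) hq (s := Set.univ) MeasurableSet.univ
  rw [Set.univ_inter] at this
  refine this.congr fun M => ?_
  rw [Set.univ_inter, arm_toReal]

/-- the truncated mean number of levels -/
noncomputable def DD (q : ℝ≥0) (hq : q ≤ 1) (Λ : Finset (Fin d → ℤ)) : ℝ :=
  ∑ k ∈ range (Λ.card + 1), (PB (Fin d → ℤ) q hq (HK Λ k ∩ infiniteCluster d)).toReal

theorem elf_le {q : ℝ≥0} (hq : q ≤ 1) {M : ℕ} (hM : Λ.card + 1 ≤ M) :
    Ex q (EB 0 M) (elf Λ (sph (0 : Fin d → ℤ) M : Set (Fin d → ℤ)) (Λ.card + 1) {0}) ≤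
      ∑ k ∈ range (Λ.card + 1), (PB (Fin d → ℤ) q hq (HK Λ k ∩ armSet d M)).toReal := by
  classical
  have h1 : (q : ℝ) ≤ 1 := by exact_mod_cast hq
  set J := Λ.card + 1 with hJ
  set t : Set (Fin d → ℤ) := (sph (0 : Fin d → ℤ) M : Set (Fin d → ℤ)) with ht
  have e1 : Ex q (EB 0 M) (elf Λ t J {0}) =
      ∑ k ∈ range J, Pr q (EB 0 M) (fun O => (∃ v ∈ t, Rch O {0} v) ∧ k < ell Λ J {0} O) := by
    unfold Ex Pr
    rw [sum_comm]
    refine sum_congr rfl fun O _ => ?_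
    rw [← mul_sum]
    congr 1
    unfold elf
    by_cases h : ∃ v ∈ t, Rch O {0} v
    · rw [if_pos h]
      have h2 : ∀ k ∈ range J, (@ite ℝ ((fun O => (∃ v ∈ t, Rch O {0} v) ∧ k < ell Λ J {0} O) O)
          (Classical.propDecidable _) 1 0) = if k < ell Λ J {0} O then 1 else 0 := by
        intro k _
        by_cases hk : k < ell Λ J {0} O
        · rw [if_pos ⟨h, hk⟩, if_pos hk]
        · rw [if_neg (fun h' => hk h'.2), if_neg hk]
      rw [sum_congr rfl h2, ← sum_filter, sum_const, nsmul_eq_mul, mul_one]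
      have h3 : (range J).filter (fun k => k < ell Λ J {0} O) = range (ell Λ J {0} O) := by
        ext k
        rw [mem_filter, mem_range, mem_range]
        have := ell_le (Λ := Λ) J {0} O
        omega
      rw [h3, card_range]
    · rw [if_neg h]
      symm
      refine sum_eq_zero fun k _ => ?_
      rw [if_neg (fun h' => h h'.1)]
  rw [e1]
  refine sum_le_sum fun k hk => ?_
  have hk' := mem_range.1 hk
  have h2 := measure_event hq (EB (0 : Fin d → ℤ) M)
    (fun O => (∃ v ∈ t, Rch O {0} v) ∧ k < ell Λ J {0} O)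
  have h3 : PB (Fin d → ℤ) q hq {ω | (fun O => (∃ v ∈ t, Rch O {0} v) ∧ k < ell Λ J {0} O)
      (opn (EB 0 M) ω)} ≤ PB (Fin d → ℤ) q hq (HK Λ k ∩ armSet d M) := by
    refine measure_mono ?_
    rintro ω ⟨h4, h5⟩
    refine ⟨fun y hy i hi hr => ?_, h4⟩
    have h6 : RL (fun e => e ∈ opn (EB (0 : Fin d → ℤ) M) ω) i y :=
      (hr.loc (by omega : i ≤ M)).mono fun e he => mem_opn.2 ⟨he.2, he.1⟩
    have h7 : PL (opn (EB (0 : Fin d → ℤ) M) ω) {0} i y :=
      (PL_RL (fun x y h => lat_EB _ _ x y (mem_opn.1 h).1)).2 h6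
    have := ell_le_path (Λ := Λ) J {0} _ i y hy h7
    omega
  rw [h2] at h3
  exact (ENNReal.ofReal_le_iff_le_toReal (measure_ne_top _ _)).1 h3

/-- above the critical point -/
theorem esc_inf {q : ℝ≥0} (hq : pc d < q) (hq1 : q ≤ 1) {m : ℕ} (hΛ : Λ ⊆ box 0 m) :
    (PB (Fin d → ℤ) q hq1 (infiniteCluster d)).toReal ≤ Pr q (EB 0 (m + 1)) (Xesc Λ) *
      ((PB (Fin d → ℤ) q hq1 (infiniteCluster d)).toReal + (1 - q) * DD q hq1 Λ) := by
  have h1 : (q : ℝ) ≤ 1 := by exact_mod_cast hq1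
  obtain ⟨c, hc, hcN⟩ := arm_pos hq hq1
  set θ := (PB (Fin d → ℤ) q hq1 (infiniteCluster d)).toReal with hθ
  have hlim := tendsto_arm (d := d) hq1
  have hθ0 : 0 < θ := lt_of_lt_of_le hc (ge_of_tendsto' hlim hcN)
  have hDD0 : 0 ≤ DD q hq1 Λ := sum_nonneg fun _ _ => ENNReal.toReal_nonneg
  have hB : 0 < 1 + (1 - (q : ℝ)) * (DD q hq1 Λ / θ) := by
    have := mul_nonneg (sub_nonneg.2 h1) (div_nonneg hDD0 hθ0.le)
    linarith
  have key : ∀ y : ℝ, 2 * y * 1 - y ^ 2 * (1 ^ 2 + (1 - (q : ℝ)) * (DD q hq1 Λ / θ)) ≤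
      Pr q (EB 0 (m + 1)) (Xesc Λ) := by
    intro y
    have hr := arm_ratio (d := d) hq hq1 (m + 1)
    have hM : Tendsto (fun N : ℕ => m + 1 + N) atTop atTop := by
      have := tendsto_add_atTop_nat (m + 1)
      refine this.congr fun N => Nat.add_comm _ _
    have hD : Tendsto (fun N => (∑ k ∈ range (Λ.card + 1),
        (PB (Fin d → ℤ) q hq1 (HK Λ k ∩ armSet d (m + 1 + N))).toReal) / arm q d N) atTop
        (𝓝 (DD q hq1 Λ / θ)) := by
      refine Tendsto.div ?_ hlim hθ0.ne'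
      exact tendsto_finsetSum _ fun k _ => (tendsto_HK hq1 (measurable_HK k)).comp hM
    have hlim2 := (hr.const_mul (2 * y)).sub
      (((hr.pow 2).add (hD.const_mul (1 - (q : ℝ)))).const_mul (y ^ 2))
    refine le_of_tendsto hlim2 ?_
    filter_upwards [eventually_ge_atTop (Λ.card + 1)] with N hN
    refine le_trans ?_ (esc_pre_ell (Λ := Λ) q.coe_nonneg h1 (by omega) hΛ
      (hc.trans_le (hcN N)) y)
    have h2 := elf_le (Λ := Λ) hq1 (M := m + 1 + N) (by omega)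
    have h3 := div_le_div_of_nonneg_right h2 (hc.trans_le (hcN N)).le
    have h4 := mul_le_mul_of_nonneg_left h3 (sub_nonneg.2 h1)
    have h5 := mul_le_mul_of_nonneg_left h4 (sq_nonneg y)
    nlinarith
  have h2 := key (1 / (1 + (1 - (q : ℝ)) * (DD q hq1 Λ / θ)))
  have e : 2 * (1 / (1 + (1 - (q : ℝ)) * (DD q hq1 Λ / θ))) * 1 -
      (1 / (1 + (1 - (q : ℝ)) * (DD q hq1 Λ / θ))) ^ 2 *
      (1 ^ 2 + (1 - (q : ℝ)) * (DD q hq1 Λ / θ)) = 1 / (1 + (1 - (q : ℝ)) * (DD q hq1 Λ / θ)) := by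
    set b := (1 - (q : ℝ)) * (DD q hq1 Λ / θ) with hb
    have : 1 + b ≠ 0 := hB.ne'
    field_simp
    ring
  rw [e, div_le_iff₀ hB] at h2
  have h3 := mul_le_mul_of_nonneg_left h2 hθ0.le
  have e2 : θ * (Pr q (EB 0 (m + 1)) (Xesc Λ) * (1 + (1 - (q : ℝ)) * (DD q hq1 Λ / θ))) =
      Pr q (EB 0 (m + 1)) (Xesc Λ) * (θ + (1 - q) * DD q hq1 Λ) := by
    field_simp
  rw [e2, mul_one] at h3
  exact h3

/-- the intrinsic distance from the origin to the complement of `Λ`, `⊤` if there is no connection -/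
noncomputable def distOut (Λ : Finset (Fin d → ℤ)) (ω : Sym2 (Fin d → ℤ) → Bool) : ℝ≥0∞ :=
  ⨅ (y : Fin d → ℤ) (_ : y ∉ Λ) (w : (openGraph ω).Walk 0 y), (w.length : ℝ≥0∞)

theorem DD_le {q : ℝ≥0} (hq : q ≤ 1) : ENNReal.ofReal (DD q hq Λ) ≤
    ∫⁻ ω in infiniteCluster d, distOut Λ ω ∂(PB (Fin d → ℤ) q hq) := by
  classical
  rw [DD, ENNReal.ofReal_sum_of_nonneg fun _ _ => ENNReal.toReal_nonneg]
  have h1 : ∀ k ∈ range (Λ.card + 1),
      ENNReal.ofReal (PB (Fin d → ℤ) q hq (HK Λ k ∩ infiniteCluster d)).toReal =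
      ∫⁻ ω in infiniteCluster d, (HK Λ k).indicator 1 ω ∂(PB (Fin d → ℤ) q hq) := by
    intro k _
    rw [ENNReal.ofReal_toReal (measure_ne_top _ _), lintegral_indicator_one (measurable_HK k),
      Measure.restrict_apply (measurable_HK k)]
  rw [sum_congr rfl h1, ← lintegral_finsetSum]
  · refine lintegral_mono fun ω => ?_
    refine le_iInf fun y => le_iInf fun hy => le_iInf fun w => ?_
    have h2 : ∑ k ∈ range (Λ.card + 1), (HK Λ k).indicator
        (1 : (Sym2 (Fin d → ℤ) → Bool) → ℝ≥0∞) ω =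
        (((range (Λ.card + 1)).filter fun k => ω ∈ HK Λ k).card : ℝ≥0∞) := by
      rw [card_filter]
      push_cast
      refine sum_congr rfl fun k _ => ?_
      simp [Set.indicator_apply]
    rw [h2]
    refine Nat.cast_le.2 ?_
    have h3 : ((range (Λ.card + 1)).filter fun k => ω ∈ HK Λ k) ⊆ range w.length := by
      intro k hk
      rw [mem_range]
      by_contra hlt
      push Not at hlt
      exact (mem_filter.1 hk).2 y hy w.length hlt (walk_RL.2 ⟨w, rfl⟩)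
    simpa using card_le_card h3
  · intro k _
    exact measurable_one.indicator (measurable_HK k)

end Pool.Agent.Arm55
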