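import Pool.Agent.Arm55.Fin

/-!
The Laplace transform of a coverage function of independent bits.
-/

set_option autoImplicit false

open Finset

namespace Pool.Agent.Arm55

open Pool.Agent.FPP38

theorem base_ineq {q x lam : ℝ} (hq0 : 0 ≤ q) (hq1 : q ≤ 1) (hx : 0 ≤ x) (hl0 : 0 ≤ lam)
    (hl1 : lam ≤ 1) : (1 - q) + q * x ^ lam ≤ ((1 - q) + q * x) ^ lam := by
  have h := (Real.concaveOn_rpow hl0 hl1).2 (x := 1) (Set.mem_Ici.2 zero_le_one) (y := x)
    (Set.mem_Ici.2 hx) (sub_nonneg.2 hq1) hq0 (by ring)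
  simp only [smul_eq_mul, Real.one_rpow, mul_one] at h
  exact h

/-- the new exponent -/
noncomputable def rho (q θ s : ℝ) : ℝ := - Real.log (1 - q * (1 - Real.exp (-(s * θ)))) / (q * θ)

theorem inner_pos {q θ s : ℝ} (hq0 : 0 < q) (hq1 : q ≤ 1) :
    0 < 1 - q * (1 - Real.exp (-(s * θ))) := by
  have h1 := Real.exp_pos (-(s * θ))
  nlinarith

theorem exp_rho {q θ s : ℝ} (hq0 : 0 < q) (hq1 : q ≤ 1) (hθ : 0 < θ) :
    Real.exp (-(rho q θ s * (q * θ))) = 1 - q * (1 - Real.exp (-(s * θ))) := by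
  have h1 : rho q θ s * (q * θ) = - Real.log (1 - q * (1 - Real.exp (-(s * θ)))) := by
    rw [rho, div_mul_cancel₀]
    positivity
  rw [h1, neg_neg, Real.exp_log (inner_pos hq0 hq1)]

theorem rho_nonneg {q θ s : ℝ} (hq0 : 0 < q) (hq1 : q ≤ 1) (hθ : 0 < θ) (hs : 0 ≤ s) :
    0 ≤ rho q θ s := by
  refine div_nonneg ?_ (by positivity)
  rw [neg_nonneg]
  refine Real.log_nonpos (inner_pos hq0 hq1).le ?_
  have : Real.exp (-(s * θ)) ≤ 1 := Real.exp_le_one_iff.2 (by nlinarith)
  nlinarith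

theorem rho_le {q θ s : ℝ} (hq0 : 0 < q) (hq1 : q ≤ 1) (hθ : 0 < θ) : rho q θ s ≤ s := by
  rw [rho, div_le_iff₀ (by positivity), neg_le, Real.le_log_iff_exp_le (inner_pos hq0 hq1)]
  have h := convexOn_exp.2 (x := (0 : ℝ)) (Set.mem_univ _) (y := -(s * θ)) (Set.mem_univ _)
    (sub_nonneg.2 hq1) hq0.le (by ring)
  simp only [smul_eq_mul, mul_zero, zero_add, Real.exp_zero, mul_one] at h
  have e : -(s * (q * θ)) = q * -(s * θ) := by ring
  rw [e]
  linarith

theorem two_point {q θ s a D : ℝ} (hq0 : 0 < q) (hq1 : q ≤ 1) (hθ : 0 < θ) (hs : 0 ≤ s)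
    (hD0 : 0 ≤ D) (hDa : D ≤ a) (haθ : a ≤ θ) :
    (1 - q) + q * Real.exp (-(s * a) + rho q θ s * D) ≤
      Real.exp (-(rho q θ s * (q * (a - D)))) := by
  set ρ := rho q θ s with hρ
  have hρ0 : 0 ≤ ρ := rho_nonneg hq0 hq1 hθ hs
  have hρs : ρ ≤ s := rho_le hq0 hq1 hθ
  have ha0 : 0 ≤ a := hD0.trans hDa
  have h1 : (1 - q) + q * Real.exp (-(s * a)) ≤ Real.exp (-(ρ * (q * a))) := by
    have hb := base_ineq (q := q) (x := Real.exp (-(s * θ))) (lam := a / θ) hq0.le hq1
      (Real.exp_pos _).le (div_nonneg ha0 hθ.le) ((div_le_one hθ).2 haθ)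
    have e1 : Real.exp (-(s * θ)) ^ (a / θ) = Real.exp (-(s * a)) := by
      rw [← Real.exp_mul]
      congr 1
      field_simp
    have e2 : ((1 - q) + q * Real.exp (-(s * θ))) ^ (a / θ) = Real.exp (-(ρ * (q * a))) := by
      have : (1 - q) + q * Real.exp (-(s * θ)) = Real.exp (-(ρ * (q * θ))) := by
        rw [hρ, exp_rho hq0 hq1 hθ]; ring
      rw [this, ← Real.exp_mul]
      congr 1
      field_simp
    rwa [e1, e2] at hb
  set t := ρ * D with ht
  have ht0 : 0 ≤ t := mul_nonneg hρ0 hD0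
  have hE : Real.exp (-(s * a) + t) ≤ 1 := by
    refine Real.exp_le_one_iff.2 ?_
    have : ρ * D ≤ s * a := mul_le_mul hρs hDa hD0 hs
    linarith
  have e3 : Real.exp (-(ρ * (q * (a - D)))) = Real.exp (-(ρ * (q * a))) * Real.exp (q * t) := by
    rw [← Real.exp_add]
    congr 1
    rw [ht]; ring
  have h2 : ((1 - q) + q * Real.exp (-(s * a))) * Real.exp (q * t) ≤
      Real.exp (-(ρ * (q * a))) * Real.exp (q * t) :=
    mul_le_mul_of_nonneg_right h1 (Real.exp_pos _).le
  rw [e3]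
  refine le_trans ?_ h2
  have e4 : Real.exp (-(s * a)) * Real.exp (q * t) =
      Real.exp (-(s * a) + t) * Real.exp (-((1 - q) * t)) := by
    rw [← Real.exp_add, ← Real.exp_add]
    congr 1
    ring
  have h3 : 1 - Real.exp (-((1 - q) * t)) ≤ (1 - q) * t := by
    have := Real.add_one_le_exp (-((1 - q) * t))
    linarith
  have h3' : 0 ≤ 1 - Real.exp (-((1 - q) * t)) := by
    have : Real.exp (-((1 - q) * t)) ≤ 1 := Real.exp_le_one_iff.2 (by nlinarith)
    linarith
  have h4 : q * t ≤ Real.exp (q * t) - 1 := by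
    have := Real.add_one_le_exp (q * t)
    linarith
  have h5 : Real.exp (-(s * a) + t) * (1 - Real.exp (-((1 - q) * t))) ≤ (1 - q) * t := by
    have := mul_le_mul_of_nonneg_right hE h3'
    linarith
  have h6 : (1 - q) * (q * t) ≤ (1 - q) * (Real.exp (q * t) - 1) :=
    mul_le_mul_of_nonneg_left h4 (sub_nonneg.2 hq1)
  have h7 := mul_le_mul_of_nonneg_left h5 hq0.le
  have e5 : ((1 - q) + q * Real.exp (-(s * a))) * Real.exp (q * t) =
      (1 - q) * Real.exp (q * t) + q * (Real.exp (-(s * a) + t) * Real.exp (-((1 - q) * t))) := by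
    rw [← e4]; ring
  rw [e5]
  nlinarith

variable {V : Type*} [DecidableEq V]

theorem Ex_const (p c : ℝ) (A : Finset (Sym2 V)) : Ex p A (fun _ => c) = c := by
  have h := Ex_smul p c A (fun _ => (1 : ℝ))
  simp only [mul_one] at h
  rw [h]
  have h2 : Ex p A (fun _ => (1 : ℝ)) = 1 := by
    have h3 := Pr_true p A
    unfold Pr at h3
    simpa [Ex] using h3
  rw [h2, mul_one]

/-- the Laplace transform of a coverage function whose marginals are at most `θ` -/
theorem laplace {q θ s : ℝ} (hq0 : 0 < q) (hq1 : q ≤ 1) (hθ : 0 < θ) (hs : 0 ≤ s)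
    (A : Finset (Sym2 V)) (Y : Sym2 V → Finset (Sym2 V) → Prop) (E : Finset (Sym2 V))
    (hY : ∀ e ∈ E, Pr q A (Y e) ≤ θ) : ∀ W : Finset (Sym2 V) → Prop,
    Ex q E (fun ω => Real.exp (-(s * Pr q A (fun R => W R ∧ ∃ e ∈ ω, Y e R)))) ≤
      Real.exp (-(rho q θ s * Ex q E (fun ω => Pr q A (fun R => W R ∧ ∃ e ∈ ω, Y e R)))) := by
  classical
  induction E using Finset.induction_on with
  | empty =>
    intro W
    have e1 : ∀ f : Finset (Sym2 V) → ℝ, Ex q ∅ f = f ∅ := by
      intro f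
      unfold Ex
      rw [powerset_empty, sum_singleton]
      simp [wt]
    rw [e1, e1]
    have e2 : Pr q A (fun R => W R ∧ ∃ e ∈ (∅ : Finset (Sym2 V)), Y e R) = 0 := by
      rw [← Pr_false q A]
      exact Pr_congr fun R _ => by simp
    rw [e2, mul_zero, mul_zero]
  | insert e E he ih =>
    intro W
    have hYE : ∀ f ∈ E, Pr q A (Y f) ≤ θ := fun f hf => hY f (mem_insert_of_mem hf)
    set ρ := rho q θ s with hρ
    set a := Pr q A (fun R => W R ∧ Y e R) with ha
    set g0 : Finset (Sym2 V) → ℝ := fun ω => Pr q A (fun R => W R ∧ ∃ f ∈ ω, Y f R) with hg0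
    set g1 : Finset (Sym2 V) → ℝ := fun ω =>
      Pr q A (fun R => (W R ∧ ¬ Y e R) ∧ ∃ f ∈ ω, Y f R) with hg1
    have hsplit : ∀ ω, Pr q A (fun R => W R ∧ ∃ f ∈ insert e ω, Y f R) = a + g1 ω := by
      intro ω
      rw [ha, hg1]
      unfold Pr
      simp only
      rw [← sum_add_distrib]
      refine sum_congr rfl fun R _ => ?_
      rw [← mul_add]
      congr 1
      by_cases hW : W R
      · by_cases hYe : Y e R
        · rw [if_pos ⟨hW, e, mem_insert_self _ _, hYe⟩, if_pos ⟨hW, hYe⟩,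
            if_neg (fun h => h.1.2 hYe), add_zero]
        · by_cases hex : ∃ f ∈ ω, Y f R
          · rw [if_pos ⟨hW, by obtain ⟨f, h1, h2⟩ := hex; exact ⟨f, mem_insert_of_mem h1, h2⟩⟩,
              if_neg (fun h => hYe h.2), if_pos ⟨⟨hW, hYe⟩, hex⟩, zero_add]
          · rw [if_neg, if_neg (fun h => hYe h.2), if_neg (fun h => hex h.2), add_zero]
            rintro ⟨_, f, h1, h2⟩
            rcases mem_insert.1 h1 with rfl | h1
            · exact hYe h2
            · exact hex ⟨f, h1, h2⟩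
      · rw [if_neg (fun h => hW h.1), if_neg (fun h => hW h.1), if_neg (fun h => hW h.1.1),
          add_zero]
    have ha0 : 0 ≤ a := Pr_nonneg hq0.le hq1 _ _
    have haθ : a ≤ θ := (Pr_mono hq0.le hq1 fun R _ h => h.2).trans (hY e (mem_insert_self _ _))
    set G0 := Ex q E g0 with hG0
    set G1 := Ex q E g1 with hG1
    have hle1 : G1 ≤ G0 := Ex_mono hq0.le hq1 fun ω _ =>
      Pr_mono hq0.le hq1 fun R _ h => ⟨h.1.1, h.2⟩
    have hle2 : G0 ≤ G1 + a := by
      have h1 : G0 ≤ Ex q E (fun ω => g1 ω + a) := by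
        refine Ex_mono hq0.le hq1 fun ω _ => ?_
        refine le_trans (Pr_mono hq0.le hq1 fun R _ h => ?_) (Pr_or_le hq0.le hq1 A
          (fun R => (W R ∧ ¬ Y e R) ∧ ∃ f ∈ ω, Y f R) (fun R => W R ∧ Y e R))
        by_cases hYe : Y e R
        · exact Or.inr ⟨h.1, hYe⟩
        · exact Or.inl ⟨⟨h.1, hYe⟩, h.2⟩
      rwa [Ex_add, Ex_const] at h1
    have hL : Ex q (insert e E) (fun ω => Real.exp (-(s * Pr q A (fun R => W R ∧ ∃ f ∈ ω, Y f R)))) =
        q * (Real.exp (-(s * a)) * Ex q E (fun ω => Real.exp (-(s * g1 ω)))) +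
          (1 - q) * Ex q E (fun ω => Real.exp (-(s * g0 ω))) := by
      rw [Ex_insert he, ← Ex_smul q (Real.exp (-(s * a))) E]
      congr 2
      refine Ex_congr fun ω _ => ?_
      rw [hsplit, ← Real.exp_add]
      congr 1
      ring
    have hR : Ex q (insert e E) (fun ω => Pr q A (fun R => W R ∧ ∃ f ∈ ω, Y f R)) =
        q * (a + G1) + (1 - q) * G0 := by
      rw [Ex_insert he]
      congr 2
      have : Ex q E (fun ω => Pr q A (fun R => W R ∧ ∃ f ∈ insert e ω, Y f R)) =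
          Ex q E (fun ω => a + g1 ω) := Ex_congr fun ω _ => hsplit ω
      rw [this, Ex_add, Ex_const]
    rw [hL, hR]
    have i1 := ih hYE (fun R => W R ∧ ¬ Y e R)
    have i0 := ih hYE W
    have hD := two_point hq0 hq1 hθ hs (D := G0 - G1) (a := a) (by linarith) (by linarith) haθ
    calc q * (Real.exp (-(s * a)) * Ex q E (fun ω => Real.exp (-(s * g1 ω)))) +
          (1 - q) * Ex q E (fun ω => Real.exp (-(s * g0 ω))) ≤
        q * (Real.exp (-(s * a)) * Real.exp (-(ρ * G1))) + (1 - q) * Real.exp (-(ρ * G0)) := by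
          refine add_le_add (mul_le_mul_of_nonneg_left (mul_le_mul_of_nonneg_left i1
            (Real.exp_pos _).le) hq0.le) (mul_le_mul_of_nonneg_left i0 (sub_nonneg.2 hq1))
      _ = ((1 - q) + q * Real.exp (-(s * a) + ρ * (G0 - G1))) * Real.exp (-(ρ * G0)) := by
          have : Real.exp (-(s * a)) * Real.exp (-(ρ * G1)) =
              Real.exp (-(s * a) + ρ * (G0 - G1)) * Real.exp (-(ρ * G0)) := by
            rw [← Real.exp_add, ← Real.exp_add]; congr 1; ring
          rw [this]; ring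
      _ ≤ Real.exp (-(ρ * (q * (a - (G0 - G1))))) * Real.exp (-(ρ * G0)) :=
          mul_le_mul_of_nonneg_right hD (Real.exp_pos _).le
      _ = Real.exp (-(ρ * (q * (a + G1) + (1 - q) * G0))) := by
          rw [← Real.exp_add]; congr 1; ring

end Pool.Agent.Arm55
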