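import Pool.Agent.Arm55.Dct

/-!
The intrinsic radius.
-/

set_option autoImplicit false

open Finset MeasureTheory
open scoped NNReal ENNReal

namespace Pool.Agent.Arm55

open Pool.Agent.FPP38

variable {d : ℕ}

/-- `v` is the end of a path of length `k` from the origin, with edges in `P` -/
inductive RL (P : Sym2 (Fin d → ℤ) → Prop) : ℕ → (Fin d → ℤ) → Prop
  | zero : RL P 0 0
  | succ {k : ℕ} {u v : Fin d → ℤ} : RL P k u → Nb u v → P s(u, v) → RL P (k + 1) v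

theorem RL.mono {P P' : Sym2 (Fin d → ℤ) → Prop} (h : ∀ e, P e → P' e) {k : ℕ} {v : Fin d → ℤ}
    (hr : RL P k v) : RL P' k v := by
  induction hr with
  | zero => exact RL.zero
  | succ _ hn hP ih => exact RL.succ ih hn (h _ hP)

theorem RL.mem_box {P : Sym2 (Fin d → ℤ) → Prop} {k : ℕ} {v : Fin d → ℤ} (hr : RL P k v) :
    v ∈ box (0 : Fin d → ℤ) k := by
  induction hr with
  | zero => exact self_mem_box _ _
  | @succ k u v _ hn _ ih =>
    rw [Pool.Agent.FPP38.mem_box] at ih ⊢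
    intro i
    have h1 := ih i
    have h2 := hn.symm.abs_le i
    have h3 : |v i - (0 : Fin d → ℤ) i| ≤ |v i - u i| + |u i - (0 : Fin d → ℤ) i| :=
      abs_sub_le _ _ _
    push_cast
    linarith

theorem box_mono {m n : ℕ} (h : m ≤ n) : box (0 : Fin d → ℤ) m ⊆ box 0 n := by
  intro x hx
  rw [Pool.Agent.FPP38.mem_box] at *
  intro i
  have := hx i
  omega

theorem RL.loc {P : Sym2 (Fin d → ℤ) → Prop} {n k : ℕ} (hk : k ≤ n) {v : Fin d → ℤ}
    (hr : RL P k v) : RL (fun e => P e ∧ e ∈ EB (0 : Fin d → ℤ) n) k v := by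
  induction hr with
  | zero => exact RL.zero
  | @succ k u v hu hn hP ih =>
    refine RL.succ (ih (by omega)) hn ⟨hP, mem_EB.2 ⟨box_mono (by omega) hu.mem_box, ?_, hn⟩⟩
    exact box_mono hk (RL.succ hu hn hP).mem_box

theorem RL.fin {P : Sym2 (Fin d → ℤ) → Prop} {k : ℕ} {v : Fin d → ℤ} (hr : RL P k v) :
    ∃ F : Finset (Sym2 (Fin d → ℤ)), F.card ≤ k ∧ (∀ e ∈ F, P e) ∧ RL (fun e => e ∈ F) k v := by
  induction hr with
  | zero => exact ⟨∅, by simp, by simp, RL.zero⟩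
  | @succ k u v _ hn hP ih =>
    obtain ⟨F, h1, h2, h3⟩ := ih
    refine ⟨insert s(u, v) F, (card_insert_le _ _).trans (by omega), ?_,
      RL.succ (h3.mono fun e he => mem_insert_of_mem he) hn (mem_insert_self _ _)⟩
    intro e he
    rcases mem_insert.1 he with rfl | he
    · exact hP
    · exact h2 e he

/-- some vertex is at distance exactly `n` -/
def Geo (P : Sym2 (Fin d → ℤ) → Prop) (n : ℕ) : Prop :=
  ∃ x, RL P n x ∧ ∀ k < n, ¬ RL P k x

theorem geo_trunc {P : Sym2 (Fin d → ℤ) → Prop} {m n : ℕ} {x : Fin d → ℤ} (h : RL P m x)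
    (hm : ∀ k < m, ¬ RL P k x) (hn : n ≤ m) : Geo P n := by
  induction h with
  | zero =>
    obtain rfl : n = 0 := by omega
    exact ⟨0, RL.zero, fun k hk => by omega⟩
  | @succ k u v hu hnb hP ih =>
    rcases Nat.lt_or_ge n (k + 1) with h | h
    · refine ih (fun j hj hr => ?_) (by omega)
      exact hm (j + 1) (by omega) (RL.succ hr hnb hP)
    · obtain rfl : n = k + 1 := by omega
      exact ⟨v, RL.succ hu hnb hP, hm⟩

theorem geo_loc {P : Sym2 (Fin d → ℤ) → Prop} {n : ℕ} :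
    Geo P n ↔ Geo (fun e => P e ∧ e ∈ EB (0 : Fin d → ℤ) n) n := by
  constructor
  · rintro ⟨x, h1, h2⟩
    exact ⟨x, h1.loc le_rfl, fun k hk hr => h2 k hk (hr.mono fun e he => he.1)⟩
  · rintro ⟨x, h1, h2⟩
    exact ⟨x, h1.mono fun e he => he.1, fun k hk hr => h2 k hk (hr.loc hk.le)⟩

/-- the radius is at least `n`, in the finite configuration `O` -/
def XI (d n : ℕ) (O : Finset (Sym2 (Fin d → ℤ))) : Prop := Geo (fun e => e ∈ O) n

theorem cert_XI (d n : ℕ) : Cert n (XI d n) := by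
  rintro O ⟨x, h1, h2⟩
  obtain ⟨F, h3, h4, h5⟩ := h1.fin
  exact ⟨F, fun e he => h4 e he, h3, fun O' hF hO => ⟨x, h5.mono fun e he => hF he,
    fun k hk hr => h2 k hk (hr.mono fun e he => hO he)⟩⟩

theorem rch_RL {O : Finset (Sym2 (Fin d → ℤ))} (hO : Lat O) {v : Fin d → ℤ}
    (h : Rch O {0} v) : ∃ m, RL (fun e => e ∈ O) m v := by
  induction h with
  | base h => rw [mem_singleton] at h; subst h; exact ⟨0, RL.zero⟩
  | @step u v _ hs ih =>
    obtain ⟨m, hm⟩ := ih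
    exact ⟨m + 1, RL.succ hm (hO _ _ hs) hs⟩

theorem geo_of_far {P : Sym2 (Fin d → ℤ) → Prop} {n m : ℕ} {v : Fin d → ℤ} (h : RL P m v)
    (hv : v ∈ sph (0 : Fin d → ℤ) n) : Geo P n := by
  classical
  have hex : ∃ m, RL P m v := ⟨m, h⟩
  refine geo_trunc (Nat.find_spec hex) (fun k hk => Nat.find_min hex hk) ?_
  have h1 := Pool.Agent.FPP38.mem_box.1 (Nat.find_spec hex).mem_box
  obtain ⟨_, i, hi⟩ := mem_sph.1 hv
  have := h1 i
  rw [hi] at this
  exact_mod_cast this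

theorem xarm_XI {n : ℕ} {O : Finset (Sym2 (Fin d → ℤ))} (hO : O ⊆ EB 0 n) (h : Xarm d n O) :
    XI d n O := by
  obtain ⟨v, hv, hr⟩ := h
  obtain ⟨m, hm⟩ := rch_RL (fun x y h => lat_EB _ _ x y (hO h)) hr
  exact geo_of_far hm (mem_coe.1 hv)

/-! ### The infinite lattice -/

/-- the graph of the open edges -/
def openGraph (ω : Sym2 (Fin d → ℤ) → Bool) : SimpleGraph (Fin d → ℤ) where
  Adj x y := ∑ i, |x i - y i| = 1 ∧ ω s(x, y) = true
  symm := ⟨fun x y h => ⟨Nb.symm h.1, by rw [Sym2.eq_swap]; exact h.2⟩⟩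
  loopless := ⟨fun x h => by simp at h⟩

theorem walk_RL {ω : Sym2 (Fin d → ℤ) → Bool} {k : ℕ} {x : Fin d → ℤ} :
    RL (fun e => ω e = true) k x ↔ ∃ w : (openGraph ω).Walk 0 x, w.length = k := by
  constructor
  · intro h
    induction h with
    | zero => exact ⟨SimpleGraph.Walk.nil, rfl⟩
    | @succ k u v _ hn hP ih =>
      obtain ⟨w, hw⟩ := ih
      refine ⟨w.concat (show (openGraph ω).Adj u v from ⟨hn, hP⟩), ?_⟩
      rw [SimpleGraph.Walk.length_concat, hw]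
  · rintro ⟨w, rfl⟩
    have key : ∀ {a b : Fin d → ℤ} (w : (openGraph ω).Walk a b) (j : ℕ),
        RL (fun e => ω e = true) j a → RL (fun e => ω e = true) (j + w.length) b := by
      intro a b w
      induction w with
      | nil => intro j hj; exact hj
      | cons h w ih =>
        intro j hj
        rw [SimpleGraph.Walk.length_cons, ← Nat.add_assoc, Nat.add_right_comm]
        exact ih (j + 1) (RL.succ hj h.1 h.2)
    have := key w 0 RL.zero
    rwa [Nat.zero_add] at this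

/-- the intrinsic radius of the cluster of the origin is at least `n` -/
def radiusGE (d n : ℕ) : Set (Sym2 (Fin d → ℤ) → Bool) :=
  {ω | ∃ x, (openGraph ω).Reachable 0 x ∧ n ≤ (openGraph ω).dist 0 x}

theorem radius_iff {n : ℕ} {ω : Sym2 (Fin d → ℤ) → Bool} :
    ω ∈ radiusGE d n ↔ Geo (fun e => ω e = true) n := by
  constructor
  · rintro ⟨x, h1, h2⟩
    obtain ⟨w, hw⟩ := h1.exists_walk_length_eq_dist
    refine geo_trunc (walk_RL.2 ⟨w, hw⟩) (fun k hk hr => ?_) h2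
    obtain ⟨w', hw'⟩ := walk_RL.1 hr
    have := SimpleGraph.dist_le w'
    omega
  · rintro ⟨x, h1, h2⟩
    obtain ⟨w, hw⟩ := walk_RL.1 h1
    refine ⟨x, ⟨w⟩, ?_⟩
    by_contra hlt
    push Not at hlt
    have hre : (openGraph ω).Reachable 0 x := ⟨w⟩
    obtain ⟨w', hw'⟩ := hre.exists_walk_length_eq_dist
    exact h2 _ hlt (walk_RL.2 ⟨w', hw'⟩)

theorem radius_fin {n : ℕ} {ω : Sym2 (Fin d → ℤ) → Bool} :
    ω ∈ radiusGE d n ↔ XI d n (opn (EB 0 n) ω) := by
  rw [radius_iff, geo_loc]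
  have : (fun e => ω e = true ∧ e ∈ EB (0 : Fin d → ℤ) n) =
      fun e => e ∈ opn (EB (0 : Fin d → ℤ) n) ω := by
    funext e
    rw [mem_opn]
    exact propext and_comm
  rw [this]
  rfl

theorem measure_radius {p : ℝ≥0} (hp : p ≤ 1) (n : ℕ) :
    PB (Fin d → ℤ) p hp (radiusGE d n) = ENNReal.ofReal (Pr p (EB 0 n) (XI d n)) := by
  rw [← measure_event hp (EB 0 n) (XI d n)]
  congr 1
  ext ω
  exact radius_fin

/-- the cluster of the origin is infinite -/
def infiniteCluster (d : ℕ) : Set (Sym2 (Fin d → ℤ) → Bool) :=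
  {ω | {x | (openGraph ω).Reachable 0 x}.Infinite}

theorem RL.exit {ω : Sym2 (Fin d → ℤ) → Bool} {N m : ℕ} {x : Fin d → ℤ}
    (h : RL (fun e => ω e = true) m x) :
    (x ∈ box (0 : Fin d → ℤ) N ∧ Rch (opn (EB 0 N) ω) {0} x) ∨ Xarm d N (opn (EB 0 N) ω) := by
  induction h with
  | zero => exact Or.inl ⟨self_mem_box _ _, Rch.base (mem_singleton_self _)⟩
  | @succ k u v _ hn hP ih =>
    rcases ih with ⟨h1, h2⟩ | h
    · by_cases hs : u ∈ sph (0 : Fin d → ℤ) N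
      · exact Or.inr ⟨u, mem_coe.2 hs, h2⟩
      · have hv := mem_box_of_nb h1 hs hn
        exact Or.inl ⟨hv, Rch.step h2 (mem_opn.2 ⟨mem_EB.2 ⟨h1, hv, hn⟩, hP⟩)⟩
    · exact Or.inr h

theorem inf_sub (N : ℕ) :
    infiniteCluster d ⊆ {ω | Xarm d N (opn (EB 0 N) ω)} := by
  intro ω hω
  have : ∃ x, (openGraph ω).Reachable 0 x ∧ x ∉ box (0 : Fin d → ℤ) N := by
    by_contra h
    push Not at h
    exact hω ((box (0 : Fin d → ℤ) N).finite_toSet.subset fun x hx => h x hx)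
  obtain ⟨x, ⟨w⟩, hx⟩ := this
  rcases (walk_RL.2 ⟨w, rfl⟩ : RL (fun e => ω e = true) w.length x).exit (N := N) with h | h
  · exact absurd h.1 hx
  · exact h

theorem inf_le_arm {p : ℝ≥0} (hp : p ≤ 1) (N : ℕ) :
    PB (Fin d → ℤ) p hp (infiniteCluster d) ≤ ENNReal.ofReal (arm p d N) :=
  (measure_mono (inf_sub N)).trans (measure_event hp (EB 0 N) (Xarm d N)).le

theorem inf_zero {p : ℝ≥0} (hp : p ≤ 1) {n : ℕ} {S : Finset (Fin d → ℤ)} (hS : S ⊆ box 0 n)
    (hS0 : 0 ∈ S) (hm : phi p S < 1) : PB (Fin d → ℤ) p hp (infiniteCluster d) = 0 := by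
  have h1 : (p : ℝ) ≤ 1 := by exact_mod_cast hp
  have hlim : Filter.Tendsto (fun k : ℕ => ENNReal.ofReal (phi p S ^ k)) Filter.atTop
      (nhds 0) := by
    have := tendsto_pow_atTop_nhds_zero_of_lt_one (phi_nonneg p.coe_nonneg h1 S) hm
    have h2 := ENNReal.tendsto_ofReal this
    rwa [ENNReal.ofReal_zero] at h2
  refine le_antisymm (ge_of_tendsto' hlim fun k => ?_) zero_le
  refine (inf_le_arm hp ((n + 1) * k)).trans (ENNReal.ofReal_le_ofReal ?_)
  exact arm_pow_phi p.coe_nonneg h1 hS hS0 k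

/-- the critical point -/
noncomputable def pc (d : ℕ) : ℝ≥0 :=
  sSup {p : ℝ≥0 | ∃ hp : p ≤ 1, PB (Fin d → ℤ) p hp (infiniteCluster d) = 0}

theorem pc_bdd (d : ℕ) :
    BddAbove {p : ℝ≥0 | ∃ hp : p ≤ 1, PB (Fin d → ℤ) p hp (infiniteCluster d) = 0} :=
  ⟨1, fun _ hp => hp.1⟩

theorem pc_le_one (d : ℕ) : pc d ≤ 1 := csSup_le' fun _ hp => hp.1

theorem one_le_phi {q : ℝ≥0} (hq : pc d < q) (hq1 : q ≤ 1) {n : ℕ} {S : Finset (Fin d → ℤ)}
    (hS : S ⊆ box 0 n) (hS0 : 0 ∈ S) : 1 ≤ phi q S := by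
  by_contra h
  push Not at h
  exact absurd (le_csSup (pc_bdd d) ⟨hq1, inf_zero hq1 hS hS0 h⟩) (not_le.2 hq)

theorem pc_pos (d : ℕ) : 0 < pc d := by
  have hc : Continuous (fun p : ℝ≥0 => phi (p : ℝ) ({0} : Finset (Fin d → ℤ))) :=
    (continuous_phi _).comp NNReal.continuous_coe
  have h0 : phi ((0 : ℝ≥0) : ℝ) ({0} : Finset (Fin d → ℤ)) < 1 := by
    unfold phi
    simp
  have hev : ∀ᶠ p : ℝ≥0 in nhds 0, phi (p : ℝ) ({0} : Finset (Fin d → ℤ)) < 1 :=
    hc.continuousAt.eventually_lt continuousAt_const h0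
  obtain ⟨ε, hε, h⟩ := Metric.eventually_nhds_iff.1 hev
  set p : ℝ≥0 := min 1 (Real.toNNReal (ε / 2)) with hp
  have hp0 : 0 < p := lt_min one_pos (by rw [Real.toNNReal_pos]; linarith)
  have hp1 : p ≤ 1 := min_le_left _ _
  have hd : dist p 0 < ε := by
    rw [NNReal.dist_eq]
    have g1 : (p : ℝ) ≤ ε / 2 := by
      have : p ≤ Real.toNNReal (ε / 2) := min_le_right _ _
      have g2 : (p : ℝ) ≤ (Real.toNNReal (ε / 2) : ℝ) := by exact_mod_cast this
      rwa [Real.coe_toNNReal _ (by linarith)] at g2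
    rw [NNReal.coe_zero, sub_zero, abs_of_nonneg p.coe_nonneg]
    linarith
  have hz := inf_zero hp1 (n := 0) (S := ({0} : Finset (Fin d → ℤ)))
    (singleton_subset_iff.2 (self_mem_box _ _)) (mem_singleton_self _) (h hd)
  exact hp0.trans_le (le_csSup (pc_bdd d) ⟨hp1, hz⟩)

/-- the intrinsic one-arm probability -/
noncomputable def armIn (p : ℝ≥0) (hp : p ≤ 1) (d n : ℕ) : ℝ :=
  (PB (Fin d → ℤ) p hp (radiusGE d n)).toReal

theorem armIn_eq {p : ℝ≥0} (hp : p ≤ 1) (d n : ℕ) :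
    armIn p hp d n = Pr p (EB 0 n) (XI d n) := by
  have h1 : (p : ℝ) ≤ 1 := by exact_mod_cast hp
  rw [armIn, measure_radius, ENNReal.toReal_ofReal (Pr_nonneg p.coe_nonneg h1 _ _)]

/-- `q ^ (-n) P_q(radius ≥ n)` is nonincreasing -/
theorem armIn_mono {p q : ℝ≥0} (hq0 : 0 < q) (hpq : p ≤ q) (hp : p ≤ 1) (hq : q ≤ 1) (d n : ℕ) :
    ((p : ℝ) / q) ^ n * armIn q hq d n ≤ armIn p hp d n := by
  rw [armIn_eq, armIn_eq]
  exact cert_le (cert_XI d n) p.coe_nonneg (by exact_mod_cast hq0) (by exact_mod_cast hpq)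
    (by exact_mod_cast hq) _

theorem arm_le_armIn {q : ℝ≥0} (hq : q ≤ 1) (d n : ℕ) : arm q d n ≤ armIn q hq d n := by
  have h1 : (q : ℝ) ≤ 1 := by exact_mod_cast hq
  rw [armIn_eq, arm_eq]
  exact Pr_mono q.coe_nonneg h1 fun O hO h => xarm_XI hO h

/-- beyond the critical point -/
theorem arm_super {q : ℝ≥0} (hq : pc d < q) (hq1 : q < 1) (n : ℕ) :
    ((q : ℝ) - pc d) / (q * (1 - pc d)) ≤ arm q d n := by
  have hcr : ((pc d : ℝ≥0) : ℝ) < q := by exact_mod_cast hq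
  have hq1r : (q : ℝ) < 1 := by exact_mod_cast hq1
  have hpc0 : (0 : ℝ) < pc d := by exact_mod_cast pc_pos d
  have hlow : ∀ p : ℝ, p ∈ Set.Ioo ((pc d : ℝ≥0) : ℝ) q → ((q : ℝ) - p) / (q * (1 - p)) ≤ arm q d n := by
    intro p hp
    have hp0 : 0 < p := hpc0.trans hp.1
    refine arm_lower hp0 hp.2.le hq1r n fun s hs1 hs2 S hS hS0 => ?_
    have hs0 : 0 ≤ s := hp0.le.trans hs1
    have := one_le_phi (d := d) (q := ⟨s, hs0⟩) (n := n) (S := S) ?_ ?_ hS hS0
    · exact this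
    · rw [← NNReal.coe_lt_coe]
      exact hp.1.trans_le hs1
    · rw [← NNReal.coe_le_coe]
      exact hs2.trans hq1r.le
  have hcont : ContinuousAt (fun p : ℝ => ((q : ℝ) - p) / (q * (1 - p))) (pc d) := by
    refine ContinuousAt.div (by fun_prop) (by fun_prop) ?_
    have : (0 : ℝ) < q := hpc0.trans hcr
    have h2 : (0 : ℝ) < 1 - pc d := by linarith
    positivity
  have hne : (nhdsWithin ((pc d : ℝ≥0) : ℝ) (Set.Ioi (pc d))).NeBot := inferInstance
  refine le_of_tendsto (hcont.tendsto.mono_left (nhdsWithin_le_nhds (s := Set.Ioi ((pc d : ℝ≥0) : ℝ)))) ?_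
  filter_upwards [Ioo_mem_nhdsGT hcr] with p hp
  exact hlow p hp

end Pool.Agent.Arm55
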