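import Pool.Agent.Arm55.Lap
import Pool.Agent.Arm55.Rad

/-!
Exploration of the cluster by levels of the intrinsic distance.
-/

set_option autoImplicit false

open Finset

namespace Pool.Agent.Arm55

open Pool.Agent.FPP38

section General

variable {V : Type*} [DecidableEq V]

open Classical in
/-- the edges of `A` that touch `S` -/
noncomputable def inc (A : Finset (Sym2 V)) (S : Finset V) : Finset (Sym2 V) :=
  A.filter fun e => ∃ x ∈ S, x ∈ e

open Classical in
/-- the edges of `A` that do not touch `S` -/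
noncomputable def rst (A : Finset (Sym2 V)) (S : Finset V) : Finset (Sym2 V) :=
  A.filter fun e => ¬ ∃ x ∈ S, x ∈ e

theorem mem_inc {A : Finset (Sym2 V)} {S : Finset V} {e : Sym2 V} :
    e ∈ inc A S ↔ e ∈ A ∧ ∃ x ∈ S, x ∈ e := by
  classical
  rw [inc, mem_filter]

theorem mem_rst {A : Finset (Sym2 V)} {S : Finset V} {e : Sym2 V} :
    e ∈ rst A S ↔ e ∈ A ∧ ¬ ∃ x ∈ S, x ∈ e := by
  classical
  rw [rst, mem_filter]

theorem inc_union_rst (A : Finset (Sym2 V)) (S : Finset V) : inc A S ∪ rst A S = A := by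
  ext e
  rw [mem_union, mem_inc, mem_rst]
  by_cases h : ∃ x ∈ S, x ∈ e
  · exact ⟨fun h' => h'.elim (fun h' => h'.1) (fun h' => h'.1), fun h' => Or.inl ⟨h', h⟩⟩
  · exact ⟨fun h' => h'.elim (fun h' => h'.1) (fun h' => h'.1), fun h' => Or.inr ⟨h', h⟩⟩

theorem disjoint_inc_rst (A : Finset (Sym2 V)) (S : Finset V) : Disjoint (inc A S) (rst A S) := by
  rw [disjoint_left]
  intro e h1 h2
  rw [mem_inc] at h1
  rw [mem_rst] at h2
  exact h2.2 h1.2

open Classical in
/-- the new vertices reached from `S` through the edges of `ω` -/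
noncomputable def nxt (S : Finset V) (ω : Finset (Sym2 V)) : Finset V :=
  (ω.biUnion fun e => e.toFinset).filter fun y => y ∉ S ∧ ∃ x ∈ S, s(x, y) ∈ ω

theorem mem_nxt {S : Finset V} {ω : Finset (Sym2 V)} {y : V} :
    y ∈ nxt S ω ↔ y ∉ S ∧ ∃ x ∈ S, s(x, y) ∈ ω := by
  classical
  rw [nxt, mem_filter]
  constructor
  · exact fun h => h.2
  · rintro ⟨h1, x, hx, h2⟩
    refine ⟨mem_biUnion.2 ⟨_, h2, ?_⟩, h1, x, hx, h2⟩
    rw [Sym2.mem_toFinset]
    exact Sym2.mem_mk_right x y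

/-- the `j`-th level from `S` is not empty -/
noncomputable def RS : ℕ → Finset V → Finset (Sym2 V) → Prop
  | 0, S, _ => S.Nonempty
  | j + 1, S, O => RS j (nxt S O) (rst O S)

theorem Pr_union {p : ℝ} {E A : Finset (Sym2 V)} (h : Disjoint E A)
    (X : Finset (Sym2 V) → Prop) :
    Pr p (E ∪ A) X = Ex p E (fun ω => Pr p A (fun R => X (ω ∪ R))) := by
  induction E using Finset.induction_on generalizing X with
  | empty =>
    have e1 : ∀ f : Finset (Sym2 V) → ℝ, Ex p ∅ f = f ∅ := by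
      intro f
      unfold Ex
      rw [powerset_empty, sum_singleton]
      simp [wt]
    rw [e1, empty_union]
    exact Pr_congr fun R _ => by rw [empty_union]
  | insert e E he ih =>
    rw [disjoint_insert_left] at h
    rw [insert_union, Pr_insert (by rw [mem_union]; tauto), ih h.2, ih h.2, Ex_insert he]
    simp only [insert_union]

theorem Pr_level {p : ℝ} (A : Finset (Sym2 V)) (S : Finset V) (X : Finset (Sym2 V) → Prop) :
    Pr p A X = Ex p (inc A S) (fun ω => Pr p (rst A S) (fun R => X (ω ∪ R))) := by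
  conv_lhs => rw [← inc_union_rst A S]
  exact Pr_union (disjoint_inc_rst A S) X

theorem nxt_union {A : Finset (Sym2 V)} {S : Finset V} {ω R : Finset (Sym2 V)}
    (hR : R ⊆ rst A S) : nxt S (ω ∪ R) = nxt S ω := by
  ext y
  rw [mem_nxt, mem_nxt]
  refine and_congr_right fun _ => ?_
  constructor
  · rintro ⟨x, hx, h⟩
    rcases mem_union.1 h with h | h
    · exact ⟨x, hx, h⟩
    · exact absurd ⟨x, hx, Sym2.mem_mk_left x y⟩ (mem_rst.1 (hR h)).2
  · rintro ⟨x, hx, h⟩
    exact ⟨x, hx, mem_union_left _ h⟩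

theorem rst_union {A : Finset (Sym2 V)} {S : Finset V} {ω R : Finset (Sym2 V)}
    (hω : ω ⊆ inc A S) (hR : R ⊆ rst A S) : rst (ω ∪ R) S = R := by
  ext e
  rw [mem_rst, mem_union]
  constructor
  · rintro ⟨h1 | h1, h2⟩
    · exact absurd (mem_inc.1 (hω h1)).2 h2
    · exact h1
  · intro h
    exact ⟨Or.inr h, (mem_rst.1 (hR h)).2⟩

theorem RS_level {p : ℝ} (j : ℕ) (A : Finset (Sym2 V)) (S : Finset V) :
    Pr p A (RS (j + 1) S) = Ex p (inc A S) (fun ω => Pr p (rst A S) (RS j (nxt S ω))) := by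
  rw [Pr_level A S]
  refine Ex_congr fun ω hω => Pr_congr fun R hR => ?_
  show RS j (nxt S (ω ∪ R)) (rst (ω ∪ R) S) ↔ RS j (nxt S ω) R
  rw [nxt_union hR, rst_union hω hR]

/-- passing to the next level -/
theorem rch_level {A : Finset (Sym2 V)} {S : Finset V} {ω R : Finset (Sym2 V)}
    (hR : R ⊆ rst A S) {v : V} (h : Rch (ω ∪ R) S v) :
    v ∈ S ∨ Rch R (nxt S ω) v ∨ ∃ e ∈ ω, ¬ ∃ x ∈ S, x ∈ e := by
  induction h with
  | base h => exact Or.inl h
  | @step u v _ hs ih =>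
    by_cases hv : v ∈ S
    · exact Or.inl hv
    · right
      rcases ih with hu | ih | ih
      · left
        rcases mem_union.1 hs with h | h
        · exact Rch.base (mem_nxt.2 ⟨hv, u, hu, h⟩)
        · exact absurd ⟨u, hu, Sym2.mem_mk_left u v⟩ (mem_rst.1 (hR h)).2
      · rcases mem_union.1 hs with h | h
        · by_cases hu : u ∈ S
          · exact Or.inl (Rch.base (mem_nxt.2 ⟨hv, u, hu, h⟩))
          · right
            refine ⟨_, h, ?_⟩
            rintro ⟨x, hx, hxe⟩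
            rcases Sym2.mem_iff.1 hxe with rfl | rfl
            · exact hu hx
            · exact hv hx
        · exact Or.inl (Rch.step ih h)
      · exact Or.inr ih

/-- the edge `e` leads from `S` to a vertex joined to `t` in `R` -/
def Ye (t : Set V) (S : Finset V) (e : Sym2 V) (R : Finset (Sym2 V)) : Prop :=
  ∃ x ∈ S, ∃ y, y ∉ S ∧ e = s(x, y) ∧ ∃ v ∈ t, Rch R {y} v

theorem cover {t : Set V} {S : Finset V} {ω R : Finset (Sym2 V)} :
    (∃ v ∈ t, Rch R (nxt S ω) v) ↔ ∃ e ∈ ω, Ye t S e R := by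
  constructor
  · rintro ⟨v, hv, hr⟩
    obtain ⟨y, hy, hr⟩ := rch_source hr
    obtain ⟨h1, x, hx, h2⟩ := mem_nxt.1 hy
    exact ⟨_, h2, x, hx, y, h1, rfl, v, hv, hr⟩
  · rintro ⟨e, he, x, hx, y, hy, rfl, v, hv, hr⟩
    refine ⟨v, hv, hr.mono (Subset.refl _) ?_⟩
    rw [singleton_subset_iff]
    exact mem_nxt.2 ⟨hy, x, hx, he⟩

theorem Q_level {p : ℝ} (h0 : 0 ≤ p) (h1 : p ≤ 1) {t : Set V} (A : Finset (Sym2 V)) {S : Finset V}
    (ht : ∀ v ∈ t, v ∉ S) :
    Q p t A S ≤ Ex p (inc A S) (fun ω => Pr p (rst A S) (fun R => ∃ e ∈ ω, Ye t S e R)) := by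
  rw [Q, Pr_level A S]
  refine Ex_mono h0 h1 fun ω hω => Pr_mono h0 h1 fun R hR => ?_
  rintro ⟨v, hv, hr⟩
  rcases rch_level hR hr with h | h | ⟨e, he, h⟩
  · exact absurd h (ht v hv)
  · exact cover.1 ⟨v, hv, h⟩
  · exact absurd (mem_inc.1 (hω he)).2 h

theorem Q_empty {p : ℝ} {t : Set V} (A : Finset (Sym2 V)) : Q p t A ∅ = 0 := by
  rw [Q, ← Pr_false p A]
  refine Pr_congr fun O _ => ⟨?_, fun h => h.elim⟩
  rintro ⟨v, _, hr⟩
  obtain ⟨y, hy, _⟩ := rch_source hr
  exact absurd hy (notMem_empty _)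

/-- the iterated exponents -/
noncomputable def expo (q θ s : ℝ) : ℕ → ℝ
  | 0 => s
  | j + 1 => rho q θ (expo q θ s j)

theorem expo_nonneg {q θ s : ℝ} (hq0 : 0 < q) (hq1 : q ≤ 1) (hθ : 0 < θ) (hs : 0 ≤ s) (j : ℕ) :
    0 ≤ expo q θ s j := by
  induction j with
  | zero => exact hs
  | succ j ih => exact rho_nonneg hq0 hq1 hθ ih

/-! ### Paths -/

/-- `v` is the end of a path of length `k` from `S` -/
inductive PL (O : Finset (Sym2 V)) (S : Finset V) : ℕ → V → Prop
  | zero {v : V} : v ∈ S → PL O S 0 v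
  | succ {k : ℕ} {u v : V} : PL O S k u → s(u, v) ∈ O → PL O S (k + 1) v

theorem PL.shift {O : Finset (Sym2 V)} {S : Finset V} {k : ℕ} {v : V}
    (h : PL (rst O S) (nxt S O) k v) : PL O S (k + 1) v := by
  induction h with
  | zero h =>
    obtain ⟨_, x, hx, h2⟩ := mem_nxt.1 h
    exact PL.succ (PL.zero hx) h2
  | succ _ hs ih => exact PL.succ ih (mem_rst.1 hs).1

theorem PL.unshift {O : Finset (Sym2 V)} {S : Finset V} {k : ℕ} {v : V} (h : PL O S k v) :
    v ∈ S ∨ ∃ j < k, PL (rst O S) (nxt S O) j v := by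
  induction h with
  | zero h => exact Or.inl h
  | @succ k u v _ hs ih =>
    by_cases hv : v ∈ S
    · exact Or.inl hv
    · right
      by_cases hu : u ∈ S
      · exact ⟨0, Nat.succ_pos _, PL.zero (mem_nxt.2 ⟨hv, u, hu, hs⟩)⟩
      · rcases ih with h | ⟨j, hj, h⟩
        · exact absurd h hu
        · refine ⟨j + 1, by omega, PL.succ h (mem_rst.2 ⟨hs, ?_⟩)⟩
          rintro ⟨x, hx, hxe⟩
          rcases Sym2.mem_iff.1 hxe with rfl | rfl
          · exact hu hx
          · exact hv hx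

theorem PL.notMem {O : Finset (Sym2 V)} {S : Finset V} {k : ℕ} {v : V}
    (h : PL (rst O S) (nxt S O) k v) : v ∉ S := by
  induction h with
  | zero h => exact (mem_nxt.1 h).1
  | @succ k u v _ hs _ => exact fun hv => (mem_rst.1 hs).2 ⟨v, hv, Sym2.mem_mk_right u v⟩

theorem RS_dist (j : ℕ) : ∀ (S : Finset V) (O : Finset (Sym2 V)), RS j S O →
    ∃ x, PL O S j x ∧ ∀ k < j, ¬ PL O S k x := by
  induction j with
  | zero =>
    intro S O h
    obtain ⟨x, hx⟩ := h
    exact ⟨x, PL.zero hx, fun k hk => by omega⟩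
  | succ j ih =>
    intro S O h
    obtain ⟨x, h1, h2⟩ := ih (nxt S O) (rst O S) h
    refine ⟨x, h1.shift, fun k hk hr => ?_⟩
    rcases hr.unshift with h3 | ⟨i, hi, h3⟩
    · exact h1.notMem h3
    · exact h2 i (by omega) h3

end General

variable {d : ℕ}

theorem PL_RL {O : Finset (Sym2 (Fin d → ℤ))} (hO : Lat O) {k : ℕ} {v : Fin d → ℤ} :
    PL O {0} k v ↔ RL (fun e => e ∈ O) k v := by
  constructor
  · intro h
    induction h with
    | zero h => rw [mem_singleton] at h; subst h; exact RL.zero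
    | succ _ hs ih => exact RL.succ ih (hO _ _ hs) hs
  · intro h
    induction h with
    | zero => exact PL.zero (mem_singleton_self _)
    | succ _ _ hs ih => exact PL.succ ih hs

theorem RS_XI {n : ℕ} {O : Finset (Sym2 (Fin d → ℤ))} (hO : Lat O) (h : RS n {0} O) : XI d n O := by
  obtain ⟨x, h1, h2⟩ := RS_dist n _ _ h
  exact ⟨x, (PL_RL hO).1 h1, fun k hk hr => h2 k hk ((PL_RL hO).2 hr)⟩

theorem nxt_box {A : Finset (Sym2 (Fin d → ℤ))} (hA : Lat A) {S : Finset (Fin d → ℤ)} {m : ℕ}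
    (hS : S ⊆ box 0 m) {ω : Finset (Sym2 (Fin d → ℤ))} (hω : ω ⊆ A) :
    nxt S ω ⊆ box 0 (m + 1) := by
  intro y hy
  obtain ⟨_, x, hx, h⟩ := mem_nxt.1 hy
  have h1 := Pool.Agent.FPP38.mem_box.1 (hS hx)
  have h2 := (hA _ _ (hω h)).symm
  rw [Pool.Agent.FPP38.mem_box]
  intro i
  have h3 := h1 i
  have h4 := h2.abs_le i
  have h5 : |y i - (0 : Fin d → ℤ) i| ≤ |y i - x i| + |x i - (0 : Fin d → ℤ) i| :=
    abs_sub_le _ _ _
  push_cast
  linarith

/-- **The comparison.** -/
theorem level_bound {q : ℝ} (hq0 : 0 < q) (hq1 : q ≤ 1) {n N : ℕ} (hN : 1 ≤ N)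
    (hθ : 0 < arm q d N) {s : ℝ} (hs : 0 ≤ s) (j : ℕ) :
    ∀ (m : ℕ) (A : Finset (Sym2 (Fin d → ℤ))) (S : Finset (Fin d → ℤ)), Lat A → m + j ≤ n →
      S ⊆ box 0 m →
      1 - Real.exp (-(expo q (arm q d N) s j *
        Q q (sph (0 : Fin d → ℤ) (n + N) : Set (Fin d → ℤ)) A S)) ≤ Pr q A (RS j S) := by
  induction j with
  | zero =>
    intro m A S hA hm hS
    rcases S.eq_empty_or_nonempty with rfl | hne
    · rw [Q_empty, mul_zero, neg_zero, Real.exp_zero, sub_self]
      exact Pr_nonneg hq0.le hq1 _ _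
    · have : Pr q A (RS 0 S) = 1 := by
        rw [← Pr_true q A]
        exact Pr_congr fun O _ => ⟨fun _ => trivial, fun _ => hne⟩
      rw [this]
      linarith [Real.exp_pos (-(expo q (arm q d N) s 0 *
        Q q (sph (0 : Fin d → ℤ) (n + N) : Set (Fin d → ℤ)) A S))]
  | succ j ih =>
    intro m A S hA hm hS
    set t : Set (Fin d → ℤ) := (sph (0 : Fin d → ℤ) (n + N) : Set (Fin d → ℤ)) with ht
    set θ := arm q d N with hθdef
    have hR : Lat (rst A S) := fun x y h => hA x y (mem_rst.1 h).1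
    have htS : ∀ v ∈ t, v ∉ S := by
      intro v hv hvS
      have h1 := Pool.Agent.FPP38.mem_box.1 (hS hvS)
      rw [ht, mem_coe, mem_sph] at hv
      obtain ⟨_, i, hi⟩ := hv
      have := h1 i
      push_cast at hi
      omega
    have hY : ∀ e ∈ inc A S, Pr q (rst A S) (Ye t S e) ≤ θ := by
      intro e he
      by_cases hex : ∃ x ∈ S, ∃ y, y ∉ S ∧ e = s(x, y)
      · obtain ⟨x, hx, y, hy, rfl⟩ := hex
        have hle : Pr q (rst A S) (Ye t S s(x, y)) ≤ Q q t (rst A S) {y} := by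
          refine Pr_mono hq0.le hq1 fun R _ => ?_
          rintro ⟨x', hx', y', hy', h1, v, hv, hr⟩
          rw [Sym2.eq_iff] at h1
          rcases h1 with ⟨rfl, rfl⟩ | ⟨rfl, rfl⟩
          · exact ⟨v, hv, hr⟩
          · exact absurd hx' hy
        refine hle.trans (far_le hq0.le hq1 hR ?_)
        have h1 : y ∈ box (0 : Fin d → ℤ) (m + 1) := by
          have h2 := Pool.Agent.FPP38.mem_box.1 (hS hx)
          have h3 := (hA _ _ (mem_inc.1 he).1).symm
          rw [Pool.Agent.FPP38.mem_box]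
          intro i
          have h4 := h2 i
          have h5 := h3.abs_le i
          have h6 : |y i - (0 : Fin d → ℤ) i| ≤ |y i - x i| + |x i - (0 : Fin d → ℤ) i| :=
            abs_sub_le _ _ _
          push_cast
          linarith
        exact box_mono (by omega) h1
      · have : Pr q (rst A S) (Ye t S e) = 0 := by
          rw [← Pr_false q (rst A S)]
          refine Pr_congr fun R _ => ⟨?_, fun h => h.elim⟩
          rintro ⟨x, hx, y, hy, h1, _⟩
          exact hex ⟨x, hx, y, hy, h1⟩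
        rw [this]
        exact hθ.le
    set σ := expo q θ s j with hσ
    have hσ0 : 0 ≤ σ := expo_nonneg hq0 hq1 hθ hs j
    have hlap := laplace hq0 hq1 hθ hσ0 (rst A S) (Ye t S) (inc A S) hY (fun _ => True)
    simp only [true_and] at hlap
    rw [RS_level]
    have h1 : Ex q (inc A S) (fun ω => 1 - Real.exp (-(σ * Pr q (rst A S)
        (fun R => ∃ e ∈ ω, Ye t S e R)))) ≤
        Ex q (inc A S) (fun ω => Pr q (rst A S) (RS j (nxt S ω))) := by
      refine Ex_mono hq0.le hq1 fun ω hω => ?_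
      have h2 := ih (m + 1) (rst A S) (nxt S ω) hR (by omega)
        (nxt_box hA hS (hω.trans fun e he => (mem_inc.1 he).1))
      have h3 : Q q t (rst A S) (nxt S ω) = Pr q (rst A S) (fun R => ∃ e ∈ ω, Ye t S e R) :=
        Pr_congr fun R _ => cover
      rwa [h3] at h2
    have h4 : Ex q (inc A S) (fun ω => 1 - Real.exp (-(σ * Pr q (rst A S)
        (fun R => ∃ e ∈ ω, Ye t S e R)))) = 1 - Ex q (inc A S) (fun ω =>
          Real.exp (-(σ * Pr q (rst A S) (fun R => ∃ e ∈ ω, Ye t S e R)))) := by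
      have h5 := Ex_add q (inc A S) (fun _ => (1 : ℝ)) (fun ω => (-1) *
        Real.exp (-(σ * Pr q (rst A S) (fun R => ∃ e ∈ ω, Ye t S e R))))
      rw [Ex_smul, Ex_const] at h5
      rw [show (fun ω => 1 - Real.exp (-(σ * Pr q (rst A S) (fun R => ∃ e ∈ ω, Ye t S e R)))) =
        fun ω => 1 + (-1) * Real.exp (-(σ * Pr q (rst A S) (fun R => ∃ e ∈ ω, Ye t S e R))) from
        funext fun ω => by ring, h5]
      ring
    rw [h4] at h1
    refine le_trans ?_ h1
    have h5 : Real.exp (-(rho q θ σ * Ex q (inc A S) (fun ω => Pr q (rst A S)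
        (fun R => ∃ e ∈ ω, Ye t S e R)))) ≤ Real.exp (-(rho q θ σ * Q q t A S)) := by
      refine Real.exp_le_exp.2 (neg_le_neg ?_)
      exact mul_le_mul_of_nonneg_left (Q_level hq0.le hq1 A htS) (rho_nonneg hq0 hq1 hθ hσ0)
    have h6 : expo q θ s (j + 1) = rho q θ σ := rfl
    rw [h6]
    linarith

end Pool.Agent.Arm55
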