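import Pool.Agent.Arm55.Cmp

/-!
Second moments along the exploration of the cluster inside a finite set.
-/

set_option autoImplicit false

open Finset MeasureTheory Filter Topology
open scoped NNReal ENNReal

namespace Pool.Agent.Arm55

open Pool.Agent.FPP38

section General

variable {V : Type*} [DecidableEq V]

/-- the second moment of a coverage function whose marginals are at most `θ` -/
theorem second {q θ : ℝ} (hq0 : 0 ≤ q) (hq1 : q ≤ 1)
    (A : Finset (Sym2 V)) (Y : Sym2 V → Finset (Sym2 V) → Prop) (E : Finset (Sym2 V))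
    (hY : ∀ e ∈ E, Pr q A (Y e) ≤ θ) : ∀ W : Finset (Sym2 V) → Prop,
    Ex q E (fun ω => (Pr q A (fun R => W R ∧ ∃ e ∈ ω, Y e R)) ^ 2) ≤
      (Ex q E (fun ω => Pr q A (fun R => W R ∧ ∃ e ∈ ω, Y e R))) ^ 2 +
        (1 - q) * θ * Ex q E (fun ω => Pr q A (fun R => W R ∧ ∃ e ∈ ω, Y e R)) := by
  classical
  induction E using Finset.induction_on with
  | empty =>
    intro W
    have e1 : ∀ f : Finset (Sym2 V) → ℝ, Ex q ∅ f = f ∅ := by
      intro f
      unfold Ex
      rw [powerset_empty, sum_singleton]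
      simp [wt]
    rw [e1, e1]
    have e2 : Pr q A (fun R => W R ∧ ∃ e ∈ (∅ : Finset (Sym2 V)), Y e R) = 0 := by
      rw [← Pr_false q A]
      exact Pr_congr fun R _ => by simp
    rw [e2]
    simp
  | insert e E he ih =>
    intro W
    have hYE : ∀ f ∈ E, Pr q A (Y f) ≤ θ := fun f hf => hY f (mem_insert_of_mem hf)
    set a := Pr q A (fun R => W R ∧ Y e R) with ha
    set g0 : Finset (Sym2 V) → ℝ := fun ω => Pr q A (fun R => W R ∧ ∃ f ∈ ω, Y f R) with hg0
    set g1 : Finset (Sym2 V) → ℝ := fun ω =>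
      Pr q A (fun R => (W R ∧ ¬ Y e R) ∧ ∃ f ∈ ω, Y f R) with hg1
    have hsplit : ∀ ω, Pr q A (fun R => W R ∧ ∃ f ∈ insert e ω, Y f R) = a + g1 ω := by
      intro ω
      rw [ha, hg1]
      unfold Pr
      simp only
      rw [← sum_add_distrib]
      refine sum_congr rfl fun R _ => ?_
      rw [← mul_add]
      congr 1
      by_cases hW : W R
      · by_cases hYe : Y e R
        · rw [if_pos ⟨hW, e, mem_insert_self _ _, hYe⟩, if_pos ⟨hW, hYe⟩,
            if_neg (fun h => h.1.2 hYe), add_zero]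
        · by_cases hex : ∃ f ∈ ω, Y f R
          · rw [if_pos ⟨hW, by obtain ⟨f, h1, h2⟩ := hex; exact ⟨f, mem_insert_of_mem h1, h2⟩⟩,
              if_neg (fun h => hYe h.2), if_pos ⟨⟨hW, hYe⟩, hex⟩, zero_add]
          · rw [if_neg, if_neg (fun h => hYe h.2), if_neg (fun h => hex h.2), add_zero]
            rintro ⟨_, f, h1, h2⟩
            rcases mem_insert.1 h1 with rfl | h1
            · exact hYe h2
            · exact hex ⟨f, h1, h2⟩
      · rw [if_neg (fun h => hW h.1), if_neg (fun h => hW h.1), if_neg (fun h => hW h.1.1),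
          add_zero]
    have ha0 : 0 ≤ a := Pr_nonneg hq0 hq1 _ _
    have haθ : a ≤ θ := (Pr_mono hq0 hq1 fun R _ h => h.2).trans (hY e (mem_insert_self _ _))
    set G0 := Ex q E g0 with hG0
    set G1 := Ex q E g1 with hG1
    have hle1 : G1 ≤ G0 := Ex_mono hq0 hq1 fun ω _ =>
      Pr_mono hq0 hq1 fun R _ h => ⟨h.1.1, h.2⟩
    have hle2 : G0 ≤ G1 + a := by
      have h1 : G0 ≤ Ex q E (fun ω => g1 ω + a) := by
        refine Ex_mono hq0 hq1 fun ω _ => ?_
        refine le_trans (Pr_mono hq0 hq1 fun R _ h => ?_) (Pr_or_le hq0 hq1 A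
          (fun R => (W R ∧ ¬ Y e R) ∧ ∃ f ∈ ω, Y f R) (fun R => W R ∧ Y e R))
        by_cases hYe : Y e R
        · exact Or.inr ⟨h.1, hYe⟩
        · exact Or.inl ⟨⟨h.1, hYe⟩, h.2⟩
      rwa [Ex_add, Ex_const] at h1
    have hL : Ex q (insert e E) (fun ω => (Pr q A (fun R => W R ∧ ∃ f ∈ ω, Y f R)) ^ 2) =
        q * (a ^ 2 + 2 * a * G1 + Ex q E (fun ω => g1 ω ^ 2)) +
          (1 - q) * Ex q E (fun ω => g0 ω ^ 2) := by
      rw [Ex_insert he]
      congr 2
      have h1 : Ex q E (fun ω => (Pr q A (fun R => W R ∧ ∃ f ∈ insert e ω, Y f R)) ^ 2) =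
          Ex q E (fun ω => (a ^ 2 + 2 * a * g1 ω) + g1 ω ^ 2) :=
        Ex_congr fun ω _ => by rw [hsplit]; ring
      rw [h1, Ex_add, Ex_add, Ex_const, Ex_smul]
    have hR : Ex q (insert e E) (fun ω => Pr q A (fun R => W R ∧ ∃ f ∈ ω, Y f R)) =
        q * (a + G1) + (1 - q) * G0 := by
      rw [Ex_insert he]
      congr 2
      have : Ex q E (fun ω => Pr q A (fun R => W R ∧ ∃ f ∈ insert e ω, Y f R)) =
          Ex q E (fun ω => a + g1 ω) := Ex_congr fun ω _ => hsplit ω
      rw [this, Ex_add, Ex_const]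
    rw [hL, hR]
    have i1 : Ex q E (fun ω => g1 ω ^ 2) ≤ G1 ^ 2 + (1 - q) * θ * G1 :=
      ih hYE (fun R => W R ∧ ¬ Y e R)
    have i0 : Ex q E (fun ω => g0 ω ^ 2) ≤ G0 ^ 2 + (1 - q) * θ * G0 := ih hYE W
    have hD0 : 0 ≤ a + G1 - G0 := by linarith
    have hDa : a + G1 - G0 ≤ a := by linarith
    have hD2 : (a + G1 - G0) ^ 2 ≤ θ * a := by nlinarith
    have j1 := mul_le_mul_of_nonneg_left i1 hq0
    have j0 := mul_le_mul_of_nonneg_left i0 (sub_nonneg.2 hq1)
    have j2 := mul_le_mul_of_nonneg_left hD2 (mul_nonneg hq0 (sub_nonneg.2 hq1))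
    nlinarith

theorem Ex_union {p : ℝ} {E A : Finset (Sym2 V)} (h : Disjoint E A)
    (f : Finset (Sym2 V) → ℝ) :
    Ex p (E ∪ A) f = Ex p E (fun ω => Ex p A (fun R => f (ω ∪ R))) := by
  induction E using Finset.induction_on generalizing f with
  | empty =>
    have e1 : ∀ f : Finset (Sym2 V) → ℝ, Ex p ∅ f = f ∅ := by
      intro f
      unfold Ex
      rw [powerset_empty, sum_singleton]
      simp [wt]
    rw [e1, empty_union]
    exact Ex_congr fun R _ => by rw [empty_union]
  | insert e E he ih =>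
    rw [disjoint_insert_left] at h
    rw [insert_union, Ex_insert (by rw [mem_union]; tauto), ih h.2, ih h.2, Ex_insert he]
    simp only [insert_union]

theorem Ex_level {p : ℝ} (A : Finset (Sym2 V)) (S : Finset V) (f : Finset (Sym2 V) → ℝ) :
    Ex p A f = Ex p (inc A S) (fun ω => Ex p (rst A S) (fun R => f (ω ∪ R))) := by
  conv_lhs => rw [← inc_union_rst A S]
  exact Ex_union (disjoint_inc_rst A S) f

theorem rch_shift {O R : Finset (Sym2 V)} {S : Finset V} (hR : R ⊆ O) {v : V}
    (h : Rch R (nxt S O) v) : Rch O S v := by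
  refine Rch.trans (S' := nxt S O) ?_ (h.mono hR (Subset.refl _))
  intro u hu
  obtain ⟨_, x, hx, h2⟩ := mem_nxt.1 hu
  exact Rch.step (Rch.base hx) h2

theorem rch_notMem {O : Finset (Sym2 V)} {S : Finset V} {v : V}
    (h : Rch (rst O S) (nxt S O) v) : v ∉ S := by
  induction h with
  | base h => exact (mem_nxt.1 h).1
  | @step u v _ hs _ => exact fun hv => (mem_rst.1 hs).2 ⟨v, hv, Sym2.mem_mk_right u v⟩

theorem Q_level_eq {p : ℝ} {t : Set V} (A : Finset (Sym2 V)) {S : Finset V}
    (ht : ∀ v ∈ t, v ∉ S) :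
    Q p t A S = Ex p (inc A S) (fun ω => Pr p (rst A S) (fun R => ∃ e ∈ ω, Ye t S e R)) := by
  rw [Q, Pr_level A S]
  refine Ex_congr fun ω hω => Pr_congr fun R hR => ?_
  constructor
  · rintro ⟨v, hv, hr⟩
    rcases rch_level hR hr with h | h | ⟨e, he, h⟩
    · exact absurd h (ht v hv)
    · exact cover.1 ⟨v, hv, h⟩
    · exact absurd (mem_inc.1 (hω he)).2 h
  · intro h
    obtain ⟨v, hv, hr⟩ := cover.2 h
    refine ⟨v, hv, ?_⟩
    refine Rch.trans (S' := nxt S ω) ?_ (hr.mono subset_union_right (Subset.refl _))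
    intro u hu
    obtain ⟨_, x, hx, h2⟩ := mem_nxt.1 hu
    exact Rch.step (Rch.base hx) (mem_union_left _ h2)

variable (Λ : Finset V)

/-- the exploration of at most `j` levels from `S` inside `Λ` ends with a nonempty level -/
noncomputable def HT : ℕ → Finset V → Finset (Sym2 V) → Prop
  | 0, S, _ => S.Nonempty
  | j + 1, S, O => ¬ S ⊆ Λ ∨ HT j (nxt S O) (rst O S)

/-- the number of vertices in the explored levels -/
noncomputable def cnt : ℕ → Finset V → Finset (Sym2 V) → ℝ
  | 0, _, _ => 0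
  | j + 1, S, O => if S ⊆ Λ then (S.card : ℝ) + cnt j (nxt S O) (rst O S) else 0

/-- the mean square at the end of the exploration -/
noncomputable def Z2 (q : ℝ) (t : Set V) : ℕ → Finset (Sym2 V) → Finset V → ℝ
  | 0, A, S => (Q q t A S) ^ 2
  | j + 1, A, S => if S ⊆ Λ then Ex q (inc A S) (fun ω => Z2 q t j (rst A S) (nxt S ω))
      else (Q q t A S) ^ 2

/-- the edges inside `Λ` -/
noncomputable def insd (O : Finset (Sym2 V)) : Finset (Sym2 V) :=
  open Classical in O.filter fun e => ∀ x ∈ e, x ∈ Λ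

variable {Λ}

theorem mem_insd {O : Finset (Sym2 V)} {e : Sym2 V} : e ∈ insd Λ O ↔ e ∈ O ∧ ∀ x ∈ e, x ∈ Λ := by
  classical
  rw [insd, mem_filter]

theorem nxt_empty (O : Finset (Sym2 V)) : nxt ∅ O = ∅ := by
  ext y
  rw [mem_nxt]
  simp

theorem HT_empty (j : ℕ) : ∀ O : Finset (Sym2 V), ¬ HT Λ j ∅ O := by
  induction j with
  | zero => intro O h; exact not_nonempty_empty h
  | succ j ih =>
    intro O h
    rcases h with h | h
    · exact h (empty_subset _)
    · rw [nxt_empty] at h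
      exact ih _ h

open Classical in
theorem HT_esc (j : ℕ) : ∀ (S : Finset V) (O : Finset (Sym2 V)), HT Λ j S O →
    (∃ v, v ∉ Λ ∧ Rch O S v) ∨ j ≤ (Λ.filter fun v => Rch O S v).card := by
  induction j with
  | zero => exact fun S O _ => Or.inr (Nat.zero_le _)
  | succ j ih =>
    intro S O h
    by_cases hS : S ⊆ Λ
    · have h' : HT Λ j (nxt S O) (rst O S) := h.resolve_left (not_not.2 hS)
      have hR : rst O S ⊆ O := fun e he => (mem_rst.1 he).1
      rcases ih _ _ h' with ⟨v, hv, hr⟩ | hc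
      · exact Or.inl ⟨v, hv, rch_shift hR hr⟩
      · right
        have hne : S.Nonempty := by
          rw [nonempty_iff_ne_empty]
          rintro rfl
          rw [nxt_empty] at h'
          exact HT_empty j _ h'
        obtain ⟨x, hx⟩ := hne
        have hx' : x ∉ Λ.filter fun v => Rch (rst O S) (nxt S O) v := by
          intro h1
          exact rch_notMem (mem_filter.1 h1).2 hx
        have hsub : insert x (Λ.filter fun v => Rch (rst O S) (nxt S O) v) ⊆
            Λ.filter fun v => Rch O S v := by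
          intro v hv
          rcases mem_insert.1 hv with rfl | hv
          · exact mem_filter.2 ⟨hS hx, Rch.base hx⟩
          · exact mem_filter.2 ⟨(mem_filter.1 hv).1, rch_shift hR (mem_filter.1 hv).2⟩
        have := card_le_card hsub
        rw [card_insert_of_notMem hx'] at this
        omega
    · left
      rw [not_subset] at hS
      obtain ⟨v, hv, hv'⟩ := hS
      exact ⟨v, hv', Rch.base hv⟩

theorem cnt_nonneg (j : ℕ) : ∀ (S : Finset V) (O : Finset (Sym2 V)), 0 ≤ cnt Λ j S O := by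
  induction j with
  | zero => exact fun _ _ => le_rfl
  | succ j ih =>
    intro S O
    unfold cnt
    split_ifs
    · exact add_nonneg (Nat.cast_nonneg _) (ih _ _)
    · exact le_rfl

open Classical in
theorem cnt_le (j : ℕ) : ∀ (S : Finset V) (O : Finset (Sym2 V)),
    cnt Λ j S O ≤ ((Λ.filter fun v => Rch (insd Λ O) S v).card : ℝ) := by
  induction j with
  | zero => exact fun _ _ => Nat.cast_nonneg _
  | succ j ih =>
    intro S O
    unfold cnt
    split_ifs with hS
    swap
    · exact Nat.cast_nonneg _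
    have hSsub : S ⊆ Λ.filter fun v => Rch (insd Λ O) S v := fun v hv =>
      mem_filter.2 ⟨hS hv, Rch.base hv⟩
    by_cases hn : nxt S O ⊆ Λ
    · have h1 := ih (nxt S O) (rst O S)
      have hdis : Disjoint S (Λ.filter fun v => Rch (insd Λ (rst O S)) (nxt S O) v) := by
        rw [disjoint_left]
        intro v hv hv'
        refine rch_notMem (O := O) (S := S) (v := v) ?_ hv
        exact (mem_filter.1 hv').2.mono (fun e he => (mem_insd.1 he).1) (Subset.refl _)
      have hsub : S ∪ (Λ.filter fun v => Rch (insd Λ (rst O S)) (nxt S O) v) ⊆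
          Λ.filter fun v => Rch (insd Λ O) S v := by
        refine union_subset hSsub fun v hv => ?_
        rw [mem_filter] at hv ⊢
        refine ⟨hv.1, ?_⟩
        refine Rch.trans (S' := nxt S O) ?_ (hv.2.mono (fun e he => ?_) (Subset.refl _))
        · intro u hu
          obtain ⟨_, x, hx, h2⟩ := mem_nxt.1 hu
          refine Rch.step (Rch.base hx) (mem_insd.2 ⟨h2, fun y hy => ?_⟩)
          rcases Sym2.mem_iff.1 hy with rfl | rfl
          · exact hS hx
          · exact hn hu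
        · rw [mem_insd] at he ⊢
          exact ⟨(mem_rst.1 he.1).1, he.2⟩
      have h2 := card_le_card hsub
      rw [card_union_of_disjoint hdis] at h2
      have h3 : (S.card : ℝ) + ((Λ.filter fun v => Rch (insd Λ (rst O S)) (nxt S O) v).card : ℝ) ≤
          ((Λ.filter fun v => Rch (insd Λ O) S v).card : ℝ) := by exact_mod_cast h2
      linarith
    · have h1 : cnt Λ j (nxt S O) (rst O S) = 0 := by
        cases j with
        | zero => rfl
        | succ j => unfold cnt; rw [if_neg hn]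
      rw [h1, add_zero]
      exact_mod_cast card_le_card hSsub

theorem HT_level {p : ℝ} (j : ℕ) (A : Finset (Sym2 V)) {S : Finset V} (hS : S ⊆ Λ) :
    Pr p A (HT Λ (j + 1) S) =
      Ex p (inc A S) (fun ω => Pr p (rst A S) (HT Λ j (nxt S ω))) := by
  rw [Pr_level A S]
  refine Ex_congr fun ω hω => Pr_congr fun R hR => ?_
  show (¬ S ⊆ Λ ∨ HT Λ j (nxt S (ω ∪ R)) (rst (ω ∪ R) S)) ↔ HT Λ j (nxt S ω) R
  rw [nxt_union hR, rst_union hω hR]
  exact ⟨fun h => h.resolve_left (not_not.2 hS), Or.inr⟩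

theorem cnt_level {p : ℝ} (j : ℕ) (A : Finset (Sym2 V)) {S : Finset V} (hS : S ⊆ Λ) :
    Ex p A (cnt Λ (j + 1) S) =
      (S.card : ℝ) + Ex p (inc A S) (fun ω => Ex p (rst A S) (cnt Λ j (nxt S ω))) := by
  rw [Ex_level A S]
  have h1 : ∀ ω ⊆ inc A S, Ex p (rst A S) (fun R => cnt Λ (j + 1) S (ω ∪ R)) =
      (S.card : ℝ) + Ex p (rst A S) (cnt Λ j (nxt S ω)) := by
    intro ω hω
    have h2 : Ex p (rst A S) (fun R => cnt Λ (j + 1) S (ω ∪ R)) =
        Ex p (rst A S) (fun R => (S.card : ℝ) + cnt Λ j (nxt S ω) R) := by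
      refine Ex_congr fun R hR => ?_
      show (if S ⊆ Λ then (S.card : ℝ) + cnt Λ j (nxt S (ω ∪ R)) (rst (ω ∪ R) S) else 0) = _
      rw [if_pos hS, nxt_union hR, rst_union hω hR]
    rw [h2, Ex_add, Ex_const]
  rw [Ex_congr h1, Ex_add, Ex_const]

/-- the second moment inequality for the number of levels `j` -/
theorem two_x {q : ℝ} (hq0 : 0 ≤ q) (hq1 : q ≤ 1) {t : Set V} {x : ℝ} (j : ℕ) :
    ∀ (A : Finset (Sym2 V)) (S : Finset V), (∀ v ∈ t, v ∉ Λ) →
      2 * x * Q q t A S - x ^ 2 * Z2 Λ q t j A S ≤ Pr q A (HT Λ j S) := by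
  have hone : ∀ y : ℝ, 2 * x * y - x ^ 2 * y ^ 2 ≤ 1 := fun y => by nlinarith [sq_nonneg (x * y - 1)]
  induction j with
  | zero =>
    intro A S _
    rcases S.eq_empty_or_nonempty with rfl | hne
    · unfold Z2
      rw [Q_empty]
      have := Pr_nonneg hq0 hq1 A (HT Λ 0 ∅)
      simpa using this
    · have : Pr q A (HT Λ 0 S) = 1 := by
        rw [← Pr_true q A]
        exact Pr_congr fun O _ => ⟨fun _ => trivial, fun _ => hne⟩
      rw [this]
      exact hone _
  | succ j ih =>
    intro A S ht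
    by_cases hS : S ⊆ Λ
    · rw [HT_level j A hS]
      have htS : ∀ v ∈ t, v ∉ S := fun v hv hvS => ht v hv (hS hvS)
      have e1 : Q q t A S = Ex q (inc A S) (fun ω => Q q t (rst A S) (nxt S ω)) := by
        rw [Q_level_eq A htS]
        exact Ex_congr fun ω _ => (Pr_congr fun R _ => cover).symm
      have e2 : Z2 Λ q t (j + 1) A S = Ex q (inc A S) (fun ω => Z2 Λ q t j (rst A S) (nxt S ω)) := by
        show (if S ⊆ Λ then _ else _) = _
        rw [if_pos hS]
      have e3 : 2 * x * Q q t A S - x ^ 2 * Z2 Λ q t (j + 1) A S =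
          Ex q (inc A S) (fun ω => 2 * x * Q q t (rst A S) (nxt S ω) +
            (-(x ^ 2)) * Z2 Λ q t j (rst A S) (nxt S ω)) := by
        rw [Ex_add, Ex_smul, Ex_smul, e1, e2]
        ring
      rw [e3]
      refine Ex_mono hq0 hq1 fun ω _ => ?_
      have := ih (rst A S) (nxt S ω) ht
      linarith
    · have e2 : Z2 Λ q t (j + 1) A S = (Q q t A S) ^ 2 := by
        show (if S ⊆ Λ then _ else _) = _
        rw [if_neg hS]
      have : Pr q A (HT Λ (j + 1) S) = 1 := by
        rw [← Pr_true q A]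
        exact Pr_congr fun O _ => ⟨fun _ => trivial, fun _ => Or.inl hS⟩
      rw [this, e2]
      exact hone _

end General

variable {d : ℕ} {Λ : Finset (Fin d → ℤ)}

theorem Q_card_le {p : ℝ} (h0 : 0 ≤ p) (h1 : p ≤ 1) {A : Finset (Sym2 (Fin d → ℤ))} (hA : Lat A)
    {n N : ℕ} {S : Finset (Fin d → ℤ)} (hS : S ⊆ box 0 n) :
    Q p (sph (0 : Fin d → ℤ) (n + N) : Set (Fin d → ℤ)) A S ≤ (S.card : ℝ) * arm p d N := by
  have h2 : Q p (sph (0 : Fin d → ℤ) (n + N) : Set (Fin d → ℤ)) A S ≤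
      Pr p A (fun O => ∃ u ∈ S, ∃ v ∈ (sph (0 : Fin d → ℤ) (n + N) : Set (Fin d → ℤ)),
        Rch O {u} v) := by
    refine Pr_mono h0 h1 fun O _ => ?_
    rintro ⟨v, hv, hr⟩
    obtain ⟨y, hy, hr⟩ := rch_source hr
    exact ⟨y, hy, v, hv, hr⟩
  refine h2.trans ((Pr_exists_le h0 h1 A _ _).trans ?_)
  rw [← nsmul_eq_mul]
  refine sum_le_card_nsmul _ _ _ fun u hu => ?_
  exact far_le h0 h1 hA (hS hu)

/-- the second moments along the exploration -/
theorem Z2_le {q : ℝ} (hq0 : 0 ≤ q) (hq1 : q ≤ 1) {m N : ℕ} (hN : 1 ≤ N)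
    (hΛ : Λ ⊆ box 0 m) (j : ℕ) :
    ∀ (A : Finset (Sym2 (Fin d → ℤ))) (S : Finset (Fin d → ℤ)), Lat A →
      Z2 Λ q (sph (0 : Fin d → ℤ) (m + 1 + N) : Set (Fin d → ℤ)) j A S ≤
        (Q q (sph (0 : Fin d → ℤ) (m + 1 + N) : Set (Fin d → ℤ)) A S) ^ 2 +
          (1 - q) * arm q d N ^ 2 * Ex q A (cnt Λ j S) := by
  set t : Set (Fin d → ℤ) := (sph (0 : Fin d → ℤ) (m + 1 + N) : Set (Fin d → ℤ)) with ht
  set θ := arm q d N with hθdef
  have hθ0 : 0 ≤ θ := Q_nonneg hq0 hq1 _ _ _
  induction j with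
  | zero =>
    intro A S _
    have : Ex q A (cnt Λ 0 S) = 0 := Ex_const q 0 A
    rw [this, mul_zero, add_zero]
    exact le_rfl
  | succ j ih =>
    intro A S hA
    by_cases hS : S ⊆ Λ
    swap
    · have e2 : Z2 Λ q t (j + 1) A S = (Q q t A S) ^ 2 := by
        show (if S ⊆ Λ then _ else _) = _
        rw [if_neg hS]
      rw [e2]
      have h1 : 0 ≤ Ex q A (cnt Λ (j + 1) S) := by
        rw [← Ex_const q 0 A]
        exact Ex_mono hq0 hq1 fun O _ => cnt_nonneg _ _ _
      have := mul_nonneg (mul_nonneg (sub_nonneg.2 hq1) (sq_nonneg θ)) h1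
      linarith
    · have hR : Lat (rst A S) := fun x y h => hA x y (mem_rst.1 h).1
      have hSm : S ⊆ box 0 m := hS.trans hΛ
      have htS : ∀ v ∈ t, v ∉ S := by
        intro v hv hvS
        have h1 := Pool.Agent.FPP38.mem_box.1 (hSm hvS)
        rw [ht, mem_coe, mem_sph] at hv
        obtain ⟨_, i, hi⟩ := hv
        have := h1 i
        push_cast at hi
        omega
      have hY : ∀ e ∈ inc A S, Pr q (rst A S) (Ye t S e) ≤ θ := by
        intro e he
        by_cases hex : ∃ x ∈ S, ∃ y, y ∉ S ∧ e = s(x, y)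
        · obtain ⟨x, hx, y, hy, rfl⟩ := hex
          have hle : Pr q (rst A S) (Ye t S s(x, y)) ≤ Q q t (rst A S) {y} := by
            refine Pr_mono hq0 hq1 fun R _ => ?_
            rintro ⟨x', hx', y', hy', h1, v, hv, hr⟩
            rw [Sym2.eq_iff] at h1
            rcases h1 with ⟨rfl, rfl⟩ | ⟨rfl, rfl⟩
            · exact ⟨v, hv, hr⟩
            · exact absurd hx' hy
          refine hle.trans (far_le hq0 hq1 hR ?_)
          have h2 := Pool.Agent.FPP38.mem_box.1 (hSm hx)
          have h3 := (hA _ _ (mem_inc.1 he).1).symm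
          rw [Pool.Agent.FPP38.mem_box]
          intro i
          have h4 := h2 i
          have h5 := h3.abs_le i
          have h6 : |y i - (0 : Fin d → ℤ) i| ≤ |y i - x i| + |x i - (0 : Fin d → ℤ) i| :=
            abs_sub_le _ _ _
          push_cast
          linarith
        · have : Pr q (rst A S) (Ye t S e) = 0 := by
            rw [← Pr_false q (rst A S)]
            refine Pr_congr fun R _ => ⟨?_, fun h => h.elim⟩
            rintro ⟨x, hx, y, hy, h1, _⟩
            exact hex ⟨x, hx, y, hy, h1⟩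
          rw [this]
          exact hθ0
      have hsec := second hq0 hq1 (rst A S) (Ye t S) (inc A S) hY (fun _ => True)
      simp only [true_and] at hsec
      have e1 : Q q t A S = Ex q (inc A S) (fun ω => Pr q (rst A S)
        (fun R => ∃ e ∈ ω, Ye t S e R)) := Q_level_eq A htS
      rw [← e1] at hsec
      have e2 : Z2 Λ q t (j + 1) A S = Ex q (inc A S) (fun ω => Z2 Λ q t j (rst A S) (nxt S ω)) := by
        show (if S ⊆ Λ then _ else _) = _
        rw [if_pos hS]
      have h1 : Z2 Λ q t (j + 1) A S ≤ Ex q (inc A S) (fun ω => (Pr q (rst A S)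
          (fun R => ∃ e ∈ ω, Ye t S e R)) ^ 2 + (1 - q) * θ ^ 2 *
            Ex q (rst A S) (cnt Λ j (nxt S ω))) := by
        rw [e2]
        refine Ex_mono hq0 hq1 fun ω _ => ?_
        have h2 := ih (rst A S) (nxt S ω) hR
        have h3 : Q q t (rst A S) (nxt S ω) = Pr q (rst A S) (fun R => ∃ e ∈ ω, Ye t S e R) :=
          Pr_congr fun R _ => cover
        rwa [h3] at h2
      rw [Ex_add, Ex_smul] at h1
      have h4 : Q q t A S ≤ (S.card : ℝ) * θ := by
        have h5 : S ⊆ box (0 : Fin d → ℤ) (m + 1) := hSm.trans (box_mono (by omega))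
        exact Q_card_le hq0 hq1 hA h5
      rw [cnt_level j A hS]
      have h6 : (1 - q) * θ * Q q t A S ≤ (1 - q) * θ * ((S.card : ℝ) * θ) :=
        mul_le_mul_of_nonneg_left h4 (mul_nonneg (sub_nonneg.2 hq1) hθ0)
      nlinarith

end Pool.Agent.Arm55
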