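import Pool.Agent.Arm55.Lev

/-!
The one-arm probabilities of critical percolation on regular trees.
-/

set_option autoImplicit false

open Finset MeasureTheory Filter Topology
open scoped NNReal ENNReal

namespace Pool.Agent.Arm55

open Pool.Agent.FPP38

/-- one generation: `1 - (1 - q y) ^ (1 / q)` -/
noncomputable def TT (q y : ℝ) : ℝ := 1 - (1 - q * y) ^ (1 / q)

/-- The numbers `surv q 0 = 1`, `surv q (n + 1) = 1 - (1 - q * surv q n) ^ (1 / q)`. For `q = 1 / b`
this is the probability that percolation with parameter `q` on the tree in which every vertex has `b`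
children reaches generation `n` from the root. -/
noncomputable def surv (q : ℝ) : ℕ → ℝ
  | 0 => 1
  | n + 1 => 1 - (1 - q * surv q n) ^ (1 / q)

theorem surv_eq (q : ℝ) (n : ℕ) : surv q n = (TT q)^[n] 1 := by
  induction n with
  | zero => rfl
  | succ n ih =>
    rw [Function.iterate_succ_apply', ← ih]
    rfl

theorem continuous_TT {q : ℝ} (hq : 0 < q) : Continuous (TT q) := by
  unfold TT
  refine continuous_const.sub ((Real.continuous_rpow_const (by positivity)).comp ?_)
  fun_prop

theorem surv_mem {q : ℝ} (hq0 : 0 < q) (hq1 : q ≤ 1) (n : ℕ) : 0 < surv q n ∧ surv q n ≤ 1 := by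
  induction n with
  | zero => exact ⟨one_pos, le_rfl⟩
  | succ n ih =>
    have h1 : 0 ≤ 1 - q * surv q n := by nlinarith [ih.1, ih.2]
    have h2 : 1 - q * surv q n < 1 := by nlinarith [mul_pos hq0 ih.1]
    constructor
    · have := Real.rpow_lt_one h1 h2 (z := 1 / q) (by positivity)
      show 0 < 1 - (1 - q * surv q n) ^ (1 / q)
      linarith
    · have := Real.rpow_nonneg h1 (1 / q)
      show 1 - (1 - q * surv q n) ^ (1 / q) ≤ 1
      linarith

theorem surv_one (n : ℕ) : surv 1 n = 1 := by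
  induction n with
  | zero => rfl
  | succ n ih =>
    show 1 - (1 - 1 * surv 1 n) ^ ((1 : ℝ) / 1) = 1
    rw [ih]
    norm_num

/-- the exponents of the exploration in terms of `TT` -/
theorem expo_TT {q θ s : ℝ} (hq0 : 0 < q) (hq1 : q ≤ 1) (hθ : 0 < θ) (j : ℕ) :
    1 - Real.exp (-(expo q θ s j * θ)) = (TT q)^[j] (1 - Real.exp (-(s * θ))) := by
  induction j with
  | zero => rfl
  | succ j ih =>
    rw [Function.iterate_succ_apply', ← ih]
    show 1 - Real.exp (-(rho q θ (expo q θ s j) * θ)) =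
      1 - (1 - q * (1 - Real.exp (-(expo q θ s j * θ)))) ^ (1 / q)
    rw [← exp_rho hq0 hq1 hθ, ← Real.exp_mul]
    congr 2
    field_simp

theorem lower_step {q κ y : ℝ} (hq0 : 0 < q) (hq1 : q < 1) (hκ0 : 0 < κ) (hκ1 : κ < 1)
    (hy0 : 0 ≤ y) (hy1 : y ≤ 1) (hy : κ * (1 - κ) * y ≤ 2 * κ - (1 - q)) :
    y / (1 + κ * y) ≤ TT q y := by
  have hpos1 : ∀ x ∈ Set.Icc (0 : ℝ) y, 0 < 1 + (κ - 1) * x := by
    intro x hx
    nlinarith [hx.1, hx.2]
  have hpos2 : ∀ x ∈ Set.Icc (0 : ℝ) y, 0 < 1 + κ * x := by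
    intro x hx
    nlinarith [hx.1, hx.2]
  have hpos3 : ∀ x ∈ Set.Icc (0 : ℝ) y, 0 < 1 - q * x := by
    intro x hx
    nlinarith [hx.1, hx.2]
  have hder : ∀ x ∈ Set.Icc (0 : ℝ) y, HasDerivAt
      (fun x => Real.log (1 + (κ - 1) * x) - Real.log (1 + κ * x) - 1 / q * Real.log (1 - q * x))
      ((κ - 1) / (1 + (κ - 1) * x) - κ / (1 + κ * x) - 1 / q * (-q / (1 - q * x))) x := by
    intro x hx
    have g1 : HasDerivAt (fun x : ℝ => 1 + (κ - 1) * x) (κ - 1) x := by
      simpa using ((hasDerivAt_id x).const_mul (κ - 1)).const_add 1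
    have g2 : HasDerivAt (fun x : ℝ => 1 + κ * x) κ x := by
      simpa using ((hasDerivAt_id x).const_mul κ).const_add 1
    have g3 : HasDerivAt (fun x : ℝ => 1 - q * x) (-q) x := by
      simpa using ((hasDerivAt_id x).const_mul q).const_sub 1
    exact ((g1.log (hpos1 x hx).ne').sub (g2.log (hpos2 x hx).ne')).sub
      ((g3.log (hpos3 x hx).ne').const_mul (1 / q))
  have hmono : MonotoneOn (fun x => Real.log (1 + (κ - 1) * x) - Real.log (1 + κ * x) -
      1 / q * Real.log (1 - q * x)) (Set.Icc 0 y) := by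
    refine monotoneOn_of_deriv_nonneg (convex_Icc 0 y)
      (fun x hx => (hder x hx).continuousAt.continuousWithinAt)
      (fun x hx => ((hder x (interior_subset hx)).differentiableAt).differentiableWithinAt)
      fun x hx => ?_
    have hx' := interior_subset hx
    rw [(hder x hx').deriv]
    have p1 := hpos1 x hx'
    have p2 := hpos2 x hx'
    have p3 := hpos3 x hx'
    have e : (κ - 1) / (1 + (κ - 1) * x) - κ / (1 + κ * x) - 1 / q * (-q / (1 - q * x)) =
        x * ((2 * κ - (1 - q)) - κ * (1 - κ) * x) /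
          ((1 + (κ - 1) * x) * (1 + κ * x) * (1 - q * x)) := by
      have hA := p1.ne'
      have hB := p2.ne'
      have hC := p3.ne'
      have e1 : 1 / q * (-q / (1 - q * x)) = -(1 / (1 - q * x)) := by field_simp
      rw [e1, sub_neg_eq_add, div_sub_div _ _ hA hB, div_add_div _ _ (mul_ne_zero hA hB) hC]
      congr 1
      ring
    rw [e]
    refine div_nonneg (mul_nonneg hx'.1 ?_) (by positivity)
    have : κ * (1 - κ) * x ≤ κ * (1 - κ) * y :=
      mul_le_mul_of_nonneg_left hx'.2 (mul_nonneg hκ0.le (by linarith))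
    linarith
  have h := hmono (Set.left_mem_Icc.2 hy0) (Set.right_mem_Icc.2 hy0) hy0
  simp only [mul_zero, add_zero, sub_zero, Real.log_one] at h
  have p1 := hpos1 y (Set.right_mem_Icc.2 hy0)
  have p2 := hpos2 y (Set.right_mem_Icc.2 hy0)
  have p3 := hpos3 y (Set.right_mem_Icc.2 hy0)
  have h2 : (1 - q * y) ^ (1 / q) ≤ (1 + (κ - 1) * y) / (1 + κ * y) := by
    rw [Real.rpow_def_of_pos p3, ← Real.le_log_iff_exp_le (div_pos p1 p2),
      Real.log_div p1.ne' p2.ne']
    linarith
  have h3 : y / (1 + κ * y) = 1 - (1 + (κ - 1) * y) / (1 + κ * y) := by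
    field_simp
    ring
  rw [h3, TT]
  linarith

theorem inv_step {q κ : ℝ} (hq0 : 0 < q) (hq1 : q < 1) (hκ0 : 0 < κ) (hκ1 : κ < 1) (n : ℕ)
    (hy : κ * (1 - κ) * surv q n ≤ 2 * κ - (1 - q)) :
    1 / surv q (n + 1) ≤ 1 / surv q n + κ := by
  obtain ⟨h0, h1⟩ := surv_mem hq0 hq1.le n
  have h2 := lower_step hq0 hq1 hκ0 hκ1 h0.le h1 hy
  have h3 : 0 < 1 + κ * surv q n := by positivity
  have h4 : 0 < surv q n / (1 + κ * surv q n) := by positivity
  have h5 : 1 / surv q (n + 1) ≤ 1 / (surv q n / (1 + κ * surv q n)) :=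
    one_div_le_one_div_of_le h4 h2
  refine h5.trans (le_of_eq ?_)
  field_simp

theorem surv_explicit {q : ℝ} (hq0 : 0 < q) (hq1 : q ≤ 1) (n : ℕ) :
    1 / (1 + (1 - q) * n) ≤ surv q n := by
  rcases hq1.lt_or_eq with hq | rfl
  · have key : 1 / surv q n ≤ 1 + (1 - q) * n := by
      induction n with
      | zero => simp [surv]
      | succ n ih =>
        have h1 := (surv_mem hq0 hq.le n)
        have h2 := inv_step hq0 hq (κ := 1 - q) (by linarith) (by linarith) n (by
          have : (1 - q) * (1 - (1 - q)) * surv q n = (1 - q) * (q * surv q n) := by ring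
          rw [this]
          have h3 : q * surv q n ≤ 1 := by nlinarith [h1.1, h1.2]
          nlinarith)
        push_cast
        linarith
    have h0 := (surv_mem hq0 hq.le n).1
    have h1 : 0 < 1 + (1 - q) * (n : ℝ) := by
      have : 0 ≤ (1 - q) * (n : ℝ) := mul_nonneg (by linarith) (Nat.cast_nonneg _)
      linarith
    rw [div_le_iff₀ h1]
    rw [div_le_iff₀ h0] at key
    linarith
  · rw [surv_one]; simp

theorem surv_linear {q κ : ℝ} (hq0 : 0 < q) (hq1 : q < 1) (hκ : (1 - q) / 2 < κ) (hκ1 : κ < 1) :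
    ∃ C : ℝ, 0 < C ∧ ∀ n : ℕ, 1 / surv q n ≤ C + κ * n := by
  have hκ0 : 0 < κ := by linarith
  set δ := (2 * κ - (1 - q)) / (κ * (1 - κ)) with hδ
  have hδ0 : 0 < δ := div_pos (by linarith) (mul_pos hκ0 (by linarith))
  refine ⟨1 / δ + 1, by positivity, fun n => ?_⟩
  induction n with
  | zero =>
    have : 0 < 1 / δ := by positivity
    simp only [surv, Nat.cast_zero, mul_zero, add_zero, div_one]
    linarith
  | succ n ih =>
    have h1 := surv_mem hq0 hq1.le n
    have hk : 0 ≤ κ * (n : ℝ) := by positivity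
    rcases le_or_gt (surv q n) δ with h | h
    · have h2 := inv_step hq0 hq1 hκ0 hκ1 n (by
        have h3 : κ * (1 - κ) * δ = 2 * κ - (1 - q) := by
          rw [hδ]
          have : (1 - κ) ≠ 0 := by linarith
          field_simp
        rw [← h3]
        exact mul_le_mul_of_nonneg_left h (mul_nonneg hκ0.le (by linarith)))
      push_cast
      linarith
    · have h2 := inv_step hq0 hq1 (κ := 1 - q) (by linarith) (by linarith) n (by
          have : (1 - q) * (1 - (1 - q)) * surv q n = (1 - q) * (q * surv q n) := by ring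
          rw [this]
          have h3 : q * surv q n ≤ 1 := by nlinarith [h1.1, h1.2]
          nlinarith)
      have h3 : 1 / surv q n ≤ 1 / δ := one_div_le_one_div_of_le hδ0 h.le
      push_cast
      linarith

/-- `liminf n * surv q n ≥ 2 / (1 - q)` -/
theorem surv_liminf {q c : ℝ} (hq0 : 0 < q) (hq1 : q < 1) (hc : c < 2 / (1 - q)) :
    ∀ᶠ n : ℕ in atTop, c ≤ n * surv q n := by
  rcases le_or_gt c 0 with hc0 | hc0
  · exact Eventually.of_forall fun n => hc0.trans
      (mul_nonneg (Nat.cast_nonneg _) (surv_mem hq0 hq1.le n).1.le)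
  · have h1 : 0 < 1 - q := by linarith
    have h2 : (1 - q) / 2 < 1 / c := by
      rw [div_lt_div_iff₀ two_pos hc0]
      rw [lt_div_iff₀ h1] at hc
      linarith
    obtain ⟨κ, hκ1, hκ2⟩ := exists_between (lt_min h2 (show (1 - q) / 2 < 1 by linarith))
    have hκ0 : 0 < κ := by linarith
    have hκc : κ * c < 1 := by
      have := (hκ2.trans_le (min_le_left _ _))
      rwa [lt_div_iff₀ hc0] at this
    obtain ⟨C, hC0, hC⟩ := surv_linear hq0 hq1 hκ1 (hκ2.trans_le (min_le_right _ _))
    obtain ⟨m, hm⟩ := exists_nat_ge (c * C / (1 - κ * c))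
    filter_upwards [eventually_ge_atTop m] with n hn
    have h3 : c * C / (1 - κ * c) ≤ n := hm.trans (by exact_mod_cast hn)
    rw [div_le_iff₀ (by linarith)] at h3
    have h4 := hC n
    have h5 := (surv_mem hq0 hq1.le n).1
    rw [div_le_iff₀ h5] at h4
    have h6 : c * (C + κ * n) ≤ n := by nlinarith
    have h7 : 0 ≤ C + κ * (n : ℝ) := by positivity
    nlinarith

end Pool.Agent.Arm55
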