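import Pool.Agent.Arm55.Cmp

/-!
The comparison at and below the critical point: exploration at `p`, connection to a far sphere at `q`.
-/

set_option autoImplicit false

open Finset MeasureTheory Filter Topology
open scoped NNReal ENNReal

namespace Pool.Agent.Arm55

open Pool.Agent.FPP38

section General

variable {V : Type*} [DecidableEq V]

theorem split_cov {q : ℝ} (A : Finset (Sym2 V)) (Y : Sym2 V → Finset (Sym2 V) → Prop)
    (W : Finset (Sym2 V) → Prop) (e : Sym2 V) (ω : Finset (Sym2 V)) :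
    Pr q A (fun R => W R ∧ ∃ f ∈ insert e ω, Y f R) =
      Pr q A (fun R => W R ∧ Y e R) + Pr q A (fun R => (W R ∧ ¬ Y e R) ∧ ∃ f ∈ ω, Y f R) := by
  classical
  unfold Pr
  simp only
  rw [← sum_add_distrib]
  refine sum_congr rfl fun R _ => ?_
  rw [← mul_add]
  congr 1
  by_cases hW : W R
  · by_cases hYe : Y e R
    · rw [if_pos ⟨hW, e, mem_insert_self _ _, hYe⟩, if_pos ⟨hW, hYe⟩,
        if_neg (fun h => h.1.2 hYe), add_zero]
    · by_cases hex : ∃ f ∈ ω, Y f R
      · rw [if_pos ⟨hW, by obtain ⟨f, h1, h2⟩ := hex; exact ⟨f, mem_insert_of_mem h1, h2⟩⟩,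
          if_neg (fun h => hYe h.2), if_pos ⟨⟨hW, hYe⟩, hex⟩, zero_add]
      · rw [if_neg, if_neg (fun h => hYe h.2), if_neg (fun h => hex h.2), add_zero]
        rintro ⟨_, f, h1, h2⟩
        rcases mem_insert.1 h1 with rfl | h1
        · exact hYe h2
        · exact hex ⟨f, h1, h2⟩
  · rw [if_neg (fun h => hW h.1), if_neg (fun h => hW h.1), if_neg (fun h => hW h.1.1),
      add_zero]

theorem Ex_empty (p : ℝ) (f : Finset (Sym2 V) → ℝ) : Ex p ∅ f = f ∅ := by
  unfold Ex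
  rw [powerset_empty, sum_singleton]
  simp [wt]

theorem cov_empty (q : ℝ) (A : Finset (Sym2 V)) (Y : Sym2 V → Finset (Sym2 V) → Prop)
    (W : Finset (Sym2 V) → Prop) :
    Pr q A (fun R => W R ∧ ∃ e ∈ (∅ : Finset (Sym2 V)), Y e R) = 0 := by
  rw [← Pr_false q A]
  exact Pr_congr fun R _ => by simp

/-- the Laplace transform of a coverage function, two parameters -/
theorem laplace2 {p q θ s : ℝ} (hp0 : 0 < p) (hp1 : p ≤ 1) (hq0 : 0 ≤ q) (hq1 : q ≤ 1)
    (hθ : 0 < θ) (hs : 0 ≤ s)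
    (A : Finset (Sym2 V)) (Y : Sym2 V → Finset (Sym2 V) → Prop) (E : Finset (Sym2 V))
    (hY : ∀ e ∈ E, Pr q A (Y e) ≤ θ) : ∀ W : Finset (Sym2 V) → Prop,
    Ex p E (fun ω => Real.exp (-(s * Pr q A (fun R => W R ∧ ∃ e ∈ ω, Y e R)))) ≤
      Real.exp (-(rho p θ s * Ex p E (fun ω => Pr q A (fun R => W R ∧ ∃ e ∈ ω, Y e R)))) := by
  classical
  induction E using Finset.induction_on with
  | empty =>
    intro W
    rw [Ex_empty, Ex_empty, cov_empty, mul_zero, mul_zero]
  | insert e E he ih =>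
    intro W
    have hYE : ∀ f ∈ E, Pr q A (Y f) ≤ θ := fun f hf => hY f (mem_insert_of_mem hf)
    set ρ := rho p θ s with hρ
    set a := Pr q A (fun R => W R ∧ Y e R) with ha
    set g0 : Finset (Sym2 V) → ℝ := fun ω => Pr q A (fun R => W R ∧ ∃ f ∈ ω, Y f R) with hg0
    set g1 : Finset (Sym2 V) → ℝ := fun ω =>
      Pr q A (fun R => (W R ∧ ¬ Y e R) ∧ ∃ f ∈ ω, Y f R) with hg1
    have hsplit : ∀ ω, Pr q A (fun R => W R ∧ ∃ f ∈ insert e ω, Y f R) = a + g1 ω :=
      split_cov A Y W e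
    have ha0 : 0 ≤ a := Pr_nonneg hq0 hq1 _ _
    have haθ : a ≤ θ := (Pr_mono hq0 hq1 fun R _ h => h.2).trans (hY e (mem_insert_self _ _))
    set G0 := Ex p E g0 with hG0
    set G1 := Ex p E g1 with hG1
    have hle1 : G1 ≤ G0 := Ex_mono hp0.le hp1 fun ω _ =>
      Pr_mono hq0 hq1 fun R _ h => ⟨h.1.1, h.2⟩
    have hle2 : G0 ≤ G1 + a := by
      have h1 : G0 ≤ Ex p E (fun ω => g1 ω + a) := by
        refine Ex_mono hp0.le hp1 fun ω _ => ?_
        refine le_trans (Pr_mono hq0 hq1 fun R _ h => ?_) (Pr_or_le hq0 hq1 A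
          (fun R => (W R ∧ ¬ Y e R) ∧ ∃ f ∈ ω, Y f R) (fun R => W R ∧ Y e R))
        by_cases hYe : Y e R
        · exact Or.inr ⟨h.1, hYe⟩
        · exact Or.inl ⟨⟨h.1, hYe⟩, h.2⟩
      rwa [Ex_add, Ex_const] at h1
    have hL : Ex p (insert e E) (fun ω => Real.exp (-(s * Pr q A (fun R => W R ∧ ∃ f ∈ ω, Y f R)))) =
        p * (Real.exp (-(s * a)) * Ex p E (fun ω => Real.exp (-(s * g1 ω)))) +
          (1 - p) * Ex p E (fun ω => Real.exp (-(s * g0 ω))) := by
      rw [Ex_insert he, ← Ex_smul p (Real.exp (-(s * a))) E]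
      congr 2
      refine Ex_congr fun ω _ => ?_
      rw [hsplit, ← Real.exp_add]
      congr 1
      ring
    have hR : Ex p (insert e E) (fun ω => Pr q A (fun R => W R ∧ ∃ f ∈ ω, Y f R)) =
        p * (a + G1) + (1 - p) * G0 := by
      rw [Ex_insert he]
      congr 2
      have : Ex p E (fun ω => Pr q A (fun R => W R ∧ ∃ f ∈ insert e ω, Y f R)) =
          Ex p E (fun ω => a + g1 ω) := Ex_congr fun ω _ => hsplit ω
      rw [this, Ex_add, Ex_const]
    rw [hL, hR]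
    have i1 := ih hYE (fun R => W R ∧ ¬ Y e R)
    have i0 := ih hYE W
    have hD := two_point hp0 hp1 hθ hs (D := G0 - G1) (a := a) (by linarith) (by linarith) haθ
    calc p * (Real.exp (-(s * a)) * Ex p E (fun ω => Real.exp (-(s * g1 ω)))) +
          (1 - p) * Ex p E (fun ω => Real.exp (-(s * g0 ω))) ≤
        p * (Real.exp (-(s * a)) * Real.exp (-(ρ * G1))) + (1 - p) * Real.exp (-(ρ * G0)) := by
          refine add_le_add (mul_le_mul_of_nonneg_left (mul_le_mul_of_nonneg_left i1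
            (Real.exp_pos _).le) hp0.le) (mul_le_mul_of_nonneg_left i0 (sub_nonneg.2 hp1))
      _ = ((1 - p) + p * Real.exp (-(s * a) + ρ * (G0 - G1))) * Real.exp (-(ρ * G0)) := by
          have : Real.exp (-(s * a)) * Real.exp (-(ρ * G1)) =
              Real.exp (-(s * a) + ρ * (G0 - G1)) * Real.exp (-(ρ * G0)) := by
            rw [← Real.exp_add, ← Real.exp_add]; congr 1; ring
          rw [this]; ring
      _ ≤ Real.exp (-(ρ * (p * (a - (G0 - G1))))) * Real.exp (-(ρ * G0)) :=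
          mul_le_mul_of_nonneg_right hD (Real.exp_pos _).le
      _ = Real.exp (-(ρ * (p * (a + G1) + (1 - p) * G0))) := by
          rw [← Real.exp_add]; congr 1; ring

/-- thinning a coverage function -/
theorem thin_cov {p q : ℝ} (hp0 : 0 ≤ p) (hpq : p ≤ q) (hq0 : 0 < q) (hq1 : q ≤ 1)
    (A : Finset (Sym2 V)) (Y : Sym2 V → Finset (Sym2 V) → Prop) (E : Finset (Sym2 V)) :
    ∀ W : Finset (Sym2 V) → Prop,
    p / q * Ex q E (fun ω => Pr q A (fun R => W R ∧ ∃ e ∈ ω, Y e R)) ≤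
      Ex p E (fun ω => Pr q A (fun R => W R ∧ ∃ e ∈ ω, Y e R)) := by
  classical
  induction E using Finset.induction_on with
  | empty =>
    intro W
    rw [Ex_empty, Ex_empty, cov_empty, mul_zero]
  | insert e E he ih =>
    intro W
    have hp1 : p ≤ 1 := hpq.trans hq1
    set a := Pr q A (fun R => W R ∧ Y e R) with ha
    set g0 : Finset (Sym2 V) → ℝ := fun ω => Pr q A (fun R => W R ∧ ∃ f ∈ ω, Y f R) with hg0
    set g1 : Finset (Sym2 V) → ℝ := fun ω =>
      Pr q A (fun R => (W R ∧ ¬ Y e R) ∧ ∃ f ∈ ω, Y f R) with hg1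
    have hsplit : ∀ ω, Pr q A (fun R => W R ∧ ∃ f ∈ insert e ω, Y f R) = a + g1 ω :=
      split_cov A Y W e
    have hR : ∀ r : ℝ, Ex r (insert e E) (fun ω => Pr q A (fun R => W R ∧ ∃ f ∈ ω, Y f R)) =
        r * (a + Ex r E g1) + (1 - r) * Ex r E g0 := by
      intro r
      rw [Ex_insert he]
      congr 2
      have : Ex r E (fun ω => Pr q A (fun R => W R ∧ ∃ f ∈ insert e ω, Y f R)) =
          Ex r E (fun ω => a + g1 ω) := Ex_congr fun ω _ => hsplit ω
      rw [this, Ex_add, Ex_const]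
    rw [hR q, hR p]
    have i1 : p / q * Ex q E g1 ≤ Ex p E g1 := ih (fun R => W R ∧ ¬ Y e R)
    have i0 : p / q * Ex q E g0 ≤ Ex p E g0 := ih W
    have hle : Ex q E g1 ≤ Ex q E g0 := Ex_mono hq0.le hq1 fun ω _ =>
      Pr_mono hq0.le hq1 fun R _ h => ⟨h.1.1, h.2⟩
    set x := Ex q E g0 with hx
    set y := Ex q E g1 with hy
    set r := p / q with hr
    have hpr : p = r * q := by rw [hr]; field_simp
    have hr0 : 0 ≤ r := div_nonneg hp0 hq0.le
    have hr1 : r ≤ 1 := (div_le_one hq0).2 hpq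
    have j1 := mul_le_mul_of_nonneg_left i1 hp0
    have j0 := mul_le_mul_of_nonneg_left i0 (sub_nonneg.2 hp1)
    have j2 : 0 ≤ r * q * (1 - r) * (x - y) :=
      mul_nonneg (mul_nonneg (mul_nonneg hr0 hq0.le) (sub_nonneg.2 hr1)) (sub_nonneg.2 hle)
    have e1 : r * (q * (a + y) + (1 - q) * x) =
        p * a + p * (r * y) + (1 - p) * (r * x) - r * q * (1 - r) * (x - y) := by
      rw [hpr]; ring
    linarith

end General

/-- the iterated exponents, two parameters -/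
noncomputable def expo2 (p q θ s : ℝ) : ℕ → ℝ
  | 0 => s
  | j + 1 => p / q * rho p θ (expo2 p q θ s j)

theorem expo2_nonneg {p q θ s : ℝ} (hp0 : 0 < p) (hp1 : p ≤ 1) (hq0 : 0 < q) (hθ : 0 < θ)
    (hs : 0 ≤ s) (j : ℕ) : 0 ≤ expo2 p q θ s j := by
  induction j with
  | zero => exact hs
  | succ j ih => exact mul_nonneg (div_nonneg hp0.le hq0.le) (rho_nonneg hp0 hp1 hθ ih)

/-- one generation: `1 - (1 - p y) ^ (1 / q)` -/
noncomputable def TT2 (p q y : ℝ) : ℝ := 1 - (1 - p * y) ^ (1 / q)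

/-- The numbers `tsurv p c 0 = 1`, `tsurv p c (n + 1) = 1 - (1 - p * tsurv p c n) ^ (1 / c)`. For
`c = 1 / b` this is the probability that percolation with parameter `p` on the tree in which every
vertex has `b` children (whose critical point is `c`) reaches generation `n` from the root. -/
noncomputable def tsurv (p c : ℝ) : ℕ → ℝ
  | 0 => 1
  | n + 1 => 1 - (1 - p * tsurv p c n) ^ (1 / c)

theorem tsurv_eq (p c : ℝ) (n : ℕ) : tsurv p c n = (TT2 p c)^[n] 1 := by
  induction n with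
  | zero => rfl
  | succ n ih =>
    rw [Function.iterate_succ_apply', ← ih]
    rfl

theorem tsurv_self (q : ℝ) (n : ℕ) : tsurv q q n = surv q n := by
  induction n with
  | zero => rfl
  | succ n ih =>
    show 1 - (1 - q * tsurv q q n) ^ (1 / q) = 1 - (1 - q * surv q n) ^ (1 / q)
    rw [ih]

theorem continuous_TT2 {p q : ℝ} (hq : 0 < q) : Continuous (TT2 p q) := by
  unfold TT2
  refine continuous_const.sub ((Real.continuous_rpow_const (by positivity)).comp ?_)
  fun_prop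

theorem expo2_TT2 {p q θ s : ℝ} (hp0 : 0 < p) (hp1 : p ≤ 1) (hq0 : 0 < q) (hθ : 0 < θ) (j : ℕ) :
    1 - Real.exp (-(expo2 p q θ s j * θ)) = (TT2 p q)^[j] (1 - Real.exp (-(s * θ))) := by
  induction j with
  | zero => rfl
  | succ j ih =>
    rw [Function.iterate_succ_apply', ← ih]
    show 1 - Real.exp (-(p / q * rho p θ (expo2 p q θ s j) * θ)) =
      1 - (1 - p * (1 - Real.exp (-(expo2 p q θ s j * θ)))) ^ (1 / q)
    rw [← exp_rho hp0 hp1 hθ, ← Real.exp_mul]
    congr 2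
    field_simp

variable {d : ℕ}

/-- **The comparison, two parameters.** -/
theorem level_bound2 {p q : ℝ} (hp0 : 0 < p) (hpq : p ≤ q) (hq1 : q ≤ 1) {n N : ℕ} (hN : 1 ≤ N)
    (hθ : 0 < arm q d N) {s : ℝ} (hs : 0 ≤ s) (j : ℕ) :
    ∀ (m : ℕ) (A : Finset (Sym2 (Fin d → ℤ))) (S : Finset (Fin d → ℤ)), Lat A → m + j ≤ n →
      S ⊆ box 0 m →
      1 - Real.exp (-(expo2 p q (arm q d N) s j *
        Q q (sph (0 : Fin d → ℤ) (n + N) : Set (Fin d → ℤ)) A S)) ≤ Pr p A (RS j S) := by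
  have hq0 : 0 < q := hp0.trans_le hpq
  have hp1 : p ≤ 1 := hpq.trans hq1
  induction j with
  | zero =>
    intro m A S hA hm hS
    rcases S.eq_empty_or_nonempty with rfl | hne
    · rw [Q_empty, mul_zero, neg_zero, Real.exp_zero, sub_self]
      exact Pr_nonneg hp0.le hp1 _ _
    · have : Pr p A (RS 0 S) = 1 := by
        rw [← Pr_true p A]
        exact Pr_congr fun O _ => ⟨fun _ => trivial, fun _ => hne⟩
      rw [this]
      linarith [Real.exp_pos (-(expo2 p q (arm q d N) s 0 *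
        Q q (sph (0 : Fin d → ℤ) (n + N) : Set (Fin d → ℤ)) A S))]
  | succ j ih =>
    intro m A S hA hm hS
    set t : Set (Fin d → ℤ) := (sph (0 : Fin d → ℤ) (n + N) : Set (Fin d → ℤ)) with ht
    set θ := arm q d N with hθdef
    have hR : Lat (rst A S) := fun x y h => hA x y (mem_rst.1 h).1
    have htS : ∀ v ∈ t, v ∉ S := by
      intro v hv hvS
      have h1 := Pool.Agent.FPP38.mem_box.1 (hS hvS)
      rw [ht, mem_coe, mem_sph] at hv
      obtain ⟨_, i, hi⟩ := hv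
      have := h1 i
      push_cast at hi
      omega
    have hY : ∀ e ∈ inc A S, Pr q (rst A S) (Ye t S e) ≤ θ := by
      intro e he
      by_cases hex : ∃ x ∈ S, ∃ y, y ∉ S ∧ e = s(x, y)
      · obtain ⟨x, hx, y, hy, rfl⟩ := hex
        have hle : Pr q (rst A S) (Ye t S s(x, y)) ≤ Q q t (rst A S) {y} := by
          refine Pr_mono hq0.le hq1 fun R _ => ?_
          rintro ⟨x', hx', y', hy', h1, v, hv, hr⟩
          rw [Sym2.eq_iff] at h1
          rcases h1 with ⟨rfl, rfl⟩ | ⟨rfl, rfl⟩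
          · exact ⟨v, hv, hr⟩
          · exact absurd hx' hy
        refine hle.trans (far_le hq0.le hq1 hR ?_)
        have h1 : y ∈ box (0 : Fin d → ℤ) (m + 1) := by
          have h2 := Pool.Agent.FPP38.mem_box.1 (hS hx)
          have h3 := (hA _ _ (mem_inc.1 he).1).symm
          rw [Pool.Agent.FPP38.mem_box]
          intro i
          have h4 := h2 i
          have h5 := h3.abs_le i
          have h6 : |y i - (0 : Fin d → ℤ) i| ≤ |y i - x i| + |x i - (0 : Fin d → ℤ) i| :=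
            abs_sub_le _ _ _
          push_cast
          linarith
        exact box_mono (by omega) h1
      · have : Pr q (rst A S) (Ye t S e) = 0 := by
          rw [← Pr_false q (rst A S)]
          refine Pr_congr fun R _ => ⟨?_, fun h => h.elim⟩
          rintro ⟨x, hx, y, hy, h1, _⟩
          exact hex ⟨x, hx, y, hy, h1⟩
        rw [this]
        exact hθ.le
    set σ := expo2 p q θ s j with hσ
    have hσ0 : 0 ≤ σ := expo2_nonneg hp0 hp1 hq0 hθ hs j
    have hlap := laplace2 hp0 hp1 hq0.le hq1 hθ hσ0 (rst A S) (Ye t S) (inc A S) hY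
      (fun _ => True)
    have hthin := thin_cov hp0.le hpq hq0 hq1 (rst A S) (Ye t S) (inc A S) (fun _ => True)
    simp only [true_and] at hlap hthin
    rw [RS_level]
    have h1 : Ex p (inc A S) (fun ω => 1 - Real.exp (-(σ * Pr q (rst A S)
        (fun R => ∃ e ∈ ω, Ye t S e R)))) ≤
        Ex p (inc A S) (fun ω => Pr p (rst A S) (RS j (nxt S ω))) := by
      refine Ex_mono hp0.le hp1 fun ω hω => ?_
      have h2 := ih (m + 1) (rst A S) (nxt S ω) hR (by omega)
        (nxt_box hA hS (hω.trans fun e he => (mem_inc.1 he).1))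
      have h3 : Q q t (rst A S) (nxt S ω) = Pr q (rst A S) (fun R => ∃ e ∈ ω, Ye t S e R) :=
        Pr_congr fun R _ => cover
      rwa [h3] at h2
    have h4 : Ex p (inc A S) (fun ω => 1 - Real.exp (-(σ * Pr q (rst A S)
        (fun R => ∃ e ∈ ω, Ye t S e R)))) = 1 - Ex p (inc A S) (fun ω =>
          Real.exp (-(σ * Pr q (rst A S) (fun R => ∃ e ∈ ω, Ye t S e R)))) := by
      have h5 := Ex_add p (inc A S) (fun _ => (1 : ℝ)) (fun ω => (-1) *
        Real.exp (-(σ * Pr q (rst A S) (fun R => ∃ e ∈ ω, Ye t S e R))))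
      rw [Ex_smul, Ex_const] at h5
      rw [show (fun ω => 1 - Real.exp (-(σ * Pr q (rst A S) (fun R => ∃ e ∈ ω, Ye t S e R)))) =
        fun ω => 1 + (-1) * Real.exp (-(σ * Pr q (rst A S) (fun R => ∃ e ∈ ω, Ye t S e R))) from
        funext fun ω => by ring, h5]
      ring
    rw [h4] at h1
    refine le_trans ?_ h1
    have hρ0 : 0 ≤ rho p θ σ := rho_nonneg hp0 hp1 hθ hσ0
    have hQ := Q_level hq0.le hq1 A htS
    have h5 : Real.exp (-(rho p θ σ * Ex p (inc A S) (fun ω => Pr q (rst A S)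
        (fun R => ∃ e ∈ ω, Ye t S e R)))) ≤ Real.exp (-(p / q * rho p θ σ * Q q t A S)) := by
      refine Real.exp_le_exp.2 (neg_le_neg ?_)
      have h6 : p / q * Q q t A S ≤ Ex p (inc A S) (fun ω => Pr q (rst A S)
          (fun R => ∃ e ∈ ω, Ye t S e R)) :=
        (mul_le_mul_of_nonneg_left hQ (div_nonneg hp0.le hq0.le)).trans hthin
      have h7 := mul_le_mul_of_nonneg_left h6 hρ0
      refine le_trans (le_of_eq ?_) h7
      ring
    have h6 : expo2 p q θ s (j + 1) = p / q * rho p θ σ := rfl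
    rw [h6]
    linarith

theorem two_box2 {p q : ℝ≥0} (hp0 : 0 < p) (hpq : p ≤ q) (hp1 : p ≤ 1) (hq1 : q ≤ 1) {n N : ℕ}
    (hN : 1 ≤ N) (hθ : 0 < arm q d N) {v : ℝ} (hv : 0 ≤ v) :
    1 - (1 - (TT2 (p : ℝ) q)^[n] (1 - Real.exp (-v))) ^ (arm q d (n + N) / arm q d N) ≤
      armIn p hp1 d n := by
  have h0 : (0 : ℝ) < p := by exact_mod_cast hp0
  have hq0 : (0 : ℝ) < q := by exact_mod_cast hp0.trans_le hpq
  have h1 : (q : ℝ) ≤ 1 := by exact_mod_cast hq1
  have h1' : (p : ℝ) ≤ 1 := by exact_mod_cast hp1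
  have hpq' : (p : ℝ) ≤ q := by exact_mod_cast hpq
  have hs : 0 ≤ v / arm q d N := div_nonneg hv hθ.le
  have h2 := level_bound2 (n := n) h0 hpq' h1 hN hθ hs n 0 (EB (0 : Fin d → ℤ) (n + N)) {0}
    (lat_EB _ _) (by omega) (singleton_subset_iff.2 (self_mem_box _ _))
  have h3 : Pr (p : ℝ) (EB (0 : Fin d → ℤ) (n + N)) (RS n {0}) ≤ armIn p hp1 d n := by
    rw [armIn_eq' hp1 (Nat.le_add_right n N)]
    exact Pr_mono h0.le h1' fun O hO h => RS_XI (fun x y hxy => lat_EB _ _ x y (hO hxy)) h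
  refine le_trans (le_of_eq ?_) (h2.trans h3)
  have h4 := expo2_TT2 (s := v / arm q d N) h0 h1' hq0 hθ n
  rw [div_mul_cancel₀ _ hθ.ne'] at h4
  rw [← h4, sub_sub_cancel, ← Real.exp_mul]
  congr 2
  show -(expo2 (p : ℝ) q (arm q d N) (v / arm q d N) n * arm q d N) *
    (arm q d (n + N) / arm q d N) =
      -(expo2 (p : ℝ) q (arm q d N) (v / arm q d N) n * arm q d (n + N))
  field_simp

theorem tsurv_le_super {p q : ℝ≥0} (hp0 : 0 < p) (hpq : p ≤ q) (hp1 : p ≤ 1) (hq : pc d < q)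
    (hq1 : q ≤ 1) (n : ℕ) : tsurv p q n ≤ armIn p hp1 d n := by
  have h1 : (q : ℝ) ≤ 1 := by exact_mod_cast hq1
  have hq0 : 0 < q := (pc_pos d).trans hq
  have h0 : (0 : ℝ) < q := by exact_mod_cast hq0
  have h0' : (0 : ℝ) < p := by exact_mod_cast hp0
  have h1' : (p : ℝ) ≤ 1 := by exact_mod_cast hp1
  obtain ⟨c, hc, hcN⟩ := arm_pos hq hq1
  have step1 : ∀ v : ℝ, 0 ≤ v → (TT2 (p : ℝ) q)^[n] (1 - Real.exp (-v)) ≤ armIn p hp1 d n := by
    intro v hv
    have hpos : 0 < 1 - (TT2 (p : ℝ) q)^[n] (1 - Real.exp (-v)) := by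
      have h2 := expo2_TT2 (θ := (1 : ℝ)) (s := v) h0' h1' h0 one_pos n
      rw [mul_one v] at h2
      rw [← h2, sub_sub_cancel]
      exact Real.exp_pos _
    have hlim : Tendsto (fun N => 1 - (1 - (TT2 (p : ℝ) q)^[n] (1 - Real.exp (-v))) ^
        (arm (q : ℝ) d (n + N) / arm (q : ℝ) d N)) atTop
        (𝓝 (1 - (1 - (TT2 (p : ℝ) q)^[n] (1 - Real.exp (-v))) ^ (1 : ℝ))) := by
      refine tendsto_const_nhds.sub ?_
      exact ((Real.continuous_const_rpow hpos.ne').tendsto 1).comp (arm_ratio hq hq1 n)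
    rw [Real.rpow_one, sub_sub_cancel] at hlim
    refine le_of_tendsto hlim ?_
    filter_upwards [eventually_ge_atTop 1] with N hN
    exact two_box2 hp0 hpq hp1 hq1 hN (hc.trans_le (hcN N)) hv
  rw [tsurv_eq]
  have hlim2 : Tendsto (fun v : ℝ => (TT2 (p : ℝ) q)^[n] (1 - Real.exp (-v))) atTop
      (𝓝 ((TT2 (p : ℝ) q)^[n] (1 - 0))) := by
    refine (((continuous_TT2 h0).iterate n).tendsto _).comp ?_
    exact tendsto_const_nhds.sub Real.tendsto_exp_neg_atTop_nhds_zero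
  rw [sub_zero] at hlim2
  refine le_of_tendsto hlim2 ?_
  filter_upwards [eventually_ge_atTop (0 : ℝ)] with v hv
  exact step1 v hv

theorem continuousAt_tsurv {p q : ℝ} (hq : 0 < q) (n : ℕ) :
    ContinuousAt (fun q => tsurv p q n) q := by
  induction n with
  | zero => exact continuousAt_const
  | succ n ih =>
    show ContinuousAt (fun q => 1 - (1 - p * tsurv p q n) ^ (1 / q)) q
    refine continuousAt_const.sub (ContinuousAt.rpow ?_ ?_ (Or.inr (by positivity)))
    · exact continuousAt_const.sub (continuousAt_const.mul ih)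
    · exact continuousAt_const.div continuousAt_id hq.ne'

theorem tsurv_one (p : ℝ) (n : ℕ) : tsurv p 1 n = p ^ n := by
  induction n with
  | zero => rfl
  | succ n ih =>
    show 1 - (1 - p * tsurv p 1 n) ^ ((1 : ℝ) / 1) = _
    rw [ih, div_one, Real.rpow_one, pow_succ]
    ring

/-- a straight line of `n` open edges -/
theorem pow_le_armIn (hd : 0 < d) {p : ℝ≥0} (hp1 : p ≤ 1) (n : ℕ) :
    (p : ℝ) ^ n ≤ armIn p hp1 d n := by
  have h1 : (p : ℝ) ≤ 1 := by exact_mod_cast hp1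
  have hRL := line_RL n (⟨0, hd⟩ : Fin d) n le_rfl
  obtain ⟨F, hF1, hF2, hF3⟩ := hRL.fin
  have hs : (Pi.single (⟨0, hd⟩ : Fin d) (n : ℤ) : Fin d → ℤ) ∈ sph (0 : Fin d → ℤ) n := by
    refine mem_sph.2 ⟨fun i => Pool.Agent.FPP38.mem_box.1 hRL.mem_box i, ⟨0, hd⟩, ?_⟩
    rw [Pi.single_eq_same]
    simp
  have hFsub : F ⊆ EB (0 : Fin d → ℤ) n := fun e he => hF2 e he
  have h2 : (p : ℝ) ^ n ≤ (p : ℝ) ^ F.card := pow_le_pow_of_le_one p.coe_nonneg h1 hF1
  refine h2.trans ?_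
  rw [← Pr_subset hFsub, armIn_eq]
  refine Pr_mono p.coe_nonneg h1 fun O _ hFO => ?_
  exact geo_of_far (hF3.mono fun e he => hFO he) hs

/-- **The comparison with the tree, at and below the critical point.** -/
theorem tsurv_le_armIn (hd : 0 < d) {p : ℝ≥0} (hp0 : 0 < p) (hp : p ≤ pc d) (hp1 : p ≤ 1)
    (n : ℕ) : tsurv p (pc d) n ≤ armIn p hp1 d n := by
  rcases (pc_le_one d).lt_or_eq with h1 | h1
  · have hpc0 : (0 : ℝ) < pc d := by exact_mod_cast pc_pos d
    have hlt : ((pc d : ℝ≥0) : ℝ) < 1 := by exact_mod_cast h1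
    have hc1 : Tendsto (fun q : ℝ => tsurv p q n) (𝓝[>] ((pc d : ℝ≥0) : ℝ))
        (𝓝 (tsurv p (pc d : ℝ≥0) n)) :=
      ((continuousAt_tsurv hpc0 n).tendsto).mono_left nhdsWithin_le_nhds
    refine le_of_tendsto hc1 ?_
    filter_upwards [Ioo_mem_nhdsGT hlt] with r hr
    have hr0 : 0 ≤ r := hpc0.le.trans hr.1.le
    have h2 : pc d < (⟨r, hr0⟩ : ℝ≥0) := by
      rw [← NNReal.coe_lt_coe]
      exact hr.1
    have h3 : (⟨r, hr0⟩ : ℝ≥0) ≤ 1 := NNReal.coe_le_coe.1 hr.2.le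
    exact tsurv_le_super hp0 (hp.trans h2.le) hp1 h2 h3 n
  · have h2 : ((pc d : ℝ≥0) : ℝ) = 1 := by rw [h1]; rfl
    rw [h2, tsurv_one]
    exact pow_le_armIn hd hp1 n

end Pool.Agent.Arm55
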